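import Pool.Agent.BK.Sig

/-! Basic lemmas on values of word functions on labelled Lie monomials. -/

namespace Pool.Agent.BK

open Pool.Agent.H25

variable {α β : Type} {K : Type*} [Field K]

/-- relabelling -/
def LT.map (f : α → β) : LT α → LT β
  | LT.leaf x => LT.leaf (f x)
  | LT.node a b => LT.node (LT.map f a) (LT.map f b)

lemma val_congr (L : LT α) {φ χ : List α → K} (h : ∀ w, w.Perm L.leaves → φ w = χ w) :
    L.val φ = L.val χ := by
  induction L generalizing φ χ with
  | leaf x => exact h [x] (List.Perm.refl _)
  | node a b iha ihb =>
    rw [LT.val, LT.val]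
    congr 1
    · refine iha (fun p hp => ihb (fun q hq => h _ ?_))
      exact hp.append hq
    · refine ihb (fun q hq => iha (fun p hp => h _ ?_))
      exact (List.perm_append_comm).trans (hp.append hq)

lemma val_zero (L : LT α) : L.val (fun _ => (0 : K)) = 0 := by
  induction L with
  | leaf x => rfl
  | node a b iha ihb => rw [LT.val]; simp only [iha, ihb, sub_self]

lemma val_add (L : LT α) (φ χ : List α → K) : L.val (fun w => φ w + χ w) = L.val φ + L.val χ := by
  induction L generalizing φ χ with
  | leaf x => rfl
  | node a b iha ihb => rw [LT.val, LT.val, LT.val]; simp only [iha, ihb]; ring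

lemma val_sub (L : LT α) (φ χ : List α → K) : L.val (fun w => φ w - χ w) = L.val φ - L.val χ := by
  induction L generalizing φ χ with
  | leaf x => rfl
  | node a b iha ihb => rw [LT.val, LT.val, LT.val]; simp only [iha, ihb]; ring

lemma val_mul_left (L : LT α) (c : K) (φ : List α → K) : L.val (fun w => c * φ w) = c * L.val φ := by
  induction L generalizing φ with
  | leaf x => rfl
  | node a b iha ihb => rw [LT.val, LT.val]; simp only [iha, ihb]; ring

lemma val_mul_right (L : LT α) (c : K) (φ : List α → K) : L.val (fun w => φ w * c) = L.val φ * c := by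
  simp only [mul_comm _ c]
  exact val_mul_left L c φ

/-- Fubini -/
lemma val_val (L : LT α) (M : LT β) (φ : List α → List β → K) :
    L.val (fun p => M.val (fun q => φ p q)) = M.val (fun q => L.val (fun p => φ p q)) := by
  induction L generalizing φ with
  | leaf x => rfl
  | node a b iha ihb =>
    simp only [LT.val]
    rw [val_sub]
    congr 1
    · rw [← iha]
      simp only [ihb]
    · rw [← ihb]
      simp only [iha]

lemma val_map (f : α → β) (L : LT α) (φ : List β → K) :
    (L.map f).val φ = L.val (fun w => φ (w.map f)) := by
  induction L generalizing φ with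
  | leaf x => rfl
  | node a b iha ihb => simp only [LT.map, LT.val, iha, ihb, List.map_append]

lemma shape_map (f : α → β) (L : LT α) : (L.map f).shape = L.shape := by
  induction L with
  | leaf x => rfl
  | node a b iha ihb => simp only [LT.map, LT.shape, iha, ihb]

lemma leaves_map (f : α → β) (L : LT α) : (L.map f).leaves = L.leaves.map f := by
  induction L with
  | leaf x => rfl
  | node a b iha ihb => simp only [LT.map, LT.leaves, iha, ihb, List.map_append]

lemma clade_zero {C L : LT α} (hC : LT.Cl C L) {φ : List α → K}
    (h : ∀ u v, C.val (fun w => φ (u ++ w ++ v)) = 0) : L.val φ = 0 := by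
  induction hC generalizing φ with
  | refl => simpa using h [] []
  | @left a b _ ih =>
    rw [LT.val]
    have h1 : ∀ q : List α, a.val (fun p => φ (p ++ q)) = 0 := fun q =>
      ih (fun u v => by simpa only [List.append_assoc] using h u (v ++ q))
    have h2 : ∀ q : List α, a.val (fun p => φ (q ++ p)) = 0 := fun q =>
      ih (fun u v => by simpa only [List.append_assoc] using h (q ++ u) v)
    rw [val_val]
    simp only [h1, h2, val_zero, sub_self]
  | @right b a _ ih =>
    rw [LT.val]
    have h1 : ∀ p : List α, b.val (fun q => φ (p ++ q)) = 0 := fun p =>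
      ih (fun u v => by simpa only [List.append_assoc] using h (p ++ u) v)
    have h2 : ∀ p : List α, b.val (fun q => φ (q ++ p)) = 0 := fun p =>
      ih (fun u v => by simpa only [List.append_assoc] using h u (v ++ p))
    rw [val_val b a]
    simp only [h1, h2, val_zero, sub_self]

lemma length_leaves (L : LT α) : L.leaves.length = L.shape.lv := by
  induction L with
  | leaf x => rfl
  | node a b iha ihb => simp only [LT.leaves, LT.shape, BT.lv, List.length_append, iha, ihb]

lemma exists_perm_of_val_ne (L : LT α) {φ : List α → K} (h : L.val φ ≠ 0) :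
    ∃ w, w.Perm L.leaves ∧ φ w ≠ 0 := by
  by_contra hcon
  push Not at hcon
  apply h
  rw [val_congr L (χ := fun _ => 0) hcon, val_zero]

lemma Cl_trans {A B C : LT α} (h : LT.Cl A B) (h' : LT.Cl B C) : LT.Cl A C := by
  induction h' with
  | refl => exact h
  | left b _ ih => exact LT.Cl.left b ih
  | right a _ ih => exact LT.Cl.right a ih

end Pool.Agent.BK
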