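import Pool.Agent.BK.Sig

/-! Board BK, row R11: combinatorics of the additive invariants -/

namespace Pool.Agent.BK

open Pool.Agent.H25

private lemma cg0 {r : ℕ} (hr : 1 ≤ r) : ∀ {s : BT}, s.lv < r → cge r s = 0
  | BT.leaf, h => by
    have h' : 1 < r := h
    rw [cge, if_neg (by omega)]
  | BT.node a b, h => by
    have h' : a.lv + b.lv < r := h
    have ha := a.lv_pos
    have hb := b.lv_pos
    rw [cge, cg0 hr (s := a) (by omega), cg0 hr (s := b) (by omega), if_pos rfl, if_neg (by omega)]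

private lemma cg1 {r : ℕ} : ∀ {s : BT}, r ≤ s.lv → 1 ≤ cge r s
  | BT.leaf, h => by
    have h' : r ≤ 1 := h
    rw [cge, if_pos h']
  | BT.node a b, h => by
    have h' : r ≤ a.lv + b.lv := h
    rw [cge]
    split_ifs with h1
    · exact le_refl _
    · omega

private lemma cge_eq1 {r : ℕ} (hr : 1 ≤ r) : ∀ {s : BT}, s.lv = r → cge r s = 1
  | BT.leaf, h => by
    have h' : 1 = r := h
    rw [cge, if_pos (by omega)]
  | BT.node a b, h => by
    have h' : a.lv + b.lv = r := h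
    have ha := a.lv_pos
    have hb := b.lv_pos
    rw [cge, cg0 hr (s := a) (by omega), cg0 hr (s := b) (by omega), if_pos rfl, if_pos (by omega)]

private lemma cge_add {r : ℕ} {a b : BT} (h : r ≤ a.lv ∨ r ≤ b.lv) :
    cge r (BT.node a b) = cge r a + cge r b := by
  rw [cge, if_neg]
  rcases h with h | h
  · have := cg1 h; omega
  · have := cg1 h; omega

private lemma rn0 {r : ℕ} (hr : 1 ≤ r) (al : BT → Prop) : ∀ {s : BT}, s.lv ≤ r → Rn r al s = 0
  | BT.leaf, _ => by rw [Rn]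
  | BT.node a b, h => by
    have h' : a.lv + b.lv ≤ r := h
    have ha := a.lv_pos
    have hb := b.lv_pos
    rw [Rn, rn0 hr al (s := a) (by omega), rn0 hr al (s := b) (by omega), if_neg]
    rintro (⟨_, h2⟩ | ⟨_, h2⟩) <;> omega

private lemma kn0 {r : ℕ} (hr : 1 ≤ r) (al : BT → Prop) (m : ℕ) :
    ∀ {s : BT}, s.lv ≤ r → Kn r al m s = 0
  | BT.leaf, _ => by rw [Kn]
  | BT.node a b, h => by
    have h' : a.lv + b.lv ≤ r := h
    have ha := a.lv_pos
    have hb := b.lv_pos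
    rw [Kn, kn0 hr al m (s := a) (by omega), kn0 hr al m (s := b) (by omega), if_neg]
    rintro (⟨_, h2, _⟩ | ⟨_, h2, _⟩) <;> omega

private lemma rn_lt {r : ℕ} (hr : 1 ≤ r) (al : BT → Prop) : ∀ {s : BT}, r ≤ s.lv →
    Rn r al s + 1 ≤ cge r s
  | BT.leaf, h => by
    have := cg1 h
    rw [Rn]; omega
  | BT.node a b, h => by
    have h0 := cg1 h
    rw [Rn]
    by_cases ha : r ≤ a.lv
    · have h1 := rn_lt hr al ha
      rw [cge_add (Or.inl ha)]
      by_cases hb : r ≤ b.lv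
      · have h2 := rn_lt hr al hb
        split_ifs <;> omega
      · rw [rn0 hr al (s := b) (by omega), if_neg]
        · omega
        · rintro (⟨_, h3⟩ | ⟨⟨h3, _⟩, _⟩) <;> omega
    · by_cases hb : r ≤ b.lv
      · have h2 := rn_lt hr al hb
        rw [cge_add (Or.inr hb), rn0 hr al (s := a) (by omega), if_neg]
        · omega
        · rintro (⟨⟨h3, _⟩, _⟩ | ⟨_, h3⟩) <;> omega
      · rw [rn0 hr al (s := a) (by omega), rn0 hr al (s := b) (by omega), if_neg]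
        · omega
        · rintro (⟨⟨h3, _⟩, _⟩ | ⟨⟨h3, _⟩, _⟩) <;> omega

private lemma mk_pos {r : ℕ} (hr : 1 ≤ r) (al : BT → Prop) {s : BT} (h : r ≤ s.lv) :
    1 ≤ mk r al s := by
  have := rn_lt hr al h
  unfold mk; omega

private lemma mk_small {r : ℕ} (hr : 1 ≤ r) (al : BT → Prop) {s : BT} (h : s.lv < r) :
    mk r al s = 0 := by
  unfold mk; rw [cg0 hr h]; omega

private lemma mk_one {r : ℕ} (hr : 1 ≤ r) (al : BT → Prop) {s : BT} (h : s.lv = r) :
    mk r al s = 1 := by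
  unfold mk; rw [cge_eq1 hr h, rn0 hr al h.le]

/-- a node without object -/
private lemma mk_add {r : ℕ} (hr : 1 ≤ r) (al : BT → Prop) {a b : BT} (h : r ≤ a.lv ∨ r ≤ b.lv)
    (hn : ¬ ((Aliv r al a ∧ r ≤ b.lv) ∨ (Aliv r al b ∧ r ≤ a.lv))) :
    mk r al (BT.node a b) = mk r al a + mk r al b := by
  unfold mk
  rw [cge_add h, Rn, if_neg hn]
  have h1 : Rn r al a ≤ cge r a := by
    by_cases ha : r ≤ a.lv
    · have := rn_lt hr al ha; omega
    · rw [rn0 hr al (by omega)]; exact Nat.zero_le _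
  have h2 : Rn r al b ≤ cge r b := by
    by_cases hb : r ≤ b.lv
    · have := rn_lt hr al hb; omega
    · rw [rn0 hr al (by omega)]; exact Nat.zero_le _
  omega

/-- a node with object -/
private lemma mk_inc {r : ℕ} (hr : 1 ≤ r) (al : BT → Prop) {a b : BT}
    (hn : (Aliv r al a ∧ r ≤ b.lv) ∨ (Aliv r al b ∧ r ≤ a.lv)) :
    mk r al (BT.node a b) + 1 = mk r al a + mk r al b := by
  have ha : r ≤ a.lv := by
    rcases hn with h | h
    · exact h.1.1.ge
    · exact h.2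
  have hb : r ≤ b.lv := by
    rcases hn with h | h
    · exact h.2
    · exact h.1.1.ge
  unfold mk
  rw [cge_add (Or.inl ha), Rn, if_pos hn]
  have h1 := rn_lt hr al ha
  have h2 := rn_lt hr al hb
  omega

private lemma mk_mono {r : ℕ} (hr : 1 ≤ r) (al : BT → Prop) (a b : BT) :
    mk r al a ≤ mk r al (BT.node a b) ∧ mk r al b ≤ mk r al (BT.node a b) := by
  by_cases h : r ≤ a.lv ∨ r ≤ b.lv
  · by_cases hn : (Aliv r al a ∧ r ≤ b.lv) ∨ (Aliv r al b ∧ r ≤ a.lv)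
    · have h1 := mk_inc hr al hn
      have ha : r ≤ a.lv := by
        rcases hn with h | h
        · exact h.1.1.ge
        · exact h.2
      have hb : r ≤ b.lv := by
        rcases hn with h | h
        · exact h.2
        · exact h.1.1.ge
      have h2 := mk_pos hr al ha
      have h3 := mk_pos hr al hb
      omega
    · have h1 := mk_add hr al h hn
      omega
  · have h1 : a.lv < r ∧ b.lv < r := by omega
    rw [mk_small hr al h1.1, mk_small hr al h1.2]
    omega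

private lemma kn_zero {r : ℕ} (hr : 1 ≤ r) (al : BT → Prop) (m : ℕ) :
    ∀ {s : BT}, mk r al s < m → Kn r al m s = 0
  | BT.leaf, _ => by rw [Kn]
  | BT.node a b, h => by
    obtain ⟨h1, h2⟩ := mk_mono hr al a b
    rw [Kn, kn_zero hr al m (s := a) (by omega), kn_zero hr al m (s := b) (by omega), if_neg]
    rintro (⟨_, h4, h3⟩ | ⟨_, h4, h3⟩)
    · have := Nat.le_of_dvd (mk_pos hr al h4) h3
      omega
    · have := Nat.le_of_dvd (mk_pos hr al h4) h3
      omega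

/-- the main test: an alive smaller child against two children which are not objects -/
private lemma no_obj {r : ℕ} (hr : 1 ≤ r) (al : BT → Prop) {a b a' b' : BT} (hb : b.lv = r)
    (hal : al b) (ha : r ≤ a.lv) (ha' : r ≤ a'.lv) (hb' : r ≤ b'.lv) (hna : ¬ Aliv r al a')
    (hnb : ¬ Aliv r al b') (hc : cge r (BT.node a b) = cge r (BT.node a' b'))
    (hR : Rn r al (BT.node a b) = Rn r al (BT.node a' b'))
    (hK : ∀ m, 2 ≤ m → Kn r al m (BT.node a b) = Kn r al m (BT.node a' b')) : False := by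
  have hin : (Aliv r al a ∧ r ≤ b.lv) ∨ (Aliv r al b ∧ r ≤ a.lv) := Or.inr ⟨⟨hb, hal⟩, ha⟩
  have h1 := mk_inc hr al hin
  rw [mk_one hr al hb] at h1
  have hno : ¬ ((Aliv r al a' ∧ r ≤ b'.lv) ∨ (Aliv r al b' ∧ r ≤ a'.lv)) := by
    rintro (h | h)
    · exact hna h.1
    · exact hnb h.1
  have h2 := mk_add hr al (Or.inl ha') hno
  have h3 := mk_pos hr al ha'
  have h4 := mk_pos hr al hb'
  have h5 : mk r al (BT.node a b) = mk r al (BT.node a' b') := by unfold mk; rw [hc, hR]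
  have h6 := hK (mk r al (BT.node a b)) (by omega)
  rw [Kn, Kn, kn_zero hr al _ (s := a') (by omega), kn_zero hr al _ (s := b') (by omega),
    if_pos (Or.inr ⟨⟨hb, hal⟩, ha, by
      have : mk r al (BT.node a b) = mk r al a := by omega
      rw [this]⟩), if_neg] at h6
  · omega
  · rintro (⟨h, _⟩ | ⟨h, _⟩)
    · exact hna h
    · exact hnb h

variable {K : Type*} [Field K]

theorem X0_iso {s t : BT} (h : BT.Iso s t) : X0 K s = X0 K t := by
  induction h with
  | leaf => rfl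
  | node _ _ h1 h2 => rw [X0, X0, h1, h2]
  | swap _ _ h1 h2 => rw [X0, X0, h1, h2, br_comm]

theorem eqv_symm {a b : BT} : Eqv K a b → Eqv K b a := by
  rintro ⟨h1, h2⟩
  refine ⟨h1.symm, fun r hr hr' => ?_⟩
  obtain ⟨h3, h4⟩ := h2 r hr (by omega)
  exact ⟨h3.symm, fun P => ⟨(h4 P).1.symm, fun m hm => ((h4 P).2 m hm).symm⟩⟩

private lemma cge_swap (r : ℕ) (a b : BT) : cge r (BT.node a b) = cge r (BT.node b a) := by
  rw [cge, cge, add_comm (cge r a), add_comm a.lv]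

private lemma Rn_swap (r : ℕ) (al : BT → Prop) (a b : BT) :
    Rn r al (BT.node a b) = Rn r al (BT.node b a) := by
  rw [Rn, Rn, add_comm (Rn r al a)]
  by_cases h : (Aliv r al a ∧ r ≤ b.lv) ∨ (Aliv r al b ∧ r ≤ a.lv)
  · rw [if_pos h, if_pos h.symm]
  · rw [if_neg h, if_neg (fun h' => h h'.symm)]

private lemma Kn_swap (r : ℕ) (al : BT → Prop) (m : ℕ) (a b : BT) :
    Kn r al m (BT.node a b) = Kn r al m (BT.node b a) := by
  rw [Kn, Kn, add_comm (Kn r al m a)]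
  by_cases h : (Aliv r al a ∧ r ≤ b.lv ∧ m ∣ mk r al b) ∨ (Aliv r al b ∧ r ≤ a.lv ∧ m ∣ mk r al a)
  · rw [if_pos h, if_pos h.symm]
  · rw [if_neg h, if_neg (fun h' => h h'.symm)]

theorem eqv_swap {a b c : BT} : Eqv K (BT.node a b) c → Eqv K (BT.node b a) c := by
  rintro ⟨h1, h2⟩
  have h0 : (BT.node b a).lv = (BT.node a b).lv := by rw [BT.lv, BT.lv, add_comm]
  refine ⟨h0.trans h1, fun r hr hr' => ?_⟩
  obtain ⟨h3, h4⟩ := h2 r hr (by omega)
  exact ⟨(cge_swap r b a).trans h3, fun P => ⟨(Rn_swap r _ b a).trans (h4 P).1,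
    fun m hm => (Kn_swap r _ m b a).trans ((h4 P).2 m hm)⟩⟩

private lemma S1le {a b a' b' : BT} (hb : b.lv ≤ a.lv) (hb' : b'.lv ≤ a'.lv)
    (h : Eqv K (BT.node a b) (BT.node a' b')) : ¬ b.lv < b'.lv := by
  intro hlt
  obtain ⟨h1, h2⟩ := h
  have hr := b.lv_pos
  have ha := a.lv_pos
  have h1' : a.lv + b.lv = a'.lv + b'.lv := h1
  obtain ⟨h3, h4⟩ := h2 b.lv hr (by change b.lv < a.lv + b.lv; omega)
  obtain ⟨h5, h6⟩ := h4 ⊥
  refine no_obj (r := b.lv) hr (alN ⊥) rfl ?_ hb (by omega) (by omega) ?_ ?_ h3 h5 h6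
  · intro hc
    exact X0_ne_bot (K := K) b (le_bot_iff.1 hc)
  · rintro ⟨h7, _⟩; omega
  · rintro ⟨h7, _⟩; omega

theorem S1 {a b a' b' : BT} (hb : b.lv ≤ a.lv) (hb' : b'.lv ≤ a'.lv)
    (h : Eqv K (BT.node a b) (BT.node a' b')) : b.lv = b'.lv := by
  have h1 := S1le hb hb' h
  have h2 := S1le hb' hb (eqv_symm h)
  omega

private lemma S2le {a b a' b' : BT} (hb : b.lv < a.lv) (hbb : b.lv = b'.lv)
    (h : Eqv K (BT.node a b) (BT.node a' b')) : X0 K b ≤ X0 K b' := by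
  by_contra hc
  obtain ⟨h1, h2⟩ := h
  have hr := b.lv_pos
  have h1' : a.lv + b.lv = a'.lv + b'.lv := h1
  obtain ⟨h3, h4⟩ := h2 b.lv hr (by change b.lv < a.lv + b.lv; omega)
  obtain ⟨h5, h6⟩ := h4 (X0 K b')
  refine no_obj (r := b.lv) hr (alN (X0 K b')) rfl hc hb.le (by omega) (by omega) ?_ ?_ h3 h5 h6
  · rintro ⟨h7, _⟩; omega
  · rintro ⟨_, h7⟩; exact h7 (le_refl _)

theorem S2 {a b a' b' : BT} (hb : b.lv < a.lv) (hbb : b.lv = b'.lv)
    (h : Eqv K (BT.node a b) (BT.node a' b')) : X0 K b = X0 K b' := by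
  have h1' : a.lv + b.lv = a'.lv + b'.lv := h.1
  exact le_antisymm (S2le hb hbb h) (S2le (by omega) hbb.symm (eqv_symm h))

theorem S3 {a b a' b' : BT} (hb : b.lv < a.lv) (hbb : b.lv = b'.lv) (hX : X0 K b = X0 K b')
    (hE : Eqv K b b') (h : Eqv K (BT.node a b) (BT.node a' b')) : Eqv K a a' := by
  obtain ⟨h1, h2⟩ := h
  have hbp := b.lv_pos
  have h1' : a.lv + b.lv = a'.lv + b'.lv := h1
  refine ⟨by omega, fun r hr hra => ?_⟩
  obtain ⟨h3, h4⟩ := h2 r hr (by change r < a.lv + b.lv; omega)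
  rw [cge_add (Or.inl (by omega)), cge_add (Or.inl (by omega))] at h3
  have hcb : cge r b = cge r b' := by
    rcases lt_trichotomy r b.lv with h | h | h
    · exact (hE.2 r hr h).1
    · rw [cge_eq1 hr (by omega), cge_eq1 hr (by omega)]
    · rw [cg0 hr h, cg0 hr (by omega)]
  have hca : cge r a = cge r a' := by omega
  refine ⟨hca, fun P => ?_⟩
  obtain ⟨h5, h6⟩ := h4 P
  have hal : Aliv r (alN P) b ↔ Aliv r (alN P) b' := by
    unfold Aliv alN
    rw [hX, hbb]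
  have hna : ¬ Aliv r (alN P) a := by rintro ⟨h, _⟩; omega
  have hna' : ¬ Aliv r (alN P) a' := by rintro ⟨h, _⟩; omega
  have hRb : Rn r (alN P) b = Rn r (alN P) b' := by
    rcases lt_or_ge r b.lv with h | h
    · exact ((hE.2 r hr h).2 P).1
    · rw [rn0 hr _ h, rn0 hr _ (by omega)]
  have hRa : Rn r (alN P) a = Rn r (alN P) a' := by
    rw [Rn, Rn] at h5
    by_cases hA : Aliv r (alN P) b
    · rw [if_pos (Or.inr ⟨hA, by omega⟩), if_pos (Or.inr ⟨hal.1 hA, by omega⟩)] at h5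
      omega
    · rw [if_neg, if_neg] at h5
      · omega
      · rintro (⟨h, _⟩ | ⟨h, _⟩)
        · exact hna' h
        · exact hA (hal.2 h)
      · rintro (⟨h, _⟩ | ⟨h, _⟩)
        · exact hna h
        · exact hA h
  refine ⟨hRa, fun m hm => ?_⟩
  have h7 := h6 m hm
  have hmk : mk r (alN P) a = mk r (alN P) a' := by unfold mk; rw [hca, hRa]
  have hKb : Kn r (alN P) m b = Kn r (alN P) m b' := by
    rcases lt_or_ge r b.lv with h | h
    · exact ((hE.2 r hr h).2 P).2 m hm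
    · rw [kn0 hr _ m h, kn0 hr _ m (by omega)]
  rw [Kn, Kn] at h7
  by_cases hA : Aliv r (alN P) b ∧ m ∣ mk r (alN P) a
  · rw [if_pos (Or.inr ⟨hA.1, by omega, hA.2⟩),
      if_pos (Or.inr ⟨hal.1 hA.1, by omega, by rw [← hmk]; exact hA.2⟩)] at h7
    omega
  · rw [if_neg, if_neg] at h7
    · omega
    · rintro (⟨h, _⟩ | ⟨h, _, h'⟩)
      · exact hna' h
      · exact hA ⟨hal.2 h, by rw [hmk]; exact h'⟩
    · rintro (⟨h, _⟩ | ⟨h, _, h'⟩)
      · exact hna h
      · exact hA ⟨h, h'⟩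

private lemma S4le {a b a' b' : BT} (hb : b.lv = a.lv) (hbb : b.lv = b'.lv) (haa : a'.lv = b'.lv)
    (h : Eqv K (BT.node a b) (BT.node a' b')) : X0 K a ⊔ X0 K b ≤ X0 K a' ⊔ X0 K b' := by
  obtain ⟨h1, h2⟩ := h
  have hr := b.lv_pos
  obtain ⟨_, h4⟩ := h2 b.lv hr (by change b.lv < a.lv + b.lv; omega)
  obtain ⟨h5, _⟩ := h4 (X0 K a' ⊔ X0 K b')
  rw [Rn, Rn, rn0 hr _ (s := a') (by omega), rn0 hr _ (s := b') (by omega)] at h5
  rw [if_neg (c := (Aliv b.lv (alN (X0 K a' ⊔ X0 K b')) a' ∧ _) ∨ _)] at h5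
  · have h6 : ¬ ((Aliv b.lv (alN (X0 K a' ⊔ X0 K b')) a ∧ b.lv ≤ b.lv) ∨
        (Aliv b.lv (alN (X0 K a' ⊔ X0 K b')) b ∧ b.lv ≤ a.lv)) := by
      intro h7
      rw [if_pos h7] at h5
      omega
    apply sup_le
    · by_contra hc
      exact h6 (Or.inl ⟨⟨hb.symm, hc⟩, le_refl _⟩)
    · by_contra hc
      exact h6 (Or.inr ⟨⟨rfl, hc⟩, hb.le⟩)
  · rintro (⟨⟨_, h⟩, _⟩ | ⟨⟨_, h⟩, _⟩)
    · exact h le_sup_left
    · exact h le_sup_right

theorem S4 {a b a' b' : BT} (hb : b.lv = a.lv) (hbb : b.lv = b'.lv) (haa : a'.lv = b'.lv)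
    (h : Eqv K (BT.node a b) (BT.node a' b')) : X0 K a ⊔ X0 K b = X0 K a' ⊔ X0 K b' :=
  le_antisymm (S4le hb hbb haa h)
    (S4le (by omega) (by omega) (by omega) (eqv_symm h))

end Pool.Agent.BK
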