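import Pool.Agent.BK.Sig

/-! Board BK, row R2: functions of words and inclusions -/

namespace Pool.Agent.BK

open Pool.Agent.H25

section
variable {K : Type*} [Field K] {α : Type}

private noncomputable def r2W (K : Type*) [Field K] (f : α → ℕ) (w : List α) : TT K :=
  wd (FreeMonoid.ofList (w.map (fun i => (f i, 0))))

private lemma r2W_app (f : α → ℕ) (p q : List α) : r2W K f (p ++ q) = r2W K f p * r2W K f q := by
  unfold r2W
  rw [List.map_append, FreeMonoid.ofList_append, wd_mul]

private noncomputable def r2M (K : Type*) [Field K] (f : α → ℕ) : LT α → TT K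
  | LT.leaf x => wd (FreeMonoid.of (f x, 0))
  | LT.node a b => r2M K f a * r2M K f b - r2M K f b * r2M K f a

private lemma r2_val (f : α → ℕ) : ∀ (S : LT α) (l : TT K →ₗ[K] K),
    S.val (fun w => l (r2W K f w)) = l (r2M K f S)
  | LT.leaf _, _ => rfl
  | LT.node a b, l => by
    have h1 : a.val (fun p => b.val (fun q => l (r2W K f (p ++ q)))) = l (r2M K f a * r2M K f b) := by
      have h : ∀ p, b.val (fun q => l (r2W K f (p ++ q))) =
          (l ∘ₗ LinearMap.mulRight K (r2M K f b)) (r2W K f p) := by
        intro p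
        have := r2_val f b (l ∘ₗ LinearMap.mulLeft K (r2W K f p))
        simp only [LinearMap.comp_apply, LinearMap.mulLeft_apply] at this
        simp only [r2W_app]
        rw [this]
        rfl
      simp only [h]
      rw [r2_val f a]
      rfl
    have h2 : b.val (fun q => a.val (fun p => l (r2W K f (q ++ p)))) = l (r2M K f b * r2M K f a) := by
      have h : ∀ p, a.val (fun q => l (r2W K f (p ++ q))) =
          (l ∘ₗ LinearMap.mulRight K (r2M K f a)) (r2W K f p) := by
        intro p
        have := r2_val f a (l ∘ₗ LinearMap.mulLeft K (r2W K f p))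
        simp only [LinearMap.comp_apply, LinearMap.mulLeft_apply] at this
        simp only [r2W_app]
        rw [this]
        rfl
      simp only [h]
      rw [r2_val f b]
      rfl
    rw [LT.val, h1, h2, r2M, map_sub]

private lemma r2_mem (f : α → ℕ) : ∀ S : LT α, r2M K f S ∈ X0 K S.shape
  | LT.leaf x => by
    rw [r2M, LT.shape, X0]
    exact letter_mem_V1 _ _
  | LT.node a b => by
    rw [r2M, LT.shape, X0]
    exact mem_br (r2_mem f a) (r2_mem f b)

private def r2L : BT → ℕ → LT ℕ
  | BT.leaf, c => LT.leaf c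
  | BT.node a b, c => LT.node (r2L a c) (r2L b (c + a.lv))

private lemma r2L_shape : ∀ (s : BT) (c : ℕ), (r2L s c).shape = s
  | BT.leaf, _ => rfl
  | BT.node a b, c => by rw [r2L, LT.shape, r2L_shape a, r2L_shape b]

private lemma r2L_M (f : ℕ → ℕ) : ∀ (s : BT) (c : ℕ), r2M K f (r2L s c) = monoT K f s c
  | BT.leaf, _ => rfl
  | BT.node a b, c => by rw [r2L, r2M, monoT, r2L_M f a, r2L_M f b]

private def r2map {β : Type} (f : α → β) : LT α → LT β
  | LT.leaf x => LT.leaf (f x)
  | LT.node a b => LT.node (r2map f a) (r2map f b)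

private lemma r2map_shape {β : Type} (f : α → β) : ∀ L : LT α, (r2map f L).shape = L.shape
  | LT.leaf _ => rfl
  | LT.node a b => by rw [r2map, LT.shape, LT.shape, r2map_shape f a, r2map_shape f b]

private lemma r2map_val {β : Type} (f : α → β) : ∀ (L : LT α) (φ : List β → K),
    (r2map f L).val φ = L.val (fun w => φ (w.map f))
  | LT.leaf _, _ => rfl
  | LT.node a b, φ => by
    simp only [r2map, LT.val, r2map_val f a, r2map_val f b, List.map_append]

private def enc : Lt → ℕ
  | Lt.mark n => Nat.pair 0 n
  | Lt.bl j i => Nat.pair (j + 1) i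

private def dec (c : ℕ) : Lt :=
  if (Nat.unpair c).1 = 0 then Lt.mark (Nat.unpair c).2 else Lt.bl ((Nat.unpair c).1 - 1) (Nat.unpair c).2

private lemma dec_enc (x : Lt) : dec (enc x) = x := by
  cases x with
  | mark n => simp [enc, dec]
  | bl j i => simp [enc, dec]

private noncomputable def fl (φ : List Lt → K) : TT K →ₗ[K] K :=
  lin (fun w : Wd => φ (w.toList.map (fun a => dec a.1)))

private lemma fl_W (φ : List Lt → K) (f : α → ℕ) (w : List α) :
    fl φ (r2W K f w) = φ (w.map (fun i => dec (f i))) := by
  unfold fl r2W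
  rw [lin_wd, FreeMonoid.toList_ofList, List.map_map]
  rfl

/-- R2 -/
theorem bridge {s t : BT} (h : X0 K s ≤ X0 K t) (φ : List Lt → K) (L : LT Lt) (hs : L.shape = s)
    (hne : L.val φ ≠ 0) : ∃ M : LT Lt, M.shape = t ∧ M.val φ ≠ 0 := by
  have h1 : fl φ (r2M K enc L) ≠ 0 := by
    rw [← r2_val]
    have : (fun w => fl φ (r2W K enc w)) = φ := by
      funext w
      rw [fl_W]
      congr 1
      simp only [dec_enc, List.map_id']
    rw [this]
    exact hne
  have h2 : r2M K enc L ∈ X0 K t := by
    have := r2_mem (K := K) enc L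
    rw [hs] at this
    exact h this
  by_contra hc
  push Not at hc
  apply h1
  have h3 : Submodule.span K (Set.range (fun f => monoT K f t 0)) ≤ LinearMap.ker (fl (K := K) φ) := by
    rw [Submodule.span_le]
    rintro _ ⟨f, rfl⟩
    change fl φ (monoT K f t 0) = 0
    rw [← r2L_M, ← r2_val]
    have h4 := hc (r2map (fun i => dec (f i)) (r2L t 0)) (by rw [r2map_shape, r2L_shape])
    rw [r2map_val] at h4
    simp only [fl_W]
    exact h4
  exact LinearMap.mem_ker.1 (h3 (X0_le_span t 0 h2))

end

end Pool.Agent.BK
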