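import Pool.Agent.BK.Sig

/-! The test function of words is unchanged by commuting swaps. -/

namespace Pool.Agent.BK

open Pool.Agent.H25

private lemma filter_swap (P : Lt → Bool) (hP : ∀ x y, P x = true → P y = true → Lt.nc x y)
    (u p q v : List Lt) (h : ∀ x ∈ p, ∀ y ∈ q, ¬ Lt.nc x y) :
    (u ++ p ++ q ++ v).filter P = (u ++ q ++ p ++ v).filter P := by
  have key : p.filter P = [] ∨ q.filter P = [] := by
    by_contra hc
    push Not at hc
    obtain ⟨x, hx⟩ := List.exists_mem_of_ne_nil _ hc.1
    obtain ⟨y, hy⟩ := List.exists_mem_of_ne_nil _ hc.2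
    rw [List.mem_filter] at hx hy
    exact h x hx.1 y hy.1 (hP x y hx.2 hy.2)
  simp only [List.filter_append]
  rcases key with hk | hk <;> simp [hk]

private lemma filterMap_swap {β : Type} (f : Lt → Option β)
    (hP : ∀ x y a b, f x = some a → f y = some b → Lt.nc x y)
    (u p q v : List Lt) (h : ∀ x ∈ p, ∀ y ∈ q, ¬ Lt.nc x y) :
    (u ++ p ++ q ++ v).filterMap f = (u ++ q ++ p ++ v).filterMap f := by
  have key : p.filterMap f = [] ∨ q.filterMap f = [] := by
    by_contra hc
    push Not at hc
    obtain ⟨a, ha⟩ := List.exists_mem_of_ne_nil _ hc.1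
    obtain ⟨b, hb⟩ := List.exists_mem_of_ne_nil _ hc.2
    rw [List.mem_filterMap] at ha hb
    obtain ⟨x, hx, hxa⟩ := ha
    obtain ⟨y, hy, hyb⟩ := hb
    exact h x hx y hy (hP x y a b hxa hyb)
  simp only [List.filterMap_append]
  rcases key with hk | hk <;> simp [hk]

variable {K : Type*} [Field K]

/-- R4a -/
theorem φ_inv (D : Dat K) (u p q v : List Lt) (h : ∀ x ∈ p, ∀ y ∈ q, ¬ Lt.nc x y) :
    D.φ (u ++ p ++ q ++ v) = D.φ (u ++ q ++ p ++ v) := by
  have hperm : (u ++ p ++ q ++ v).Perm (u ++ q ++ p ++ v) := by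
    refine List.Perm.append_right v ?_
    rw [List.append_assoc, List.append_assoc]
    exact List.Perm.append_left u List.perm_append_comm
  have h1 := filter_swap (fun x => x.isMark)
    (by intro x y hx hy; cases x <;> cases y <;> simp_all [Lt.isMark, Lt.nc]) u p q v h
  have h2 : ∀ j, (u ++ p ++ q ++ v).filter (fun x => x.isMark || x.inBl j) =
      (u ++ q ++ p ++ v).filter (fun x => x.isMark || x.inBl j) := fun j =>
    filter_swap _ (by intro x y hx hy; cases x <;> cases y <;> simp_all [Lt.isMark, Lt.inBl, Lt.nc])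
      u p q v h
  have h3 : ∀ j, (u ++ p ++ q ++ v).filter (fun x => x.inBl j) =
      (u ++ q ++ p ++ v).filter (fun x => x.inBl j) := fun j =>
    filter_swap _ (by intro x y hx hy; cases x <;> cases y <;> simp_all [Lt.inBl, Lt.nc])
      u p q v h
  have h4 : ∀ j, (u ++ p ++ q ++ v).filterMap (Lt.idx j) =
      (u ++ q ++ p ++ v).filterMap (Lt.idx j) := by
    intro j
    refine filterMap_swap _ ?_ u p q v h
    intro x y a b hx hy
    cases x with
    | mark n => simp [Lt.idx] at hx
    | bl k i =>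
      cases y with
      | mark n => simp [Lt.idx] at hy
      | bl k' i' =>
        simp only [Lt.idx] at hx hy
        split_ifs at hx hy with e1 e2
        simp [Lt.nc, e1, e2]
  have hF : ∀ j, D.F j (u ++ p ++ q ++ v) = D.F j (u ++ q ++ p ++ v) := by
    intro j
    unfold Dat.F
    rw [h2 j, h3 j, h4 j]
  unfold Dat.φ
  refine if_congr ?_ (Finset.prod_congr rfl (fun j _ => hF j)) rfl
  rw [h1]
  exact and_congr_left' ⟨fun hh => hperm.symm.trans hh, fun hh => hperm.trans hh⟩

end Pool.Agent.BK
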