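import Pool.Agent.BK.Sig

/-! A complete block splits off the test function of words. -/

namespace Pool.Agent.BK

open Pool.Agent.H25

private lemma takeWhile_mid (A s C : List Lt) (hA : ∀ x ∈ A, x.isMark = true) (hs : s ≠ [])
    (hs' : ∀ x ∈ s, x.isMark = false) : (A ++ s ++ C).takeWhile Lt.isMark = A := by
  rw [List.append_assoc, List.takeWhile_append_of_pos hA]
  cases s with
  | nil => exact absurd rfl hs
  | cons z s' => simp [hs' z (by simp)]

private lemma filter_blocks (sz : ℕ → ℕ) (j : ℕ) (J : ℕ) :
    ((List.range J).flatMap (fun k => (List.range (sz k)).map (Lt.bl k))).filter (fun x => x.inBl j) =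
      if j < J then (List.range (sz j)).map (Lt.bl j) else [] := by
  induction J with
  | zero => simp
  | succ J ih =>
    rw [List.range_succ, List.flatMap_append, List.filter_append, ih]
    have h2 : ([J].flatMap (fun k => (List.range (sz k)).map (Lt.bl k))).filter (fun x => x.inBl j) =
        if J = j then (List.range (sz j)).map (Lt.bl j) else [] := by
      simp only [List.flatMap_cons, List.flatMap_nil, List.append_nil]
      by_cases hJ : J = j
      · subst hJ
        rw [if_pos rfl, List.filter_eq_self]
        intro x hx
        rw [List.mem_map] at hx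
        obtain ⟨i, _, rfl⟩ := hx
        simp [Lt.inBl]
      · rw [if_neg hJ, List.filter_eq_nil_iff]
        intro x hx
        rw [List.mem_map] at hx
        obtain ⟨i, _, rfl⟩ := hx
        simp [Lt.inBl, hJ]
    rw [h2]
    by_cases h1 : j < J
    · rw [if_pos h1, if_neg (by omega), if_pos (by omega), List.append_nil]
    · by_cases hJ : J = j
      · rw [if_neg h1, if_pos hJ, if_pos (by omega), List.nil_append]
      · rw [if_neg h1, if_neg hJ, if_neg (by omega), List.nil_append]

variable {K : Type*} [Field K]

omit [Field K] in
private lemma filter_all (D : Dat K) {j : ℕ} (hj : j < D.J) :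
    D.all.filter (fun x => x.inBl j) = (List.range (D.sz j)).map (Lt.bl j) := by
  unfold Dat.all
  rw [List.filter_append, filter_blocks D.sz j D.J, if_pos hj]
  have : D.marks.filter (fun x => x.inBl j) = [] := by
    rw [List.filter_eq_nil_iff]
    intro x hx
    unfold Dat.marks at hx
    rw [List.mem_map] at hx
    obtain ⟨i, _, rfl⟩ := hx
    simp [Lt.inBl]
  rw [this, List.nil_append]

/-- the remaining factor -/
noncomputable def blkG (D : Dat K) (j : ℕ) (W : List Lt) : K :=
  open Classical in
  if (W ++ (List.range (D.sz j)).map (Lt.bl j)).Perm D.all ∧ W.filter (fun x => x.isMark) = D.marks then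
    ∏ i ∈ (Finset.range D.J).erase j, D.F i W else 0

private lemma φ_core (D : Dat K) {j : ℕ} (hj : j < D.J) (hz : 0 < D.sz j) (a s c : List Lt)
    (hs : s.Perm ((List.range (D.sz j)).map (Lt.bl j))) :
    D.φ (a ++ s ++ c) = D.ψ j (s.filterMap (Lt.idx j)) * D.ζ j (a.filter Lt.isMark).length *
      blkG D j (a ++ c) := by
  have hmem : ∀ x ∈ s, ∃ i, x = Lt.bl j i := by
    intro x hx
    have := hs.subset hx
    rw [List.mem_map] at this
    obtain ⟨i, _, rfl⟩ := this
    exact ⟨i, rfl⟩
  have hlen : s.length = D.sz j := by simpa using hs.length_eq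
  have hne : s ≠ [] := by
    rintro rfl
    simp at hlen
    omega
  have hsm : ∀ x ∈ s, x.isMark = false := by
    intro x hx
    obtain ⟨i, rfl⟩ := hmem x hx
    rfl
  have hfm : s.filter (fun x => x.isMark) = [] := by
    rw [List.filter_eq_nil_iff]
    intro x hx
    simp [hsm x hx]
  have hperm : (a ++ s ++ c).Perm (a ++ c ++ (List.range (D.sz j)).map (Lt.bl j)) := by
    have e1 : (a ++ s ++ c).Perm (a ++ c ++ s) := by
      rw [List.append_assoc, List.append_assoc]
      exact List.Perm.append_left a List.perm_append_comm
    exact e1.trans (List.Perm.append_left _ hs)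
  have hmk : (a ++ s ++ c).filter (fun x => x.isMark) = (a ++ c).filter (fun x => x.isMark) := by
    simp only [List.filter_append, hfm, List.append_nil]
  have hFi : ∀ i, i ≠ j → D.F i (a ++ s ++ c) = D.F i (a ++ c) := by
    intro i hi
    have t1 : s.filter (fun x => x.isMark || x.inBl i) = [] := by
      rw [List.filter_eq_nil_iff]
      intro x hx
      obtain ⟨n, rfl⟩ := hmem x hx
      simp [Lt.isMark, Lt.inBl, Ne.symm hi]
    have t2 : s.filter (fun x => x.inBl i) = [] := by
      rw [List.filter_eq_nil_iff]
      intro x hx
      obtain ⟨n, rfl⟩ := hmem x hx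
      simp [Lt.inBl, Ne.symm hi]
    have t3 : s.filterMap (Lt.idx i) = [] := by
      rw [List.filterMap_eq_nil_iff]
      intro x hx
      obtain ⟨n, rfl⟩ := hmem x hx
      simp [Lt.idx, Ne.symm hi]
    unfold Dat.F
    simp only [List.filter_append, List.filterMap_append, t1, t2, t3, List.append_nil]
  have hiff : ((a ++ s ++ c).Perm D.all ∧ (a ++ s ++ c).filter (fun x => x.isMark) = D.marks) ↔
      ((a ++ c ++ (List.range (D.sz j)).map (Lt.bl j)).Perm D.all ∧
        (a ++ c).filter (fun x => x.isMark) = D.marks) := by
    rw [hmk]
    exact and_congr_left' ⟨fun hh => hperm.symm.trans hh, fun hh => hperm.trans hh⟩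
  unfold Dat.φ blkG
  by_cases hc : (a ++ c ++ (List.range (D.sz j)).map (Lt.bl j)).Perm D.all ∧
        (a ++ c).filter (fun x => x.isMark) = D.marks
  · rw [if_pos (hiff.mpr hc), if_pos hc, ← Finset.mul_prod_erase _ _ (Finset.mem_range.mpr hj)]
    have hprod : ∏ x ∈ (Finset.range D.J).erase j, D.F x (a ++ s ++ c) =
        ∏ x ∈ (Finset.range D.J).erase j, D.F x (a ++ c) :=
      Finset.prod_congr rfl (fun i hi => hFi i (Finset.ne_of_mem_erase hi))
    rw [hprod]
    congr 1
    -- the factor of block `j`
    have hb : (a ++ c).filter (fun x => x.inBl j) = [] := by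
      have h1 := (hc.1.filter (fun x => x.inBl j)).length_eq
      rw [filter_all D hj, List.filter_append, List.length_append] at h1
      have h2 : ((List.range (D.sz j)).map (Lt.bl j)).filter (fun x => x.inBl j) =
          (List.range (D.sz j)).map (Lt.bl j) := by
        rw [List.filter_eq_self]
        intro x hx
        rw [List.mem_map] at hx
        obtain ⟨i, _, rfl⟩ := hx
        simp [Lt.inBl]
      rw [h2] at h1
      exact List.eq_nil_of_length_eq_zero (by omega)
    rw [List.filter_append, List.append_eq_nil_iff, List.filter_eq_nil_iff,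
      List.filter_eq_nil_iff] at hb
    have hnb : ∀ l : List Lt, (∀ x ∈ l, ¬ x.inBl j = true) →
        l.filter (fun x => x.isMark || x.inBl j) = l.filter (fun x => x.isMark) ∧
        l.filter (fun x => x.inBl j) = [] ∧ l.filterMap (Lt.idx j) = [] := by
      intro l hl
      refine ⟨?_, ?_, ?_⟩
      · refine List.filter_congr ?_
        intro x hx
        have := hl x hx
        simp [this]
      · rw [List.filter_eq_nil_iff]
        exact hl
      · rw [List.filterMap_eq_nil_iff]
        intro x hx
        have := hl x hx
        cases x with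
        | mark n => rfl
        | bl k i =>
          have hkj : k ≠ j := by simpa [Lt.inBl] using this
          simp [Lt.idx, hkj]
    obtain ⟨a1, a2, a3⟩ := hnb a hb.1
    obtain ⟨c1, c2, c3⟩ := hnb c hb.2
    have s1 : s.filter (fun x => x.isMark || x.inBl j) = s := by
      rw [List.filter_eq_self]
      intro x hx
      obtain ⟨n, rfl⟩ := hmem x hx
      simp [Lt.inBl]
    have s2 : s.filter (fun x => x.inBl j) = s := by
      rw [List.filter_eq_self]
      intro x hx
      obtain ⟨n, rfl⟩ := hmem x hx
      simp [Lt.inBl]
    have hmarks : D.marks = a.filter (fun x => x.isMark) ++ c.filter (fun x => x.isMark) := by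
      rw [← hc.2, List.filter_append]
    have hN : D.marks.length = D.N := by simp [Dat.marks]
    have hmm : ∀ x ∈ D.marks, x.isMark = true := by
      intro x hx
      unfold Dat.marks at hx
      rw [List.mem_map] at hx
      obtain ⟨i, _, rfl⟩ := hx
      rfl
    unfold Dat.F
    have hval : (a ++ s ++ c).filterMap (Lt.idx j) = s.filterMap (Lt.idx j) := by
      rw [List.filterMap_append, List.filterMap_append, a3, c3, List.nil_append, List.append_nil]
    have hf1 : (a ++ s ++ c).filter (fun x => x.isMark || x.inBl j) =
        a.filter (fun x => x.isMark) ++ s ++ c.filter (fun x => x.isMark) := by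
      rw [List.filter_append, List.filter_append, a1, c1, s1]
    have hf2 : (a ++ s ++ c).filter (fun x => x.inBl j) = s := by
      rw [List.filter_append, List.filter_append, a2, c2, s2, List.nil_append, List.append_nil]
    rw [hval, hf1, hf2]
    have hle : (a.filter (fun x => x.isMark)).length < D.N + 1 := by
      have := congrArg List.length hmarks
      rw [List.length_append, hN] at this
      omega
    rw [Finset.sum_eq_single_of_mem (a.filter (fun x => x.isMark)).length
      (Finset.mem_range.mpr hle)]
    · rw [if_pos]
      conv_rhs => rw [hmarks]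
      rw [List.take_left, List.drop_left]
    · intro k hk hkne
      rw [if_neg]
      intro heq
      apply hkne
      have e1 := takeWhile_mid (a.filter (fun x => x.isMark)) s (c.filter (fun x => x.isMark))
        (fun x hx => hmm x (by rw [hmarks]; exact List.mem_append_left _ hx)) hne hsm
      have e2 := takeWhile_mid (D.marks.take k) s (D.marks.drop k)
        (fun x hx => hmm x (List.mem_of_mem_take hx)) hne hsm
      rw [heq, e2] at e1
      have e3 := congrArg List.length e1
      rw [List.length_take, hN] at e3
      rw [Finset.mem_range] at hk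
      omega
  · rw [if_neg (fun hh => hc (hiff.mp hh)), if_neg hc, mul_zero]

/-- R4b -/
theorem φ_block (D : Dat K) {j : ℕ} (hj : j < D.J) (hz : 0 < D.sz j) :
    ∃ G : List Lt → List Lt → List Lt → K, ∀ u s y v : List Lt,
      s.Perm ((List.range (D.sz j)).map (Lt.bl j)) →
      D.φ (u ++ s ++ y ++ v) = D.ψ j (s.filterMap (Lt.idx j)) * D.ζ j (u.filter Lt.isMark).length * G u y v ∧
      D.φ (u ++ y ++ s ++ v) = D.ψ j (s.filterMap (Lt.idx j)) *
        D.ζ j ((u.filter Lt.isMark).length + (y.filter Lt.isMark).length) * G u y v := by
  refine ⟨fun u y v => blkG D j (u ++ y ++ v), ?_⟩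
  intro u s y v hs
  constructor
  · have := φ_core D hj hz u s (y ++ v) hs
    rw [← List.append_assoc, ← List.append_assoc] at this
    exact this
  · have := φ_core D hj hz (u ++ y) s v hs
    rw [List.filter_append, List.length_append] at this
    exact this

end Pool.Agent.BK
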