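import Pool.Agent.BK.R1
import Pool.Agent.BK.R4a
import Pool.Agent.BK.R4b

/-! Board BK, rows R3 and R5 -/

namespace Pool.Agent.BK

open Pool.Agent.H25

variable {K : Type*} [Field K]

/-- R3 -/
theorem good_of_val {D : Dat K} {L : LT Lt} (h : L.val D.φ ≠ 0) :
    L.leaves.Perm D.all ∧ ∀ P Q : LT Lt, LT.Cl (LT.node P Q) L → ∃ x ∈ P.leaves, ∃ y ∈ Q.leaves, Lt.nc x y := by
  classical
  constructor
  · obtain ⟨w, hw, hne⟩ := exists_perm_of_val_ne L h
    have h2 : w.Perm D.all := by
      by_contra hc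
      apply hne
      unfold Dat.φ
      rw [if_neg (fun h => hc h.1)]
    exact hw.symm.trans h2
  · intro P Q hC
    by_contra hc
    push Not at hc
    apply h
    refine clade_zero hC (fun u v => ?_)
    rw [LT.val, val_val, sub_eq_zero]
    apply val_congr
    intro q hq
    apply val_congr
    intro p hp
    have := φ_inv D u p q v (fun x hx y hy => hc x (hp.mem_iff.1 hx) y (hq.mem_iff.1 hy))
    rw [← List.append_assoc, ← List.append_assoc, this]

private lemma r5_aux {D : Dat K} {j : ℕ} (hj : j < D.J) (hz : 0 < D.sz j)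
    {S Y : LT Lt} (hS : S.leaves.Perm ((List.range (D.sz j)).map (Lt.bl j))) (u v : List Lt) :
    ∃ c : K, S.val (fun s => Y.val (fun y => D.φ (u ++ (s ++ y) ++ v))) =
        S.val (fun w => D.ψ j (w.filterMap (Lt.idx j))) * D.ζ j (u.filter Lt.isMark).length * c ∧
      Y.val (fun y => S.val (fun s => D.φ (u ++ (y ++ s) ++ v))) =
        S.val (fun w => D.ψ j (w.filterMap (Lt.idx j))) *
          D.ζ j ((u.filter Lt.isMark).length + (Y.leaves.filter Lt.isMark).length) * c := by
  obtain ⟨G, hG⟩ := φ_block D hj hz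
  refine ⟨Y.val (fun y => G u y v), ?_, ?_⟩
  · rw [mul_assoc, ← val_mul_right]
    apply val_congr
    intro s hs
    rw [← val_mul_left, ← val_mul_left]
    apply val_congr
    intro y _
    rw [← List.append_assoc, (hG u s y v (hs.trans hS)).1, mul_assoc]
  · rw [val_val, mul_assoc, ← val_mul_right]
    apply val_congr
    intro s hs
    rw [← val_mul_left, ← val_mul_left]
    apply val_congr
    intro y hy
    rw [← List.append_assoc, (hG u s y v (hs.trans hS)).2, mul_assoc, (hy.filter _).length_eq]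

/-- R5 -/
theorem clade_block {D : Dat K} {L : LT Lt} (h : L.val D.φ ≠ 0) {j : ℕ} (hj : j < D.J) (hz : 0 < D.sz j)
    {S Y : LT Lt} (hS : S.leaves.Perm ((List.range (D.sz j)).map (Lt.bl j)))
    (hC : LT.Cl (LT.node S Y) L ∨ LT.Cl (LT.node Y S) L) :
    S.val (fun w => D.ψ j (w.filterMap (Lt.idx j))) ≠ 0 ∧
      ∃ a, D.ζ j a ≠ D.ζ j (a + (Y.leaves.filter Lt.isMark).length) := by
  by_contra hc
  apply h
  have key : ∀ u v : List Lt, S.val (fun s => Y.val (fun y => D.φ (u ++ (s ++ y) ++ v))) =
      Y.val (fun y => S.val (fun s => D.φ (u ++ (y ++ s) ++ v))) := by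
    intro u v
    obtain ⟨c, h1, h2⟩ := r5_aux (Y := Y) hj hz hS u v
    rw [h1, h2]
    by_cases hS0 : S.val (fun w => D.ψ j (w.filterMap (Lt.idx j))) = 0
    · rw [hS0]; ring
    · have h3 : D.ζ j (u.filter Lt.isMark).length =
          D.ζ j ((u.filter Lt.isMark).length + (Y.leaves.filter Lt.isMark).length) := by
        by_contra h4
        exact hc ⟨hS0, _, h4⟩
      rw [h3]
  rcases hC with hC | hC
  · refine clade_zero hC (fun u v => ?_)
    rw [LT.val, key u v, sub_self]
  · refine clade_zero hC (fun u v => ?_)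
    rw [LT.val, key u v, sub_self]

end Pool.Agent.BK
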