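import Pool.Agent.BK.Sig

/-! Board BK, row R6: the saturated labelling is not killed -/

namespace Pool.Agent.BK

open Pool.Agent.H25

section vals
variable {α β : Type} {K : Type*} [Field K]

private def r6map (f : α → β) : LT α → LT β
  | LT.leaf x => LT.leaf (f x)
  | LT.node a b => LT.node (r6map f a) (r6map f b)

private lemma r6_shape (f : α → β) : ∀ L : LT α, (r6map f L).shape = L.shape
  | LT.leaf _ => rfl
  | LT.node a b => by rw [r6map, LT.shape, LT.shape, r6_shape f a, r6_shape f b]

private lemma r6_leaves (f : α → β) : ∀ L : LT α, (r6map f L).leaves = L.leaves.map f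
  | LT.leaf _ => rfl
  | LT.node a b => by rw [r6map, LT.leaves, LT.leaves, r6_leaves f a, r6_leaves f b, List.map_append]

private lemma r6_val_map (f : α → β) : ∀ (L : LT α) (φ : List β → K),
    (r6map f L).val φ = L.val (fun w => φ (w.map f))
  | LT.leaf _, _ => rfl
  | LT.node a b, φ => by
    simp only [r6map, LT.val, r6_val_map f a, r6_val_map f b, List.map_append]

private lemma r6_congr : ∀ (L : LT α) {φ χ : List α → K}, (∀ w, w.Perm L.leaves → φ w = χ w) →
    L.val φ = L.val χ
  | LT.leaf x, φ, χ, h => h [x] (List.Perm.refl _)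
  | LT.node a b, φ, χ, h => by
    have h1 : a.val (fun p => b.val (fun q => φ (p ++ q))) = a.val (fun p => b.val (fun q => χ (p ++ q))) :=
      r6_congr a (fun p hp => r6_congr b (fun q hq => h _ (hp.append hq)))
    have h2 : b.val (fun q => a.val (fun p => φ (q ++ p))) = b.val (fun q => a.val (fun p => χ (q ++ p))) :=
      r6_congr b (fun q hq => r6_congr a (fun p hp => h _ (List.perm_append_comm.trans (hp.append hq))))
    rw [LT.val, LT.val, h1, h2]

private lemma r6_mul_left (c : K) : ∀ (L : LT α) (φ : List α → K),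
    L.val (fun w => c * φ w) = c * L.val φ
  | LT.leaf _, _ => rfl
  | LT.node a b, φ => by
    simp only [LT.val, r6_mul_left c a, r6_mul_left c b, mul_sub]

private lemma r6_mul_right (c : K) : ∀ (L : LT α) (φ : List α → K),
    L.val (fun w => φ w * c) = L.val φ * c
  | LT.leaf _, _ => rfl
  | LT.node a b, φ => by
    simp only [LT.val, r6_mul_right c a, r6_mul_right c b, sub_mul]

private lemma r6_zero : ∀ (L : LT α), L.val (fun _ => (0 : K)) = 0
  | LT.leaf _ => rfl
  | LT.node a b => by
    simp only [LT.val, r6_zero a, r6_zero b, sub_self]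

end vals

section main
variable {K : Type*} [Field K]

/-- value of the position of the block -/
private def tt (ζ : ℕ → K) : ℕ → List Lt → K
  | _, [] => 0
  | n, (Lt.mark _) :: f => tt ζ (n + 1) f
  | n, (Lt.bl j i) :: f =>
    if (Lt.bl j i :: f).filter (fun x => !x.isMark) ++ (Lt.bl j i :: f).filter Lt.isMark = Lt.bl j i :: f
    then ζ n else 0

private lemma tt_app (ζ : ℕ → K) (ν : List Lt) (hν : ∀ x ∈ ν, x.isMark = true) :
    ∀ (f : List Lt) (n : ℕ), (∃ x ∈ f, x.isMark = false) → tt ζ n (f ++ ν) = tt ζ n f
  | [], _, h => by obtain ⟨x, hx, _⟩ := h; simp at hx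
  | (Lt.mark i) :: f, n, h => by
    rw [List.cons_append, tt, tt]
    apply tt_app ζ ν hν f (n + 1)
    obtain ⟨x, hx, hm⟩ := h
    rcases List.mem_cons.1 hx with rfl | hx
    · simp [Lt.isMark] at hm
    · exact ⟨x, hx, hm⟩
  | (Lt.bl j i) :: f, n, _ => by
    rw [List.cons_append, tt, tt]
    have h1 : (Lt.bl j i :: (f ++ ν)).filter (fun x => !x.isMark) =
        (Lt.bl j i :: f).filter (fun x => !x.isMark) := by
      rw [← List.cons_append, List.filter_append]
      have : ν.filter (fun x => !x.isMark) = [] := by
        rw [List.filter_eq_nil_iff]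
        intro x hx
        simp [hν x hx]
      rw [this, List.append_nil]
    have h2 : (Lt.bl j i :: (f ++ ν)).filter Lt.isMark = (Lt.bl j i :: f).filter Lt.isMark ++ ν := by
      rw [← List.cons_append, List.filter_append]
      have : ν.filter Lt.isMark = ν := by
        rw [List.filter_eq_self]
        exact hν
      rw [this]
    rw [h1, h2, ← List.append_assoc, ← List.cons_append]
    by_cases hc : (Lt.bl j i :: f).filter (fun x => !x.isMark) ++ (Lt.bl j i :: f).filter Lt.isMark =
      Lt.bl j i :: f
    · rw [if_pos hc, if_pos (by rw [hc])]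
    · rw [if_neg hc, if_neg (fun h => hc (List.append_cancel_right h))]

private lemma tt_pre (ζ : ℕ → K) : ∀ (ν : List Lt) (_ : ∀ x ∈ ν, x.isMark = true) (f : List Lt) (n : ℕ),
    tt ζ n (ν ++ f) = tt ζ (n + ν.length) f
  | [], _, f, n => by simp
  | (Lt.mark i) :: ν, h, f, n => by
    rw [List.cons_append, tt, tt_pre ζ ν (fun x hx => h x (List.mem_cons_of_mem _ hx)) f (n + 1),
      List.length_cons]
    congr 1
    omega
  | (Lt.bl j i) :: ν, h, f, n => by
    have := h (Lt.bl j i) (List.mem_cons_self)
    simp [Lt.isMark] at this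

private lemma tt_blk (ζ : ℕ → K) (n : ℕ) : ∀ (f : List Lt), f ≠ [] → (∀ x ∈ f, x.isMark = false) →
    tt ζ n f = ζ n
  | [], h, _ => absurd rfl h
  | (Lt.mark i) :: f, _, h => by
    have := h (Lt.mark i) (List.mem_cons_self)
    simp [Lt.isMark] at this
  | (Lt.bl j i) :: f, _, h => by
    rw [tt, if_pos]
    have h1 : (Lt.bl j i :: f).filter (fun x => !x.isMark) = Lt.bl j i :: f := by
      rw [List.filter_eq_self]
      intro x hx
      rw [h x hx]; rfl
    have h2 : (Lt.bl j i :: f).filter Lt.isMark = [] := by
      rw [List.filter_eq_nil_iff]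
      intro x hx
      rw [h x hx]; simp
    rw [h1, h2, List.append_nil]

private lemma sum_tt (ζ : ℕ → K) (c : K) : ∀ (f : List Lt) (n : ℕ), (∃ x ∈ f, x.isMark = false) →
    ∑ a ∈ Finset.range ((f.filter Lt.isMark).length + 1),
      (if f = (f.filter Lt.isMark).take a ++ f.filter (fun x => !x.isMark) ++
        (f.filter Lt.isMark).drop a then c * ζ (n + a) else 0) = c * tt ζ n f
  | [], _, h => by obtain ⟨x, hx, _⟩ := h; simp at hx
  | (Lt.mark i) :: f, n, h => by
    have hf : ∃ x ∈ f, x.isMark = false := by
      obtain ⟨x, hx, hm⟩ := h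
      rcases List.mem_cons.1 hx with rfl | hx
      · simp [Lt.isMark] at hm
      · exact ⟨x, hx, hm⟩
    have h1 : (Lt.mark i :: f).filter Lt.isMark = Lt.mark i :: f.filter Lt.isMark := by
      rw [List.filter_cons_of_pos rfl]
    have h2 : (Lt.mark i :: f).filter (fun x => !x.isMark) = f.filter (fun x => !x.isMark) := by
      rw [List.filter_cons_of_neg]
      simp [Lt.isMark]
    rw [h1, h2, List.length_cons, Finset.sum_range_succ', tt, ← sum_tt ζ c f (n + 1) hf]
    have h0 : ¬ (Lt.mark i :: f = (Lt.mark i :: f.filter Lt.isMark).take 0 ++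
        f.filter (fun x => !x.isMark) ++ (Lt.mark i :: f.filter Lt.isMark).drop 0) := by
      intro hc
      rw [List.take_zero, List.nil_append, List.drop_zero] at hc
      obtain ⟨x, hx, hm⟩ := hf
      have hx' : x ∈ f.filter (fun x => !x.isMark) := List.mem_filter.2 ⟨hx, by simp [hm]⟩
      cases hb : f.filter (fun x => !x.isMark) with
      | nil => rw [hb] at hx'; simp at hx'
      | cons y l =>
        rw [hb, List.cons_append] at hc
        have hy : y ∈ f.filter (fun x => !x.isMark) := by rw [hb]; exact List.mem_cons_self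
        have hy' := (List.mem_filter.1 hy).2
        injection hc with h3 h4
        rw [← h3] at hy'
        simp [Lt.isMark] at hy'
    rw [if_neg h0, add_zero]
    apply Finset.sum_congr rfl
    intro a _
    rw [List.take_succ_cons, List.drop_succ_cons, List.cons_append, List.cons_append]
    have h5 : n + (a + 1) = n + 1 + a := by omega
    rw [h5]
    by_cases hc : f = (f.filter Lt.isMark).take a ++ f.filter (fun x => !x.isMark) ++
        (f.filter Lt.isMark).drop a
    · rw [if_pos hc, if_pos (by rw [← hc])]
    · rw [if_neg hc, if_neg (fun h => hc (List.cons.inj h).2)]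
  | (Lt.bl j i) :: f, n, h => by
    rw [Finset.sum_range_succ', tt]
    have hz : ∑ a ∈ Finset.range ((Lt.bl j i :: f).filter Lt.isMark).length,
        (if Lt.bl j i :: f = ((Lt.bl j i :: f).filter Lt.isMark).take (a + 1) ++
          (Lt.bl j i :: f).filter (fun x => !x.isMark) ++
          ((Lt.bl j i :: f).filter Lt.isMark).drop (a + 1) then c * ζ (n + (a + 1)) else 0) = 0 := by
      apply Finset.sum_eq_zero
      intro a ha
      rw [if_neg]
      intro hc
      cases hm : (Lt.bl j i :: f).filter Lt.isMark with
      | nil => rw [hm] at ha; simp at ha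
      | cons y l =>
        rw [hm, List.take_succ_cons, List.cons_append, List.cons_append] at hc
        have hy : y ∈ (Lt.bl j i :: f).filter Lt.isMark := by rw [hm]; exact List.mem_cons_self
        have hy' := (List.mem_filter.1 hy).2
        injection hc with h3 h4
        rw [← h3] at hy'
        simp [Lt.isMark] at hy'
    rw [hz, zero_add, List.take_zero, List.nil_append, List.drop_zero, add_zero]
    by_cases hc : (Lt.bl j i :: f).filter (fun x => !x.isMark) ++ (Lt.bl j i :: f).filter Lt.isMark =
      Lt.bl j i :: f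
    · rw [if_pos hc, if_pos hc.symm]
    · rw [if_neg hc, if_neg (fun h => hc h.symm), mul_zero]

private lemma F_eq (D : Dat K) (w : List Lt) (j : ℕ) (hm : w.filter (fun x => x.isMark) = D.marks)
    (hx : ∃ x ∈ w, x.inBl j = true) :
    D.F j w = D.ψ j (w.filterMap (Lt.idx j)) *
      tt (D.ζ j) 0 (w.filter (fun x => x.isMark || x.inBl j)) := by
  have h1 : (w.filter (fun x => x.isMark || x.inBl j)).filter Lt.isMark = D.marks := by
    rw [List.filter_filter, ← hm]
    apply List.filter_congr
    intro x _
    cases x <;> simp [Lt.isMark, Lt.inBl]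
  have h2 : (w.filter (fun x => x.isMark || x.inBl j)).filter (fun x => !x.isMark) =
      w.filter (fun x => x.inBl j) := by
    rw [List.filter_filter]
    apply List.filter_congr
    intro x _
    cases x <;> simp [Lt.isMark, Lt.inBl]
  have h3 : ∃ x ∈ w.filter (fun x => x.isMark || x.inBl j), x.isMark = false := by
    obtain ⟨x, hx, hj⟩ := hx
    refine ⟨x, List.mem_filter.2 ⟨hx, by simp [hj]⟩, ?_⟩
    cases x with
    | mark i => simp [Lt.inBl] at hj
    | bl k i => rfl
  have h4 := sum_tt (D.ζ j) (D.ψ j (w.filterMap (Lt.idx j))) _ 0 h3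
  rw [h1, h2] at h4
  have h5 : D.marks.length = D.N := by simp [Dat.marks]
  rw [h5] at h4
  rw [← h4]
  unfold Dat.F
  apply Finset.sum_congr rfl
  intro a _
  rw [zero_add]

/-- marks `n, ..., n + k - 1` -/
private def mks (n k : ℕ) : List Lt := (List.range' n k).map Lt.mark

private lemma mks_add (n k l : ℕ) : mks n (k + l) = mks n k ++ mks (n + k) l := by
  unfold mks
  rw [← List.map_append, List.range'_append_1]

private lemma mks_mark {n k : ℕ} : ∀ x ∈ mks n k, x.isMark = true := by
  intro x hx
  obtain ⟨i, _, rfl⟩ := List.mem_map.1 hx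
  rfl

private lemma mks_len (n k : ℕ) : (mks n k).length = k := by simp [mks]

/-- letters of the labelled tree in order -/
private def lets : MT → ℕ → ℕ → List Lt
  | MT.mark, n, _ => [Lt.mark n]
  | MT.node a b, n, j => lets a n j ++ lets b (n + a.marks) (j + a.hangs.length)
  | MT.hang a s, n, j => lets a n j ++ (List.range s.lv).map (Lt.bl (j + a.hangs.length))

private lemma blk_mark (l : List ℕ) (j : ℕ) : (l.map (Lt.bl j)).filter Lt.isMark = [] := by
  rw [List.filter_eq_nil_iff]
  intro x hx
  obtain ⟨i, _, rfl⟩ := List.mem_map.1 hx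
  simp [Lt.isMark]

private lemma lets_mark : ∀ (M : MT) (n j : ℕ), (lets M n j).filter Lt.isMark = mks n M.marks
  | MT.mark, _, _ => rfl
  | MT.node a b, n, j => by
    rw [lets, List.filter_append, lets_mark a, lets_mark b, MT.marks, mks_add]
  | MT.hang a s, n, j => by
    rw [lets, List.filter_append, lets_mark a, MT.marks, blk_mark, List.append_nil]

private lemma lets_bl : ∀ (M : MT) (n j : ℕ), ∀ x ∈ lets M n j, ∀ k, x.inBl k = true →
    j ≤ k ∧ k < j + M.hangs.length
  | MT.mark, n, j => by
    intro x hx k hk
    rw [lets, List.mem_singleton] at hx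
    subst hx
    simp [Lt.inBl] at hk
  | MT.node a b, n, j => by
    intro x hx k hk
    rw [lets, List.mem_append] at hx
    rw [MT.hangs, List.length_append]
    rcases hx with hx | hx
    · have := lets_bl a n j x hx k hk; omega
    · have := lets_bl b _ _ x hx k hk; omega
  | MT.hang a s, n, j => by
    intro x hx k hk
    rw [lets, List.mem_append] at hx
    rw [MT.hangs, List.length_append, List.length_singleton]
    rcases hx with hx | hx
    · have := lets_bl a n j x hx k hk; omega
    · obtain ⟨i, _, rfl⟩ := List.mem_map.1 hx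
      simp only [Lt.inBl, beq_iff_eq] at hk
      omega

private lemma lets_has : ∀ (M : MT) (n j k : ℕ), j ≤ k → k < j + M.hangs.length →
    ∃ x ∈ lets M n j, x.inBl k = true
  | MT.mark, n, j, k => by
    intro h1 h2
    simp only [MT.hangs, List.length_nil] at h2
    omega
  | MT.node a b, n, j, k => by
    intro h1 h2
    rw [MT.hangs, List.length_append] at h2
    by_cases h : k < j + a.hangs.length
    · obtain ⟨x, hx, hk⟩ := lets_has a n j k h1 h
      exact ⟨x, by rw [lets]; exact List.mem_append_left _ hx, hk⟩
    · obtain ⟨x, hx, hk⟩ := lets_has b (n + a.marks) (j + a.hangs.length) k (by omega) (by omega)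
      exact ⟨x, by rw [lets]; exact List.mem_append_right _ hx, hk⟩
  | MT.hang a s, n, j, k => by
    intro h1 h2
    rw [MT.hangs, List.length_append, List.length_singleton] at h2
    by_cases h : k < j + a.hangs.length
    · obtain ⟨x, hx, hk⟩ := lets_has a n j k h1 h
      exact ⟨x, by rw [lets]; exact List.mem_append_left _ hx, hk⟩
    · have hk : k = j + a.hangs.length := by omega
      refine ⟨Lt.bl (j + a.hangs.length) 0, ?_, ?_⟩
      · rw [lets]
        apply List.mem_append_right
        exact List.mem_map.2 ⟨0, List.mem_range.2 s.lv_pos, rfl⟩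
      · simp [Lt.inBl, hk]

/-- the block letters -/
private def blks : List (BT × ℕ) → ℕ → List Lt
  | [], _ => []
  | h :: t, j => (List.range h.1.lv).map (Lt.bl j) ++ blks t (j + 1)

private lemma blks_app : ∀ (l l' : List (BT × ℕ)) (j : ℕ),
    blks (l ++ l') j = blks l j ++ blks l' (j + l.length)
  | [], l', j => by simp [blks]
  | h :: t, l', j => by
    rw [List.cons_append, blks, blks, blks_app t l' (j + 1), List.append_assoc, List.length_cons]
    congr 3
    omega

private lemma blks_eq : ∀ (l : List (BT × ℕ)) (j : ℕ),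
    blks l j = (List.range l.length).flatMap
      (fun i => (List.range (l.getD i (BT.leaf, 0)).1.lv).map (Lt.bl (j + i)))
  | [], j => by simp [blks]
  | h :: t, j => by
    rw [blks, blks_eq t (j + 1), List.length_cons, List.range_succ_eq_map, List.flatMap_cons,
      List.flatMap_map]
    congr 1
    congr 1
    funext i
    rw [List.getD_cons_succ]
    congr 2
    omega

private lemma lets_perm : ∀ (M : MT) (n j : ℕ), (lets M n j).Perm (mks n M.marks ++ blks M.hangs j)
  | MT.mark, n, j => by
    show List.Perm [Lt.mark n] ([Lt.mark n] ++ [])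
    exact List.Perm.refl _
  | MT.node a b, n, j => by
    rw [lets, MT.marks, MT.hangs, mks_add, blks_app]
    refine ((lets_perm a n j).append (lets_perm b _ _)).trans ?_
    rw [List.append_assoc, List.append_assoc]
    apply List.Perm.append_left
    rw [← List.append_assoc, ← List.append_assoc]
    exact List.Perm.append_right _ List.perm_append_comm
  | MT.hang a s, n, j => by
    rw [lets, MT.marks, MT.hangs, blks_app]
    refine ((lets_perm a n j).append_right _).trans ?_
    rw [List.append_assoc]
    apply List.Perm.append_left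
    apply List.Perm.append_left
    show List.Perm _ ((List.range s.lv).map (Lt.bl (j + a.hangs.length)) ++ [])
    rw [List.append_nil]

/-- the test function for a part -/
private def Ph (ψ : ℕ → List ℕ → K) (ζ : ℕ → ℕ → K) (M : MT) (n j : ℕ) (w : List Lt) : K :=
  if w.filter Lt.isMark = mks n M.marks then
    ∏ i ∈ Finset.range M.hangs.length, (ψ (j + i) (w.filterMap (Lt.idx (j + i))) *
      tt (ζ (j + i)) n (w.filter (fun x => x.isMark || x.inBl (j + i))))
  else 0

private lemma idx_nil {k : ℕ} {p : List Lt} (h : ∀ x ∈ p, x.inBl k = false) :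
    p.filterMap (Lt.idx k) = [] := by
  rw [List.filterMap_eq_nil_iff]
  intro x hx
  have := h x hx
  cases x with
  | mark i => rfl
  | bl l i =>
    simp only [Lt.inBl, beq_eq_false_iff_ne] at this
    simp [Lt.idx, this]

private lemma filt_nil {k : ℕ} {p : List Lt} (h : ∀ x ∈ p, x.inBl k = false) :
    p.filter (fun x => x.isMark || x.inBl k) = p.filter Lt.isMark := by
  apply List.filter_congr
  intro x hx
  rw [h x hx, Bool.or_false]

private lemma filt_has {k : ℕ} {p : List Lt} (h : ∃ x ∈ p, x.inBl k = true) :
    ∃ x ∈ p.filter (fun x => x.isMark || x.inBl k), x.isMark = false := by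
  obtain ⟨x, hx, hj⟩ := h
  refine ⟨x, List.mem_filter.2 ⟨hx, by simp [hj]⟩, ?_⟩
  cases x with
  | mark i => simp [Lt.inBl] at hj
  | bl k i => rfl

private lemma not_bl {M : MT} {n j k : ℕ} {p : List Lt} (hp : p.Perm (lets M n j))
    (hk : k < j ∨ j + M.hangs.length ≤ k) : ∀ x ∈ p, x.inBl k = false := by
  intro x hx
  by_contra hc
  have := lets_bl M n j x (hp.mem_iff.1 hx) k (by simpa using hc)
  omega

private lemma has_bl {M : MT} {n j k : ℕ} {p : List Lt} (hp : p.Perm (lets M n j))
    (hk : j ≤ k) (hk' : k < j + M.hangs.length) : ∃ x ∈ p, x.inBl k = true := by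
  obtain ⟨x, hx, h⟩ := lets_has M n j k hk hk'
  exact ⟨x, hp.mem_iff.2 hx, h⟩

private lemma len_mark {M : MT} {n j : ℕ} {p : List Lt} (hp : p.Perm (lets M n j)) :
    (p.filter Lt.isMark).length = M.marks := by
  rw [(hp.filter _).length_eq, lets_mark, mks_len]

private lemma Ph_node (ψ : ℕ → List ℕ → K) (ζ : ℕ → ℕ → K) (a b : MT) (n j : ℕ) {p q : List Lt}
    (hp : p.Perm (lets a n j)) (hq : q.Perm (lets b (n + a.marks) (j + a.hangs.length))) :
    Ph ψ ζ (MT.node a b) n j (p ++ q) =
      Ph ψ ζ a n j p * Ph ψ ζ b (n + a.marks) (j + a.hangs.length) q := by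
  unfold Ph
  rw [List.filter_append, MT.marks, mks_add, MT.hangs, List.length_append]
  by_cases h1 : p.filter Lt.isMark = mks n a.marks
  · by_cases h2 : q.filter Lt.isMark = mks (n + a.marks) b.marks
    · rw [if_pos (by rw [h1, h2]), if_pos h1, if_pos h2, Finset.prod_range_add]
      congr 1
      · apply Finset.prod_congr rfl
        intro i hi
        rw [Finset.mem_range] at hi
        have hq0 := not_bl (k := j + i) hq (Or.inl (by omega))
        rw [List.filterMap_append, idx_nil hq0, List.append_nil, List.filter_append, filt_nil hq0,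
          tt_app _ _ (fun x hx => (List.mem_filter.1 hx).2) _ _
            (filt_has (has_bl hp (by omega) (by omega)))]
      · apply Finset.prod_congr rfl
        intro i hi
        rw [Finset.mem_range] at hi
        have hp0 := not_bl (k := j + (a.hangs.length + i)) hp (Or.inr (by omega))
        rw [List.filterMap_append, idx_nil hp0, List.nil_append, List.filter_append, filt_nil hp0, h1,
          tt_pre _ _ mks_mark, mks_len, add_assoc]
    · rw [if_neg h2, mul_zero, if_neg]
      intro hc
      exact h2 (List.append_inj hc (by rw [h1])).2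
  · rw [if_neg h1, zero_mul, if_neg]
    intro hc
    exact h1 (List.append_inj hc (by rw [len_mark hp, mks_len])).1

private lemma marks_pos6 : ∀ M : MT, 1 ≤ M.marks
  | MT.mark => le_refl _
  | MT.node a b => by have := marks_pos6 a; rw [MT.marks]; omega
  | MT.hang a _ => marks_pos6 a

private lemma Ph_node' (ψ : ℕ → List ℕ → K) (ζ : ℕ → ℕ → K) (a b : MT) (n j : ℕ) {p q : List Lt}
    (hq : q.Perm (lets b (n + a.marks) (j + a.hangs.length))) :
    Ph ψ ζ (MT.node a b) n j (q ++ p) = 0 := by
  unfold Ph
  rw [if_neg]
  rw [List.filter_append, MT.marks]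
  intro hc
  have ha := marks_pos6 a
  have hb := marks_pos6 b
  have hl := len_mark hq
  cases h : q.filter Lt.isMark with
  | nil => rw [h] at hl; simp at hl; omega
  | cons x l =>
    have hx : x ∈ q.filter Lt.isMark := by rw [h]; exact List.mem_cons_self
    have hx2 : x ∈ (lets b (n + a.marks) (j + a.hangs.length)).filter Lt.isMark :=
      (hq.filter _).mem_iff.1 hx
    rw [lets_mark] at hx2
    obtain ⟨i, hi, rfl⟩ := List.mem_map.1 hx2
    rw [List.mem_range'_1] at hi
    rw [h, List.cons_append] at hc
    obtain ⟨k, hk⟩ : ∃ k, a.marks + b.marks = k + 1 := ⟨a.marks + b.marks - 1, by omega⟩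
    rw [hk, mks, List.range'_succ, List.map_cons] at hc
    injection hc with h1 h2
    injection h1 with h1
    omega

private lemma Ph_hang (ψ : ℕ → List ℕ → K) (ζ : ℕ → ℕ → K) (a : MT) (s : BT) (n j : ℕ) {p q : List Lt}
    (hp : p.Perm (lets a n j)) (hq : q.Perm ((List.range s.lv).map (Lt.bl (j + a.hangs.length)))) :
    Ph ψ ζ (MT.hang a s) n j (p ++ q) = Ph ψ ζ a n j p *
      (ψ (j + a.hangs.length) (q.filterMap (Lt.idx (j + a.hangs.length))) *
        ζ (j + a.hangs.length) (n + a.marks)) ∧
    Ph ψ ζ (MT.hang a s) n j (q ++ p) = Ph ψ ζ a n j p *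
      (ψ (j + a.hangs.length) (q.filterMap (Lt.idx (j + a.hangs.length))) *
        ζ (j + a.hangs.length) n) := by
  have hqm : ∀ x ∈ q, ∃ i, x = Lt.bl (j + a.hangs.length) i := by
    intro x hx
    obtain ⟨i, _, rfl⟩ := List.mem_map.1 (hq.mem_iff.1 hx)
    exact ⟨i, rfl⟩
  have hqf : q.filter Lt.isMark = [] := by
    rw [List.filter_eq_nil_iff]
    intro x hx
    obtain ⟨i, rfl⟩ := hqm x hx
    simp [Lt.isMark]
  have hq0 : ∀ i, i < a.hangs.length → ∀ x ∈ q, x.inBl (j + i) = false := by
    intro i hi x hx
    obtain ⟨i', rfl⟩ := hqm x hx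
    simp only [Lt.inBl, beq_eq_false_iff_ne]
    omega
  have hqs : q.filter (fun x => x.isMark || x.inBl (j + a.hangs.length)) = q := by
    rw [List.filter_eq_self]
    intro x hx
    obtain ⟨i', rfl⟩ := hqm x hx
    simp [Lt.inBl]
  have hqne : q ≠ [] := by
    intro h
    have := hq.length_eq
    rw [h, List.length_map, List.length_range, List.length_nil] at this
    have := s.lv_pos
    omega
  have hqnm : ∀ x ∈ q, x.isMark = false := by
    intro x hx
    obtain ⟨i', rfl⟩ := hqm x hx
    rfl
  have hp0 := not_bl (k := j + a.hangs.length) hp (Or.inr (le_refl _))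
  have hex : ∃ x ∈ q, x.isMark = false := by
    obtain ⟨x, hx⟩ := List.exists_mem_of_ne_nil q hqne
    exact ⟨x, hx, hqnm x hx⟩
  unfold Ph
  rw [List.filter_append, List.filter_append, MT.marks, MT.hangs, List.length_append,
    List.length_singleton, hqf, List.append_nil, List.nil_append]
  by_cases h1 : p.filter Lt.isMark = mks n a.marks
  · rw [if_pos h1, if_pos h1, if_pos h1, Finset.prod_range_succ, Finset.prod_range_succ]
    refine ⟨?_, ?_⟩
    · congr 1
      · apply Finset.prod_congr rfl
        intro i hi
        rw [Finset.mem_range] at hi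
        rw [List.filterMap_append, idx_nil (hq0 i hi), List.append_nil, List.filter_append,
          filt_nil (hq0 i hi), hqf, List.append_nil]
      · rw [List.filterMap_append, idx_nil hp0, List.nil_append, List.filter_append, filt_nil hp0, h1,
          tt_pre _ _ mks_mark, mks_len, hqs, tt_blk _ _ _ hqne hqnm]
    · congr 1
      · apply Finset.prod_congr rfl
        intro i hi
        rw [Finset.mem_range] at hi
        rw [List.filterMap_append, idx_nil (hq0 i hi), List.nil_append, List.filter_append,
          filt_nil (hq0 i hi), hqf, List.nil_append]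
      · rw [List.filterMap_append, idx_nil hp0, List.append_nil, List.filter_append, filt_nil hp0,
          hqs, tt_app _ _ (fun x hx => (List.mem_filter.1 hx).2) _ _ hex, tt_blk _ _ _ hqne hqnm]
  · rw [if_neg h1, if_neg h1, if_neg h1]
    exact ⟨by rw [zero_mul], by rw [zero_mul]⟩

private lemma main6 (ψ : ℕ → List ℕ → K) (ζ : ℕ → ℕ → K) : ∀ (M : MT) (n j : ℕ)
    (_ : ∀ i (hi : i < M.hangs.length), ∃ S : LT ℕ, S.shape = (M.hangs[i]).1 ∧
      S.leaves = List.range (M.hangs[i]).1.lv ∧ S.val (ψ (j + i)) ≠ 0)
    (_ : ∀ i (hi : i < M.hangs.length), ∀ a, n ≤ a → a + (M.hangs[i]).2 ≤ n + M.marks →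
      ζ (j + i) a ≠ ζ (j + i) (a + (M.hangs[i]).2)),
    ∃ L : LT Lt, L.shape = M.shape ∧ L.leaves = lets M n j ∧ L.val (Ph ψ ζ M n j) ≠ 0
  | MT.mark, n, j, _, _ => by
    refine ⟨LT.leaf (Lt.mark n), rfl, rfl, ?_⟩
    have h0 : List.filter Lt.isMark [Lt.mark n] = mks n MT.mark.marks := rfl
    rw [LT.val, Ph, if_pos h0]
    simp [MT.hangs]
  | MT.node a b, n, j, H1, H2 => by
    obtain ⟨La, hLa, hla, hva⟩ := main6 ψ ζ a n j
      (fun i hi => by
        have := H1 i (by rw [MT.hangs, List.length_append]; omega)
        simp only [MT.hangs, List.getElem_append_left hi] at this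
        exact this)
      (fun i hi c hc hc' => by
        have := H2 i (by rw [MT.hangs, List.length_append]; omega) c hc
        simp only [MT.hangs, List.getElem_append_left hi, MT.marks] at this
        exact this (by omega))
    obtain ⟨Lb, hLb, hlb, hvb⟩ := main6 ψ ζ b (n + a.marks) (j + a.hangs.length)
      (fun i hi => by
        have := H1 (a.hangs.length + i) (by rw [MT.hangs, List.length_append]; omega)
        simp only [MT.hangs, List.getElem_append_right (Nat.le_add_right _ _),
          Nat.add_sub_cancel_left] at this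
        rw [add_assoc]
        exact this)
      (fun i hi c hc hc' => by
        have := H2 (a.hangs.length + i) (by rw [MT.hangs, List.length_append]; omega) c (by omega)
        simp only [MT.hangs, List.getElem_append_right (Nat.le_add_right _ _),
          Nat.add_sub_cancel_left, MT.marks] at this
        rw [add_assoc]
        exact this (by omega))
    refine ⟨LT.node La Lb, by rw [LT.shape, MT.shape, hLa, hLb], by rw [LT.leaves, lets, hla, hlb], ?_⟩
    rw [LT.val]
    have h1 : La.val (fun p => Lb.val (fun q => Ph ψ ζ (MT.node a b) n j (p ++ q))) =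
        La.val (Ph ψ ζ a n j) * Lb.val (Ph ψ ζ b (n + a.marks) (j + a.hangs.length)) := by
      rw [← r6_mul_right]
      apply r6_congr
      intro p hp
      rw [← r6_mul_left]
      apply r6_congr
      intro q hq
      rw [hla] at hp
      rw [hlb] at hq
      exact Ph_node ψ ζ a b n j hp hq
    have h2 : Lb.val (fun q => La.val (fun p => Ph ψ ζ (MT.node a b) n j (q ++ p))) = 0 := by
      rw [← r6_zero (K := K) Lb]
      apply r6_congr
      intro q hq
      rw [← r6_zero (K := K) La]
      apply r6_congr
      intro p _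
      rw [hlb] at hq
      exact Ph_node' ψ ζ a b n j hq
    rw [h1, h2, sub_zero]
    exact mul_ne_zero hva hvb
  | MT.hang a s, n, j, H1, H2 => by
    obtain ⟨La, hLa, hla, hva⟩ := main6 ψ ζ a n j
      (fun i hi => by
        have := H1 i (by rw [MT.hangs, List.length_append]; omega)
        simp only [MT.hangs, List.getElem_append_left hi] at this
        exact this)
      (fun i hi c hc hc' => by
        have := H2 i (by rw [MT.hangs, List.length_append]; omega) c hc
        simp only [MT.hangs, List.getElem_append_left hi, MT.marks] at this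
        exact this (by omega))
    have hlast : a.hangs.length < (MT.hang a s).hangs.length := by
      rw [MT.hangs, List.length_append, List.length_singleton]; omega
    have hget : (MT.hang a s).hangs[a.hangs.length] = (s, a.marks) := by
      simp only [MT.hangs, List.getElem_append_right (le_refl _), Nat.sub_self,
        List.getElem_cons_zero]
    obtain ⟨S, hS1, hS2, hS3⟩ := H1 a.hangs.length hlast
    have hz := H2 a.hangs.length hlast n (le_refl _)
    rw [hget] at hS1 hS2 hz
    have hz' := hz (le_refl _)
    refine ⟨LT.node La (r6map (Lt.bl (j + a.hangs.length)) S),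
      by rw [LT.shape, MT.shape, hLa, r6_shape, hS1],
      by rw [LT.leaves, lets, hla, r6_leaves, hS2], ?_⟩
    rw [LT.val]
    have hv : ∀ c : K, (r6map (Lt.bl (j + a.hangs.length)) S).val (fun q =>
        La.val (Ph ψ ζ a n j) * (ψ (j + a.hangs.length) (q.filterMap (Lt.idx (j + a.hangs.length))) * c)) =
        La.val (Ph ψ ζ a n j) * (S.val (ψ (j + a.hangs.length)) * c) := by
      intro c
      rw [r6_mul_left, r6_mul_right, r6_val_map]
      congr 2
      apply r6_congr
      intro w _
      have : (w.map (Lt.bl (j + a.hangs.length))).filterMap (Lt.idx (j + a.hangs.length)) = w := by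
        rw [List.filterMap_map]
        have h : (Lt.idx (j + a.hangs.length) ∘ Lt.bl (j + a.hangs.length)) = some := by
          funext i
          simp [Lt.idx]
        rw [h, List.filterMap_some]
      rw [this]
    have h1 : La.val (fun p => (r6map (Lt.bl (j + a.hangs.length)) S).val
        (fun q => Ph ψ ζ (MT.hang a s) n j (p ++ q))) =
        La.val (Ph ψ ζ a n j) * (S.val (ψ (j + a.hangs.length)) * ζ (j + a.hangs.length) (n + a.marks)) := by
      rw [← hv, r6_mul_left, ← r6_mul_right]
      apply r6_congr
      intro p hp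
      rw [← r6_mul_left]
      apply r6_congr
      intro q hq
      rw [hla] at hp
      rw [r6_leaves, hS2] at hq
      exact (Ph_hang ψ ζ a s n j hp hq).1
    have h2 : (r6map (Lt.bl (j + a.hangs.length)) S).val (fun q => La.val
        (fun p => Ph ψ ζ (MT.hang a s) n j (q ++ p))) =
        La.val (Ph ψ ζ a n j) * (S.val (ψ (j + a.hangs.length)) * ζ (j + a.hangs.length) n) := by
      rw [← hv]
      apply r6_congr
      intro q hq
      rw [← r6_mul_right]
      apply r6_congr
      intro p hp
      rw [hla] at hp
      rw [r6_leaves, hS2] at hq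
      exact (Ph_hang ψ ζ a s n j hp hq).2
    rw [h1, h2, ← mul_sub, ← mul_sub]
    exact mul_ne_zero hva (mul_ne_zero hS3 (sub_ne_zero.2 (fun h => hz' h.symm)))

/-- R6 -/
theorem nonvan (M : MT) (ψ : ℕ → List ℕ → K) (ζ : ℕ → ℕ → K)
    (H1 : ∀ j (hj : j < M.hangs.length), ∃ S : LT ℕ, S.shape = (M.hangs[j]).1 ∧
      S.leaves = List.range (M.hangs[j]).1.lv ∧ S.val (ψ j) ≠ 0)
    (H2 : ∀ j (hj : j < M.hangs.length), ∀ a, a + (M.hangs[j]).2 ≤ M.marks →
      ζ j a ≠ ζ j (a + (M.hangs[j]).2)) :
    ∃ L : LT Lt, L.shape = M.shape ∧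
      L.val (Dat.φ ⟨M.marks, M.hangs.length, fun j => (M.hangs.getD j (BT.leaf, 0)).1.lv, ψ, ζ⟩) ≠ 0 := by
  obtain ⟨L, h1, h2, h3⟩ := main6 ψ ζ M 0 0
    (fun i hi => by rw [zero_add]; exact H1 i hi)
    (fun i hi a _ ha => by rw [zero_add]; rw [zero_add] at ha; exact H2 i hi a ha)
  refine ⟨L, h1, ?_⟩
  have h4 : L.val (Dat.φ ⟨M.marks, M.hangs.length, fun j => (M.hangs.getD j (BT.leaf, 0)).1.lv, ψ, ζ⟩) =
      L.val (Ph ψ ζ M 0 0) := by
    apply r6_congr
    intro w hw
    rw [h2] at hw
    unfold Dat.φ Ph
    have hperm : w.Perm (Dat.all (K := K) ⟨M.marks, M.hangs.length,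
        fun j => (M.hangs.getD j (BT.leaf, 0)).1.lv, ψ, ζ⟩) := by
      refine hw.trans ((lets_perm M 0 0).trans ?_)
      rw [blks_eq]
      unfold Dat.all Dat.marks mks
      rw [← List.range_eq_range']
      simp only [zero_add]
      exact List.Perm.refl _
    have hmk : Dat.marks (K := K) ⟨M.marks, M.hangs.length,
        fun j => (M.hangs.getD j (BT.leaf, 0)).1.lv, ψ, ζ⟩ = mks 0 M.marks := by
      unfold Dat.marks mks
      rw [← List.range_eq_range']
    by_cases hc : w.filter Lt.isMark = mks 0 M.marks
    · rw [if_pos ⟨hperm, by rw [hmk]; exact hc⟩, if_pos hc]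
      apply Finset.prod_congr rfl
      intro i hi
      rw [F_eq _ w i (by rw [hmk]; exact hc)
        (has_bl hw (Nat.zero_le _) (by rw [zero_add]; exact Finset.mem_range.1 hi)), zero_add]
    · rw [if_neg (fun h => hc (by rw [← hmk]; exact h.2)), if_neg hc]
  rw [h4]
  exact h3

end main

end Pool.Agent.BK
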