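import Pool.Agent.BK.Sig

/-! Board BK, rows R7a, R7b, R7c: counting complete blocks -/

namespace Pool.Agent.BK

open Pool.Agent.H25

variable {K : Type*} [Field K]

/-- number of blocks of size `r` -/
def sp (D : Dat K) (r : ℕ) : ℕ := ((List.range D.J).filter (fun j => D.sz j = r)).length

/-- `S` is a complete block `j` with sibling `Y` in `L` -/
def Comp (D : Dat K) (L : LT Lt) (j : ℕ) (S Y : LT Lt) : Prop :=
  S.leaves.Perm ((List.range (D.sz j)).map (Lt.bl j)) ∧ (LT.Cl (LT.node S Y) L ∨ LT.Cl (LT.node Y S) L)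

private lemma r7_cl_trans {α : Type} {A B : LT α} (h : LT.Cl A B) {C : LT α} (h2 : LT.Cl B C) :
    LT.Cl A C := by
  induction h2 with
  | refl => exact h
  | left b _ ih => exact LT.Cl.left b ih
  | right a _ ih => exact LT.Cl.right a ih

private lemma r7_len {α : Type} : ∀ L : LT α, L.leaves.length = L.shape.lv
  | LT.leaf _ => rfl
  | LT.node a b => by
    simp only [LT.leaves, LT.shape, BT.lv, List.length_append, r7_len a, r7_len b]

private lemma r7_sub {α : Type} {A B : LT α} (h : LT.Cl A B) : A.leaves.Sublist B.leaves := by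
  induction h with
  | refl => exact List.Sublist.refl _
  | left b _ ih => exact ih.trans (List.sublist_append_left _ _)
  | right a _ ih => exact ih.trans (List.sublist_append_right _ _)

private lemma r7_cl_node {α : Type} {S a b : LT α} :
    LT.Cl S (LT.node a b) ↔ S = LT.node a b ∨ LT.Cl S a ∨ LT.Cl S b := by
  constructor
  · intro h
    cases h with
    | refl => exact Or.inl rfl
    | left _ h => exact Or.inr (Or.inl h)
    | right _ h => exact Or.inr (Or.inr h)
  · rintro (h | h | h)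
    · rw [h]; exact LT.Cl.refl _
    · exact LT.Cl.left _ h
    · exact LT.Cl.right _ h

private lemma r7_mem_all {D : Dat K} {x : Lt} :
    x ∈ D.all ↔ (∃ i < D.N, x = Lt.mark i) ∨ ∃ j < D.J, ∃ i < D.sz j, x = Lt.bl j i := by
  simp only [Dat.all, Dat.marks, List.mem_append, List.mem_map, List.mem_range, List.mem_flatMap]
  constructor
  · rintro (⟨i, hi, rfl⟩ | ⟨j, hj, i, hi, rfl⟩)
    · exact Or.inl ⟨i, hi, rfl⟩
    · exact Or.inr ⟨j, hj, i, hi, rfl⟩
  · rintro (⟨i, hi, rfl⟩ | ⟨j, hj, i, hi, rfl⟩)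
    · exact Or.inl ⟨i, hi, rfl⟩
    · exact Or.inr ⟨j, hj, i, hi, rfl⟩

private lemma r7_blk_nodup (D : Dat K) (j : ℕ) : ((List.range (D.sz j)).map (Lt.bl j)).Nodup :=
  List.Nodup.map (fun a b h => by injection h) List.nodup_range

private lemma r7_all_nodup (D : Dat K) : D.all.Nodup := by
  unfold Dat.all Dat.marks
  rw [List.nodup_append]
  refine ⟨List.Nodup.map (fun a b h => by injection h) List.nodup_range, ?_, ?_⟩
  · rw [List.nodup_flatMap]
    refine ⟨fun j _ => r7_blk_nodup D j, ?_⟩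
    refine List.Pairwise.imp ?_ List.nodup_range
    intro a b hab
    intro x hx hy
    simp only [List.mem_map] at hx hy
    obtain ⟨i, _, rfl⟩ := hx
    obtain ⟨k, _, hk⟩ := hy
    injection hk with h1 h2
    exact hab h1.symm
  · intro x hx y hy hxy
    simp only [List.mem_map, List.mem_flatMap] at hx hy
    obtain ⟨i, _, rfl⟩ := hx
    obtain ⟨j, _, k, _, hk⟩ := hy
    rw [← hxy] at hk
    cases hk

/-- hereditary conditions -/
private def Ok (D : Dat K) (C : LT Lt) : Prop :=
  C.leaves.Nodup ∧ (∀ x ∈ C.leaves, x ∈ D.all) ∧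
    ∀ P Q : LT Lt, LT.Cl (LT.node P Q) C → ∃ x ∈ P.leaves, ∃ y ∈ Q.leaves, Lt.nc x y

private lemma ok_of_cl {D : Dat K} {A C : LT Lt} (h : LT.Cl A C) (hC : Ok D C) : Ok D A :=
  ⟨hC.1.sublist (r7_sub h), fun x hx => hC.2.1 x ((r7_sub h).subset hx),
    fun P Q hP => hC.2.2 P Q (r7_cl_trans hP h)⟩

/-- number of marks -/
private def mrk (C : LT Lt) : ℕ := (C.leaves.filter Lt.isMark).length

private lemma mrk_node (A B : LT Lt) : mrk (LT.node A B) = mrk A + mrk B := by
  simp only [mrk, LT.leaves, List.filter_append, List.length_append]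

private lemma mrk_pos {C : LT Lt} {x : Lt} (hx : x ∈ C.leaves) (hm : x.isMark = true) : 1 ≤ mrk C :=
  List.length_pos_of_mem (List.mem_filter.2 ⟨hx, hm⟩)

private lemma not_mark_of {C : LT Lt} (h : mrk C = 0) {x : Lt} (hx : x ∈ C.leaves) : x.isMark = false := by
  by_contra hc
  have := mrk_pos hx (by simpa using hc)
  omega

private lemma one_block {D : Dat K} : ∀ C : LT Lt, Ok D C → mrk C = 0 →
    ∃ j < D.J, ∀ x ∈ C.leaves, ∃ i < D.sz j, x = Lt.bl j i
  | LT.leaf x, h, h0 => by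
    have hx : x ∈ (LT.leaf x).leaves := by simp [LT.leaves]
    have hm := not_mark_of h0 hx
    rcases r7_mem_all.1 (h.2.1 x hx) with ⟨i, _, rfl⟩ | ⟨j, hj, i, hi, rfl⟩
    · simp [Lt.isMark] at hm
    · refine ⟨j, hj, fun y hy => ?_⟩
      simp only [LT.leaves, List.mem_singleton] at hy
      exact ⟨i, hi, hy⟩
  | LT.node A B, h, h0 => by
    rw [mrk_node] at h0
    obtain ⟨j, hj, hA⟩ := one_block A (ok_of_cl (LT.Cl.left _ (LT.Cl.refl _)) h) (by omega)
    obtain ⟨k, hk, hB⟩ := one_block B (ok_of_cl (LT.Cl.right _ (LT.Cl.refl _)) h) (by omega)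
    obtain ⟨x, hx, y, hy, hxy⟩ := h.2.2 A B (LT.Cl.refl _)
    obtain ⟨i, hi, rfl⟩ := hA x hx
    obtain ⟨i', hi', rfl⟩ := hB y hy
    have hjk : j = k := hxy
    subst hjk
    refine ⟨j, hj, fun z hz => ?_⟩
    simp only [LT.leaves, List.mem_append] at hz
    rcases hz with hz | hz
    · exact hA z hz
    · exact hB z hz

/-- `C` is the complete block `j` of size `r` -/
private def IsB (D : Dat K) (r : ℕ) (C : LT Lt) (j : ℕ) : Prop :=
  j < D.J ∧ D.sz j = r ∧ C.leaves.Perm ((List.range (D.sz j)).map (Lt.bl j))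

private lemma isB_len {D : Dat K} {r : ℕ} {C : LT Lt} {j : ℕ} (h : IsB D r C j) : C.shape.lv = r := by
  rw [← r7_len, h.2.2.length_eq, List.length_map, List.length_range, h.2.1]

private lemma isB_mem {D : Dat K} {r : ℕ} {C : LT Lt} {j : ℕ} (h : IsB D r C j) {x : Lt}
    (hx : x ∈ C.leaves) : ∃ i, x = Lt.bl j i := by
  have := h.2.2.mem_iff.1 hx
  simp only [List.mem_map] at this
  obtain ⟨i, _, rfl⟩ := this
  exact ⟨i, rfl⟩

private lemma isB_mrk {D : Dat K} {r : ℕ} {C : LT Lt} {j : ℕ} (h : IsB D r C j) : mrk C = 0 := by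
  unfold mrk
  rw [List.length_eq_zero_iff, List.filter_eq_nil_iff]
  intro x hx
  obtain ⟨i, rfl⟩ := isB_mem h hx
  simp [Lt.isMark]

private lemma leaves_ne {α : Type} (C : LT α) : ∃ x, x ∈ C.leaves := by
  have h : 1 ≤ C.leaves.length := by rw [r7_len]; exact BT.lv_pos _
  exact List.exists_mem_of_length_pos h

open Classical in
/-- the complete blocks of size `r` inside `C` with property `Q` -/
private noncomputable def Sg (D : Dat K) (r : ℕ) (Q : ℕ → Prop) (C : LT Lt) : Finset ℕ :=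
  (Finset.range D.J).filter (fun j => Q j ∧ ∃ S, LT.Cl S C ∧ IsB D r S j)

open Classical in
private lemma mem_Sg {D : Dat K} {r : ℕ} {Q : ℕ → Prop} {C : LT Lt} {j : ℕ} :
    j ∈ Sg D r Q C ↔ Q j ∧ ∃ S, LT.Cl S C ∧ IsB D r S j := by
  unfold Sg
  rw [Finset.mem_filter, Finset.mem_range]
  exact ⟨fun h => h.2, fun h => ⟨h.2.elim fun S hS => hS.2.1, h⟩⟩

private lemma Sg_small {D : Dat K} {r : ℕ} {Q : ℕ → Prop} {C : LT Lt} (h : C.shape.lv < r) :
    Sg D r Q C = ∅ := by
  rw [Finset.eq_empty_iff_forall_notMem]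
  intro j hj
  obtain ⟨_, S, hS, hB⟩ := mem_Sg.1 hj
  have h1 := (r7_sub hS).length_le
  rw [r7_len, r7_len, isB_len hB] at h1
  omega

open Classical in
private lemma Sg_isB {D : Dat K} {r : ℕ} {Q : ℕ → Prop} {C : LT Lt} {j : ℕ} (h : IsB D r C j) :
    Sg D r Q C = if Q j then {j} else ∅ := by
  have key : ∀ k, (∃ S, LT.Cl S C ∧ IsB D r S k) → k = j := by
    rintro k ⟨S, hS, hB⟩
    obtain ⟨x, hx⟩ := leaves_ne S
    obtain ⟨i, rfl⟩ := isB_mem hB hx
    obtain ⟨i', hi'⟩ := isB_mem h ((r7_sub hS).subset hx)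
    injection hi' with h1 h2
  ext k
  rw [mem_Sg]
  by_cases hQ : Q j
  · rw [if_pos hQ, Finset.mem_singleton]
    constructor
    · rintro ⟨_, h2⟩; exact key k h2
    · rintro rfl; exact ⟨hQ, C, LT.Cl.refl _, h⟩
  · rw [if_neg hQ]
    constructor
    · rintro ⟨h1, h2⟩
      rw [key k h2] at h1
      exact absurd h1 hQ
    · intro h3; simp at h3

private lemma Sg_node {D : Dat K} {r : ℕ} {Q : ℕ → Prop} {A B : LT Lt} (hok : Ok D (LT.node A B))
    (h : ¬ ∃ j, IsB D r (LT.node A B) j) :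
    (Sg D r Q (LT.node A B)).card = (Sg D r Q A).card + (Sg D r Q B).card := by
  classical
  rw [← Finset.card_union_of_disjoint]
  · congr 1
    ext j
    rw [Finset.mem_union, mem_Sg, mem_Sg, mem_Sg]
    constructor
    · rintro ⟨hQ, S, hS, hB⟩
      rcases r7_cl_node.1 hS with h1 | h1 | h1
      · rw [h1] at hB; exact absurd ⟨j, hB⟩ h
      · exact Or.inl ⟨hQ, S, h1, hB⟩
      · exact Or.inr ⟨hQ, S, h1, hB⟩
    · rintro (⟨hQ, S, hS, hB⟩ | ⟨hQ, S, hS, hB⟩)
      · exact ⟨hQ, S, LT.Cl.left _ hS, hB⟩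
      · exact ⟨hQ, S, LT.Cl.right _ hS, hB⟩
  · rw [Finset.disjoint_left]
    intro j h1 h2
    obtain ⟨_, S, hS, hB⟩ := mem_Sg.1 h1
    obtain ⟨_, T, hT, hB'⟩ := mem_Sg.1 h2
    obtain ⟨x, hx⟩ := leaves_ne S
    have hx' : x ∈ T.leaves := hB'.2.2.mem_iff.2 (hB.2.2.mem_iff.1 hx)
    have hnd := hok.1
    simp only [LT.leaves] at hnd
    exact (List.nodup_append.1 hnd).2.2 x ((r7_sub hS).subset hx) x ((r7_sub hT).subset hx') rfl

private lemma cge_zero {r : ℕ} (hr : 1 ≤ r) : ∀ {s : BT}, s.lv < r → cge r s = 0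
  | BT.leaf, h => by
    have h' : 1 < r := h
    rw [cge, if_neg (by omega)]
  | BT.node a b, h => by
    have h' : a.lv + b.lv < r := h
    have ha := a.lv_pos
    have hb := b.lv_pos
    rw [cge, cge_zero hr (s := a) (by omega), cge_zero hr (s := b) (by omega), if_pos rfl,
      if_neg (by omega)]

private lemma cge_pos {r : ℕ} : ∀ {s : BT}, r ≤ s.lv → 1 ≤ cge r s
  | BT.leaf, h => by
    have h' : r ≤ 1 := h
    rw [cge, if_pos h']
  | BT.node a b, h => by
    have h' : r ≤ a.lv + b.lv := h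
    rw [cge]
    split_ifs with h1
    · exact le_refl _
    · omega

private lemma cge_one {r : ℕ} (hr : 1 ≤ r) : ∀ {s : BT}, s.lv = r → cge r s = 1
  | BT.leaf, h => by
    have h' : 1 = r := h
    rw [cge, if_pos (by omega)]
  | BT.node a b, h => by
    have h' : a.lv + b.lv = r := h
    have ha := a.lv_pos
    have hb := b.lv_pos
    rw [cge, cge_zero hr (s := a) (by omega), cge_zero hr (s := b) (by omega), if_pos rfl,
      if_pos (by omega)]

/-- an unmarked clade is small or a complete block -/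
private lemma unmarked {D : Dat K} {r : ℕ} (hsz : ∀ j, j < D.J → 1 ≤ D.sz j ∧ D.sz j ≤ r) {C : LT Lt}
    (hok : Ok D C) (h0 : mrk C = 0) (h : r ≤ C.shape.lv) : ∃ j, IsB D r C j := by
  obtain ⟨j, hj, hC⟩ := one_block C hok h0
  have hsub : C.leaves ⊆ (List.range (D.sz j)).map (Lt.bl j) := by
    intro x hx
    obtain ⟨i, hi, rfl⟩ := hC x hx
    exact List.mem_map.2 ⟨i, List.mem_range.2 hi, rfl⟩
  have hsp := List.subperm_of_subset hok.1 hsub
  have hle := hsp.length_le
  rw [List.length_map, List.length_range, r7_len] at hle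
  have h2 := (hsz j hj).2
  refine ⟨j, hj, by omega, hsp.perm_of_length_le ?_⟩
  rw [List.length_map, List.length_range, r7_len]
  omega

private lemma c1 {D : Dat K} {r : ℕ} (hr1 : 1 ≤ r) (hsz : ∀ j, j < D.J → 1 ≤ D.sz j ∧ D.sz j ≤ r) :
    ∀ C : LT Lt, Ok D C → cge r C.shape ≤ mrk C + (Sg D r (fun _ => True) C).card := by
  intro C
  by_cases h0 : mrk C = 0
  · intro hok
    by_cases hl : C.shape.lv < r
    · rw [cge_zero hr1 hl]; exact Nat.zero_le _
    · obtain ⟨j, hj⟩ := unmarked hsz hok h0 (by omega)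
      rw [cge_one hr1 (isB_len hj), Sg_isB hj, if_pos trivial, Finset.card_singleton]
      omega
  · induction C with
    | leaf x =>
      intro _
      have : cge r (LT.leaf x).shape ≤ 1 := by
        show cge r BT.leaf ≤ 1
        rw [cge]; split_ifs <;> omega
      omega
    | node A B ihA ihB =>
      intro hok
      have hokA : Ok D A := ok_of_cl (LT.Cl.left _ (LT.Cl.refl _)) hok
      have hokB : Ok D B := ok_of_cl (LT.Cl.right _ (LT.Cl.refl _)) hok
      have hnB : ¬ ∃ j, IsB D r (LT.node A B) j := by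
        rintro ⟨j, hj⟩
        exact h0 (isB_mrk hj)
      have base : ∀ C' : LT Lt, Ok D C' → mrk C' = 0 →
          cge r C'.shape ≤ mrk C' + (Sg D r (fun _ => True) C').card := by
        intro C' hok' h0'
        by_cases hl : C'.shape.lv < r
        · rw [cge_zero hr1 hl]; exact Nat.zero_le _
        · obtain ⟨j, hj⟩ := unmarked hsz hok' h0' (by omega)
          rw [cge_one hr1 (isB_len hj), Sg_isB hj, if_pos trivial, Finset.card_singleton]
          omega
      have hA : cge r A.shape ≤ mrk A + (Sg D r (fun _ => True) A).card := by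
        by_cases hA0 : mrk A = 0
        · exact base A hokA hA0
        · exact ihA hA0 hokA
      have hB : cge r B.shape ≤ mrk B + (Sg D r (fun _ => True) B).card := by
        by_cases hB0 : mrk B = 0
        · exact base B hokB hB0
        · exact ihB hB0 hokB
      rw [Sg_node hok hnB, mrk_node]
      rw [mrk_node] at h0
      show cge r (BT.node A.shape B.shape) ≤ _
      rw [cge]
      split_ifs <;> omega

/-- equality -/
private def Ti (D : Dat K) (r : ℕ) (C : LT Lt) : Prop :=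
  cge r C.shape = mrk C + (Sg D r (fun _ => True) C).card

private lemma ti_node {D : Dat K} {r : ℕ} (hr1 : 1 ≤ r)
    (hsz : ∀ j, j < D.J → 1 ≤ D.sz j ∧ D.sz j ≤ r) {A B : LT Lt} (hok : Ok D (LT.node A B))
    (hn : ¬ ∃ j, IsB D r (LT.node A B) j)
    (hT : Ti D r (LT.node A B)) (h : ¬ (A.shape.lv < r ∧ B.shape.lv < r)) : Ti D r A ∧ Ti D r B := by
  have hokA : Ok D A := ok_of_cl (LT.Cl.left _ (LT.Cl.refl _)) hok
  have hokB : Ok D B := ok_of_cl (LT.Cl.right _ (LT.Cl.refl _)) hok
  have hA := c1 hr1 hsz A hokA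
  have hB := c1 hr1 hsz B hokB
  unfold Ti at hT ⊢
  rw [Sg_node hok hn, mrk_node] at hT
  have hT' : cge r (BT.node A.shape B.shape) = mrk A + mrk B +
      ((Sg D r (fun _ => True) A).card + (Sg D r (fun _ => True) B).card) := hT
  rw [cge] at hT'
  have hne : ¬ (cge r A.shape + cge r B.shape = 0) := by
    intro h0
    apply h
    constructor
    · by_contra hc
      have := cge_pos (r := r) (s := A.shape) (by omega)
      omega
    · by_contra hc
      have := cge_pos (r := r) (s := B.shape) (by omega)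
      omega
  rw [if_neg hne] at hT'
  omega

private lemma Rn_zero {r : ℕ} (hr : 1 ≤ r) (al : BT → Prop) : ∀ {s : BT}, s.lv ≤ r → Rn r al s = 0
  | BT.leaf, _ => by rw [Rn]
  | BT.node a b, h => by
    have h' : a.lv + b.lv ≤ r := h
    have ha := a.lv_pos
    have hb := b.lv_pos
    rw [Rn, Rn_zero hr al (s := a) (by omega), Rn_zero hr al (s := b) (by omega), if_neg]
    rintro (⟨_, h2⟩ | ⟨_, h2⟩) <;> omega

private lemma Kn_zero {r : ℕ} (hr : 1 ≤ r) (al : BT → Prop) (m : ℕ) :
    ∀ {s : BT}, s.lv ≤ r → Kn r al m s = 0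
  | BT.leaf, _ => by rw [Kn]
  | BT.node a b, h => by
    have h' : a.lv + b.lv ≤ r := h
    have ha := a.lv_pos
    have hb := b.lv_pos
    rw [Kn, Kn_zero hr al m (s := a) (by omega), Kn_zero hr al m (s := b) (by omega), if_neg]
    rintro (⟨_, h2, _⟩ | ⟨_, h2, _⟩) <;> omega

/-- the sibling of a complete block has a mark -/
private lemma sib_mark {D : Dat K} {r : ℕ} {S Y : LT Lt} {j : ℕ}
    (hS : IsB D r S j) (hnd : ∀ x ∈ S.leaves, x ∉ Y.leaves) (hall : ∀ x ∈ Y.leaves, x ∈ D.all)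
    (h : ∃ x ∈ S.leaves, ∃ y ∈ Y.leaves, Lt.nc x y ∨ Lt.nc y x) : 1 ≤ mrk Y := by
  obtain ⟨x, hx, y, hy, hxy⟩ := h
  obtain ⟨i, rfl⟩ := isB_mem hS hx
  rcases r7_mem_all.1 (hall y hy) with ⟨k, _, rfl⟩ | ⟨k, hk, i', hi', rfl⟩
  · exact mrk_pos hy rfl
  · exfalso
    have hjk : j = k := by
      rcases hxy with h1 | h1
      · exact h1
      · exact Eq.symm h1
    subst hjk
    apply hnd (Lt.bl j i') _ hy
    exact hS.2.2.mem_iff.2 (List.mem_map.2 ⟨i', List.mem_range.2 hi', rfl⟩)

private lemma sib_big {D : Dat K} {r : ℕ} (hr1 : 1 ≤ r) {Y : LT Lt} (h1 : 1 ≤ mrk Y)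
    (hT : Ti D r Y) : r ≤ Y.shape.lv := by
  by_contra hc
  unfold Ti at hT
  rw [cge_zero hr1 (by omega)] at hT
  omega

section main
variable {D : Dat K} {L : LT Lt} {r : ℕ} (hr1 : 1 ≤ r)
  (hsz : ∀ j, j < D.J → 1 ≤ D.sz j ∧ D.sz j ≤ r) (al : BT → Prop)
  (hal : ∀ j, j < D.J → D.sz j = r → ∀ S Y : LT Lt, Comp D L j S Y → al S.shape)
include hr1 hsz hal

private lemma c2 : ∀ C : LT Lt, LT.Cl C L → Ok D C → (¬ ∃ j, IsB D r C j) → Ti D r C →
    (Sg D r (fun _ => True) C).card ≤ Rn r al C.shape := by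
  intro C
  induction C with
  | leaf x =>
    intro _ _ hn _
    have : Sg D r (fun _ => True) (LT.leaf x) = ∅ := by
      rw [Finset.eq_empty_iff_forall_notMem]
      intro j hj
      obtain ⟨_, S, hS, hB⟩ := mem_Sg.1 hj
      cases hS
      exact hn ⟨j, hB⟩
    rw [this]
    exact Nat.zero_le _
  | node A B ihA ihB =>
    intro hCl hok hn hT
    by_cases hz : A.shape.lv < r ∧ B.shape.lv < r
    · rw [Sg_node hok hn, Sg_small hz.1, Sg_small hz.2]
      exact Nat.zero_le _
    obtain ⟨hTA, hTB⟩ := ti_node hr1 hsz hok hn hT hz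
    have hclA : LT.Cl A L := r7_cl_trans (LT.Cl.left _ (LT.Cl.refl _)) hCl
    have hclB : LT.Cl B L := r7_cl_trans (LT.Cl.right _ (LT.Cl.refl _)) hCl
    have hokA : Ok D A := ok_of_cl (LT.Cl.left _ (LT.Cl.refl _)) hok
    have hokB : Ok D B := ok_of_cl (LT.Cl.right _ (LT.Cl.refl _)) hok
    have hnd := hok.1
    simp only [LT.leaves] at hnd
    have hdis := (List.nodup_append.1 hnd).2.2
    obtain ⟨x, hx, y, hy, hxy⟩ := hok.2.2 A B (LT.Cl.refl _)
    have hcard := Sg_node (Q := fun _ => True) hok hn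
    show _ ≤ Rn r al (BT.node A.shape B.shape)
    rw [Rn, hcard]
    by_cases hA : ∃ j, IsB D r A j
    · obtain ⟨j, hj⟩ := hA
      have hm := sib_mark hj (fun x hx hx' => hdis x hx x hx' rfl) hokB.2.1 ⟨x, hx, y, hy, Or.inl hxy⟩
      have hbig := sib_big hr1 hm hTB
      have hBn : ¬ ∃ j, IsB D r B j := by
        rintro ⟨k, hk⟩
        have := isB_mrk hk
        omega
      have h1 := ihB hclB hokB hBn hTB
      have hal' : al A.shape := hal j hj.1 hj.2.1 A B ⟨hj.2.2, Or.inl hCl⟩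
      rw [if_pos (Or.inl ⟨⟨isB_len hj, hal'⟩, hbig⟩), Sg_isB hj, if_pos trivial,
        Finset.card_singleton]
      omega
    · by_cases hB : ∃ j, IsB D r B j
      · obtain ⟨j, hj⟩ := hB
        have hm := sib_mark hj (fun x hx hx' => hdis x hx' x hx rfl) hokA.2.1 ⟨y, hy, x, hx, Or.inr hxy⟩
        have hbig := sib_big hr1 hm hTA
        have h1 := ihA hclA hokA hA hTA
        have hal' : al B.shape := hal j hj.1 hj.2.1 B A ⟨hj.2.2, Or.inr hCl⟩
        rw [if_pos (Or.inr ⟨⟨isB_len hj, hal'⟩, hbig⟩), Sg_isB hj, if_pos trivial,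
          Finset.card_singleton]
        omega
      · have h1 := ihA hclA hokA hA hTA
        have h2 := ihB hclB hokB hB hTB
        omega

private lemma c3 (m : ℕ) (hm : 2 ≤ m) (Per : ℕ → Prop)
    (hper : ∀ j, j < D.J → D.sz j = r → Per j → ∀ S Y : LT Lt, Comp D L j S Y →
      ¬ m ∣ (Y.leaves.filter Lt.isMark).length) :
    ∀ C : LT Lt, LT.Cl C L → Ok D C → (¬ ∃ j, IsB D r C j) → Ti D r C →
    (Sg D r (fun _ => True) C).card = Rn r al C.shape →
    (Sg D r Per C).card + Kn r al m C.shape ≤ Rn r al C.shape := by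
  intro C
  induction C with
  | leaf x =>
    intro _ _ hn _ _
    have : Sg D r Per (LT.leaf x) = ∅ := by
      rw [Finset.eq_empty_iff_forall_notMem]
      intro j hj
      obtain ⟨_, S, hS, hB⟩ := mem_Sg.1 hj
      cases hS
      exact hn ⟨j, hB⟩
    rw [this]
    show Finset.card ∅ + Kn r al m BT.leaf ≤ _
    rw [Kn]
    exact Nat.zero_le _
  | node A B ihA ihB =>
    intro hCl hok hn hT hR
    have hT' := hT
    by_cases hz : A.shape.lv < r ∧ B.shape.lv < r
    · rw [Sg_node hok hn, Sg_small hz.1, Sg_small hz.2]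
      show _ + _ + Kn r al m (BT.node A.shape B.shape) ≤ _
      rw [Kn, Kn_zero hr1 al m hz.1.le, Kn_zero hr1 al m hz.2.le, if_neg]
      · exact Nat.zero_le _
      · rintro (⟨_, h2, _⟩ | ⟨_, h2, _⟩) <;> omega
    obtain ⟨hTA, hTB⟩ := ti_node hr1 hsz hok hn hT hz
    have hclA : LT.Cl A L := r7_cl_trans (LT.Cl.left _ (LT.Cl.refl _)) hCl
    have hclB : LT.Cl B L := r7_cl_trans (LT.Cl.right _ (LT.Cl.refl _)) hCl
    have hokA : Ok D A := ok_of_cl (LT.Cl.left _ (LT.Cl.refl _)) hok
    have hokB : Ok D B := ok_of_cl (LT.Cl.right _ (LT.Cl.refl _)) hok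
    have hnd := hok.1
    simp only [LT.leaves] at hnd
    have hdis := (List.nodup_append.1 hnd).2.2
    obtain ⟨x, hx, y, hy, hxy⟩ := hok.2.2 A B (LT.Cl.refl _)
    have hcard := Sg_node (Q := fun _ => True) hok hn
    have hcardP := Sg_node (Q := Per) hok hn
    have hR' : (Sg D r (fun _ => True) (LT.node A B)).card = Rn r al (BT.node A.shape B.shape) := hR
    rw [hcard, Rn] at hR'
    show _ + Kn r al m (BT.node A.shape B.shape) ≤ Rn r al (BT.node A.shape B.shape)
    rw [Rn, Kn, hcardP]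
    by_cases hA : ∃ j, IsB D r A j
    · obtain ⟨j, hj⟩ := hA
      have hmk := sib_mark hj (fun x hx hx' => hdis x hx x hx' rfl) hokB.2.1 ⟨x, hx, y, hy, Or.inl hxy⟩
      have hbig := sib_big hr1 hmk hTB
      have hBn : ¬ ∃ j, IsB D r B j := by
        rintro ⟨k, hk⟩
        have := isB_mrk hk
        omega
      have hal' : al A.shape := hal j hj.1 hj.2.1 A B ⟨hj.2.2, Or.inl hCl⟩
      have hAr := isB_len hj
      have hinc : (Aliv r al A.shape ∧ r ≤ B.shape.lv) ∨ (Aliv r al B.shape ∧ r ≤ A.shape.lv) :=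
        Or.inl ⟨⟨hAr, hal'⟩, hbig⟩
      rw [if_pos hinc, Sg_isB hj, if_pos trivial,
        Finset.card_singleton, Rn_zero hr1 al hAr.le] at hR'
      have hRB : (Sg D r (fun _ => True) B).card = Rn r al B.shape := by omega
      have h1 := ihB hclB hokB hBn hTB hRB
      have hmkB : mk r al B.shape = mrk B := by
        unfold mk
        unfold Ti at hTB
        omega
      have hmkA : mk r al A.shape = 1 := by
        unfold mk
        rw [cge_one hr1 hAr, Rn_zero hr1 al hAr.le]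
      rw [if_pos hinc, Sg_isB hj, Rn_zero hr1 al hAr.le,
        Kn_zero hr1 al m hAr.le]
      by_cases hP : Per j
      · have hkn : ¬ ((Aliv r al A.shape ∧ r ≤ B.shape.lv ∧ m ∣ mk r al B.shape) ∨
            (Aliv r al B.shape ∧ r ≤ A.shape.lv ∧ m ∣ mk r al A.shape)) := by
          rintro (⟨_, _, h3⟩ | ⟨_, _, h3⟩)
          · rw [hmkB] at h3
            exact hper j hj.1 hj.2.1 hP A B ⟨hj.2.2, Or.inl hCl⟩ h3
          · rw [hmkA] at h3
            have := Nat.le_of_dvd one_pos h3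
            omega
        rw [if_pos hP, Finset.card_singleton, if_neg hkn]
        omega
      · rw [if_neg hP, Finset.card_empty]
        split_ifs <;> omega
    · by_cases hB : ∃ j, IsB D r B j
      · obtain ⟨j, hj⟩ := hB
        have hmk := sib_mark hj (fun x hx hx' => hdis x hx' x hx rfl) hokA.2.1 ⟨y, hy, x, hx, Or.inr hxy⟩
        have hbig := sib_big hr1 hmk hTA
        have hal' : al B.shape := hal j hj.1 hj.2.1 B A ⟨hj.2.2, Or.inr hCl⟩
        have hBr := isB_len hj
        have hinc : (Aliv r al A.shape ∧ r ≤ B.shape.lv) ∨ (Aliv r al B.shape ∧ r ≤ A.shape.lv) :=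
          Or.inr ⟨⟨hBr, hal'⟩, hbig⟩
        rw [if_pos hinc, Sg_isB hj, if_pos trivial,
          Finset.card_singleton, Rn_zero hr1 al hBr.le] at hR'
        have hRA : (Sg D r (fun _ => True) A).card = Rn r al A.shape := by omega
        have h1 := ihA hclA hokA hA hTA hRA
        have hmkA : mk r al A.shape = mrk A := by
          unfold mk
          unfold Ti at hTA
          omega
        have hmkB : mk r al B.shape = 1 := by
          unfold mk
          rw [cge_one hr1 hBr, Rn_zero hr1 al hBr.le]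
        rw [if_pos hinc, Sg_isB hj, Rn_zero hr1 al hBr.le,
          Kn_zero hr1 al m hBr.le]
        by_cases hP : Per j
        · have hkn : ¬ ((Aliv r al A.shape ∧ r ≤ B.shape.lv ∧ m ∣ mk r al B.shape) ∨
              (Aliv r al B.shape ∧ r ≤ A.shape.lv ∧ m ∣ mk r al A.shape)) := by
            rintro (⟨_, _, h3⟩ | ⟨_, _, h3⟩)
            · rw [hmkB] at h3
              have := Nat.le_of_dvd one_pos h3
              omega
            · rw [hmkA] at h3
              exact hper j hj.1 hj.2.1 hP B A ⟨hj.2.2, Or.inr hCl⟩ h3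
          rw [if_pos hP, Finset.card_singleton, if_neg hkn]
          omega
        · rw [if_neg hP, Finset.card_empty]
          split_ifs <;> omega
      · have h1 := c2 hr1 hsz al hal A hclA hokA hA hTA
        have h2 := c2 hr1 hsz al hal B hclB hokB hB hTB
        have hinc : ¬ ((Aliv r al A.shape ∧ r ≤ B.shape.lv) ∨ (Aliv r al B.shape ∧ r ≤ A.shape.lv)) := by
          intro hc
          rw [if_pos hc] at hR'
          omega
        rw [if_neg hinc] at hR'
        have h3 := ihA hclA hokA hA hTA (by omega)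
        have h4 := ihB hclB hokB hB hTB (by omega)
        rw [if_neg hinc, if_neg]
        · omega
        · rintro (⟨h5, h6, _⟩ | ⟨h5, h6, _⟩)
          · exact hinc (Or.inl ⟨h5, h6⟩)
          · exact hinc (Or.inr ⟨h5, h6⟩)

end main

section R7
variable (D : Dat K) (L : LT Lt) (hp : L.leaves.Perm D.all)
  (hg : ∀ P Q : LT Lt, LT.Cl (LT.node P Q) L → ∃ x ∈ P.leaves, ∃ y ∈ Q.leaves, Lt.nc x y)
  (r : ℕ) (hr1 : 1 ≤ r) (hr : r < L.shape.lv) (hsz : ∀ j, j < D.J → 1 ≤ D.sz j ∧ D.sz j ≤ r)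
include hp hg

private lemma r7_ok : Ok D L :=
  ⟨hp.nodup_iff.2 (r7_all_nodup D), fun _ hx => hp.mem_iff.1 hx, hg⟩

omit hg in
private lemma r7_mrk : mrk L = D.N := by
  unfold mrk
  rw [(hp.filter Lt.isMark).length_eq]
  unfold Dat.all Dat.marks
  rw [List.filter_append, List.length_append]
  have h1 : ((List.range D.N).map Lt.mark).filter Lt.isMark = (List.range D.N).map Lt.mark := by
    rw [List.filter_eq_self]
    intro x hx
    obtain ⟨i, _, rfl⟩ := List.mem_map.1 hx
    rfl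
  have h2 : ((List.range D.J).flatMap (fun j => (List.range (D.sz j)).map (Lt.bl j))).filter Lt.isMark = [] := by
    rw [List.filter_eq_nil_iff]
    intro x hx
    obtain ⟨j, _, hx⟩ := List.mem_flatMap.1 hx
    obtain ⟨i, _, rfl⟩ := List.mem_map.1 hx
    simp [Lt.isMark]
  rw [h1, h2, List.length_map, List.length_range, List.length_nil, add_zero]

include hr1 hr hsz

omit hp hg hr1 hr hsz in
private lemma r7_card (p : ℕ → Prop) [DecidablePred p] :
    ((Finset.range D.J).filter p).card = ((List.range D.J).filter (fun j => p j)).length := rfl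

omit hp hg hr1 hr hsz in
private lemma r7_Sg_le : (Sg D r (fun _ => True) L).card ≤ sp D r := by
  unfold sp
  rw [← r7_card]
  apply Finset.card_le_card
  intro j hj
  obtain ⟨_, S, _, hB⟩ := mem_Sg.1 hj
  exact Finset.mem_filter.2 ⟨Finset.mem_range.2 hB.1, hB.2.1⟩

omit hp hg hr1 hsz in
private lemma r7_notB : ¬ ∃ j, IsB D r L j := by
  rintro ⟨j, hj⟩
  have := isB_len hj
  omega

/-- R7a -/
theorem count1 : cge r L.shape ≤ D.N + sp D r := by
  have h1 := c1 hr1 hsz L (r7_ok D L hp hg)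
  rw [r7_mrk D L hp] at h1
  have h2 := r7_Sg_le D L r
  omega

omit hr in
private lemma r7_tight (heq : cge r L.shape = D.N + sp D r) :
    Ti D r L ∧ (Sg D r (fun _ => True) L).card = sp D r := by
  have h1 := c1 hr1 hsz L (r7_ok D L hp hg)
  have h2 := r7_Sg_le D L r
  have h3 := r7_mrk D L hp
  rw [h3] at h1
  have h4 : (Sg D r (fun _ => True) L).card = sp D r := by omega
  refine ⟨?_, h4⟩
  unfold Ti
  rw [h3, h4, heq]

/-- R7b -/
theorem count2 (heq : cge r L.shape = D.N + sp D r) (al : BT → Prop)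
    (hal : ∀ j, j < D.J → D.sz j = r → ∀ S Y : LT Lt, Comp D L j S Y → al S.shape) :
    sp D r ≤ Rn r al L.shape := by
  obtain ⟨h1, h2⟩ := r7_tight D L hp hg r hr1 hsz heq
  rw [← h2]
  exact c2 hr1 hsz al hal L (LT.Cl.refl _) (r7_ok D L hp hg) (r7_notB D L r hr) h1

/-- R7c -/
theorem count3 (heq : cge r L.shape = D.N + sp D r) (al : BT → Prop)
    (hal : ∀ j, j < D.J → D.sz j = r → ∀ S Y : LT Lt, Comp D L j S Y → al S.shape)
    (hR : sp D r = Rn r al L.shape) (m : ℕ) (hm : 2 ≤ m) (Per : ℕ → Prop) [DecidablePred Per]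
    (hper : ∀ j, j < D.J → D.sz j = r → Per j → ∀ S Y : LT Lt, Comp D L j S Y →
      ¬ m ∣ (Y.leaves.filter Lt.isMark).length) :
    ((List.range D.J).filter (fun j => D.sz j = r ∧ Per j)).length + Kn r al m L.shape ≤
      Rn r al L.shape := by
  obtain ⟨h1, h2⟩ := r7_tight D L hp hg r hr1 hsz heq
  have h3 := c3 hr1 hsz al hal m hm Per hper L (LT.Cl.refl _) (r7_ok D L hp hg)
    (r7_notB D L r hr) h1 (h2.trans hR)
  have h4 : ((List.range D.J).filter (fun j => D.sz j = r ∧ Per j)).length ≤ (Sg D r Per L).card := by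
    rw [← r7_card (D := D) (fun j => D.sz j = r ∧ Per j)]
    apply Finset.card_le_card
    intro j hj
    obtain ⟨hjJ, hjr, hjP⟩ := Finset.mem_filter.1 hj
    have hall : Sg D r (fun _ => True) L = (Finset.range D.J).filter (fun j => D.sz j = r) := by
      apply Finset.eq_of_subset_of_card_le
      · intro k hk
        obtain ⟨_, S, _, hB⟩ := mem_Sg.1 hk
        exact Finset.mem_filter.2 ⟨Finset.mem_range.2 hB.1, hB.2.1⟩
      · rw [h2, r7_card]
        exact le_refl _
    have hk : j ∈ Sg D r (fun _ => True) L := by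
      rw [hall]; exact Finset.mem_filter.2 ⟨hjJ, hjr⟩
    exact mem_Sg.2 ⟨hjP, (mem_Sg.1 hk).2⟩
  omega
end R7

end Pool.Agent.BK
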