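import Pool.Agent.BK.Sig

/-! R8: the saturated marked tree. -/

namespace Pool.Agent.BK

open Pool.Agent.H25

section R8
variable (r : ℕ) (al : BT → Prop)

/-- no clade with at least `r` leaves in a smaller tree -/
theorem cge_small : ∀ s : BT, s.lv < r → cge r s = 0
  | BT.leaf, h => by
    rw [BT.lv] at h
    rw [cge, if_neg (by omega)]
  | BT.node a b, h => by
    rw [BT.lv] at h
    have ha := BT.lv_pos a
    have hb := BT.lv_pos b
    rw [cge, cge_small a (by omega), cge_small b (by omega), if_pos rfl, if_neg (by omega)]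

/-- exactly one minimal clade if there are exactly `r` leaves -/
theorem cge_eq_one : ∀ s : BT, s.lv = r → cge r s = 1
  | BT.leaf, h => by
    rw [BT.lv] at h
    rw [cge, if_pos (by omega)]
  | BT.node a b, h => by
    rw [BT.lv] at h
    have ha := BT.lv_pos a
    have hb := BT.lv_pos b
    rw [cge, cge_small r a (by omega), cge_small r b (by omega), if_pos rfl, if_pos (by omega)]

/-- at least one minimal clade if there are at least `r` leaves -/
theorem cge_pos : ∀ s : BT, r ≤ s.lv → 1 ≤ cge r s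
  | BT.leaf, h => by
    rw [BT.lv] at h
    rw [cge, if_pos h]
  | BT.node a b, h => by
    rw [BT.lv] at h
    rw [cge]
    by_cases h0 : cge r a + cge r b = 0
    · rw [if_pos h0, if_pos h]
    · rw [if_neg h0]
      omega

theorem cge_node {a b : BT} (h : r ≤ a.lv ∨ r ≤ b.lv) :
    cge r (BT.node a b) = cge r a + cge r b := by
  rw [cge, if_neg]
  rcases h with h | h
  · have := cge_pos r a h
    omega
  · have := cge_pos r b h
    omega

/-- no alive object in a tree with at most `r` leaves -/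
theorem Rn_small : ∀ s : BT, s.lv ≤ r → Rn r al s = 0
  | BT.leaf, _ => by rw [Rn]
  | BT.node a b, h => by
    rw [BT.lv] at h
    have ha := BT.lv_pos a
    have hb := BT.lv_pos b
    rw [Rn, Rn_small a (by omega), Rn_small b (by omega), if_neg]
    rintro (⟨⟨h1, _⟩, _⟩ | ⟨⟨h1, _⟩, _⟩) <;> omega

theorem Kn_small (m : ℕ) : ∀ s : BT, s.lv ≤ r → Kn r al m s = 0
  | BT.leaf, _ => by rw [Kn]
  | BT.node a b, h => by
    rw [BT.lv] at h
    have ha := BT.lv_pos a
    have hb := BT.lv_pos b
    rw [Kn, Kn_small m a (by omega), Kn_small m b (by omega), if_neg]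
    rintro (⟨⟨h1, _⟩, _⟩ | ⟨⟨h1, _⟩, _⟩) <;> omega

end R8

/-- the five cases of a node -/
theorem mt_cases (r : ℕ) (al : BT → Prop) (a b : BT) :
    (r ≤ a.lv ∧ r ≤ b.lv ∧ Aliv r al a ∧ mt r al (BT.node a b) = MT.hang (mt r al b) a) ∨
    (r ≤ a.lv ∧ r ≤ b.lv ∧ ¬ Aliv r al a ∧ Aliv r al b ∧
      mt r al (BT.node a b) = MT.hang (mt r al a) b) ∨
    (r ≤ a.lv ∧ r ≤ b.lv ∧ ¬ Aliv r al a ∧ ¬ Aliv r al b ∧
      mt r al (BT.node a b) = MT.node (mt r al a) (mt r al b)) ∨
    (a.lv < r ∧ r ≤ b.lv ∧ mt r al (BT.node a b) = MT.hang (mt r al b) a) ∨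
    (b.lv < r ∧ mt r al (BT.node a b) = MT.hang (mt r al a) b) := by
  by_cases hb : r ≤ b.lv
  · by_cases ha : r ≤ a.lv
    · by_cases h1 : Aliv r al a
      · refine Or.inl ⟨ha, hb, h1, ?_⟩
        rw [mt, if_pos ⟨ha, hb⟩, if_pos h1]
      · by_cases h2 : Aliv r al b
        · refine Or.inr (Or.inl ⟨ha, hb, h1, h2, ?_⟩)
          rw [mt, if_pos ⟨ha, hb⟩, if_neg h1, if_pos h2]
        · refine Or.inr (Or.inr (Or.inl ⟨ha, hb, h1, h2, ?_⟩))
          rw [mt, if_pos ⟨ha, hb⟩, if_neg h1, if_neg h2]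
    · refine Or.inr (Or.inr (Or.inr (Or.inl ⟨not_le.1 ha, hb, ?_⟩)))
      rw [mt, if_neg (fun h => ha h.1), if_pos hb]
  · refine Or.inr (Or.inr (Or.inr (Or.inr ⟨not_le.1 hb, ?_⟩)))
    rw [mt, if_neg (fun h => hb h.2), if_neg hb]

/-- R8 -/
theorem mt_shape (r : ℕ) (al : BT → Prop) (s : BT) : BT.Iso (mt r al s).shape s := by
  induction s with
  | leaf => rw [mt, MT.shape]; exact BT.Iso.leaf
  | node a b iha ihb =>
    rcases mt_cases r al a b with ⟨_, _, _, h⟩ | ⟨_, _, _, _, h⟩ | ⟨_, _, _, _, h⟩ | ⟨_, _, h⟩ |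
      ⟨_, h⟩
    · rw [h, MT.shape]; exact BT.Iso.swap ihb (BT.Iso.refl a)
    · rw [h, MT.shape]; exact BT.Iso.node iha (BT.Iso.refl b)
    · rw [h, MT.shape]; exact BT.Iso.node iha ihb
    · rw [h, MT.shape]; exact BT.Iso.swap ihb (BT.Iso.refl a)
    · rw [h, MT.shape]; exact BT.Iso.node iha (BT.Iso.refl b)

theorem mt_marks_small (r : ℕ) (hr : 1 ≤ r) (al : BT → Prop) (s : BT) (h : s.lv < r) :
    (mt r al s).marks = 1 := by
  induction s with
  | leaf => rw [mt, MT.marks]
  | node a b iha ihb =>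
    rw [BT.lv] at h
    have ha := BT.lv_pos a
    have hb := BT.lv_pos b
    rcases mt_cases r al a b with ⟨_, _, _, h'⟩ | ⟨_, _, _, _, h'⟩ | ⟨_, _, _, _, h'⟩ |
      ⟨_, _, h'⟩ | ⟨_, h'⟩
    · omega
    · omega
    · omega
    · omega
    · rw [h', MT.marks]
      exact iha (by omega)

theorem mt_marks (r : ℕ) (hr : 1 ≤ r) (al : BT → Prop) (s : BT) (h : r ≤ s.lv) :
    (mt r al s).marks + Rn r al s = cge r s := by
  induction s with
  | leaf =>
    rw [BT.lv] at h
    rw [mt, MT.marks, Rn, cge, if_pos h]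
  | node a b iha ihb =>
    have hs := h
    rw [BT.lv] at h
    have ha := BT.lv_pos a
    have hb := BT.lv_pos b
    rcases mt_cases r al a b with ⟨h1, h2, h3, h'⟩ | ⟨h1, h2, h3, h4, h'⟩ | ⟨h1, h2, h3, h4, h'⟩ |
      ⟨h1, h2, h'⟩ | ⟨h1, h'⟩
    · rw [h', MT.marks, Rn, if_pos (Or.inl ⟨h3, h2⟩), cge_node r (Or.inl h1),
        cge_eq_one r a h3.1, Rn_small r al a h3.1.le]
      have := ihb h2
      omega
    · rw [h', MT.marks, Rn, if_pos (Or.inr ⟨h4, h1⟩), cge_node r (Or.inl h1),
        cge_eq_one r b h4.1, Rn_small r al b h4.1.le]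
      have := iha h1
      omega
    · rw [h', MT.marks, Rn, if_neg (by rintro (⟨h5, _⟩ | ⟨h5, _⟩) <;> contradiction),
        cge_node r (Or.inl h1)]
      have := iha h1
      have := ihb h2
      omega
    · rw [h', MT.marks, Rn, if_neg (by rintro (⟨⟨h5, _⟩, _⟩ | ⟨_, h5⟩) <;> omega),
        cge_node r (Or.inr h2), cge_small r a h1, Rn_small r al a h1.le]
      have := ihb h2
      omega
    · rw [h', MT.marks, Rn, if_neg (by rintro (⟨_, h5⟩ | ⟨⟨h5, _⟩, _⟩) <;> omega),
        Rn_small r al b h1.le]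
      by_cases h6 : r ≤ a.lv
      · rw [cge_node r (Or.inl h6), cge_small r b h1]
        have := iha h6
        omega
      · rw [mt_marks_small r hr al a (by omega), Rn_small r al a (by omega), cge,
          cge_small r a (by omega), cge_small r b h1, if_pos rfl, if_pos h]

theorem marks_pos (M : MT) : 1 ≤ M.marks := by
  induction M with
  | mark => rw [MT.marks]
  | node a b iha ihb => rw [MT.marks]; omega
  | hang a s ih => rw [MT.marks]; exact ih

theorem mk_eq (r : ℕ) (hr : 1 ≤ r) (al : BT → Prop) (s : BT) (h : r ≤ s.lv) :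
    mk r al s = (mt r al s).marks := by
  have := mt_marks r hr al s h
  rw [mk]
  omega

theorem mt_hangs (r : ℕ) (hr : 1 ≤ r) (al : BT → Prop) (s : BT) :
    ∀ h ∈ (mt r al s).hangs, (h.1.lv < r ∨ Aliv r al h.1) ∧ 1 ≤ h.2 := by
  induction s with
  | leaf =>
    intro h hh
    rw [mt, MT.hangs] at hh
    exact absurd hh List.not_mem_nil
  | node a b iha ihb =>
    intro h hh
    rcases mt_cases r al a b with ⟨h1, h2, h3, h'⟩ | ⟨h1, h2, h3, h4, h'⟩ | ⟨h1, h2, h3, h4, h'⟩ |
      ⟨h1, h2, h'⟩ | ⟨h1, h'⟩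
    · rw [h', MT.hangs, List.mem_append, List.mem_singleton] at hh
      rcases hh with hh | rfl
      · exact ihb h hh
      · exact ⟨Or.inr h3, marks_pos _⟩
    · rw [h', MT.hangs, List.mem_append, List.mem_singleton] at hh
      rcases hh with hh | rfl
      · exact iha h hh
      · exact ⟨Or.inr h4, marks_pos _⟩
    · rw [h', MT.hangs, List.mem_append] at hh
      rcases hh with hh | hh
      · exact iha h hh
      · exact ihb h hh
    · rw [h', MT.hangs, List.mem_append, List.mem_singleton] at hh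
      rcases hh with hh | rfl
      · exact ihb h hh
      · exact ⟨Or.inl h1, marks_pos _⟩
    · rw [h', MT.hangs, List.mem_append, List.mem_singleton] at hh
      rcases hh with hh | rfl
      · exact iha h hh
      · exact ⟨Or.inl h1, marks_pos _⟩

theorem mt_Rn (r : ℕ) (hr : 1 ≤ r) (al : BT → Prop) (s : BT) :
    ((mt r al s).hangs.filter (fun h => h.1.lv = r)).length = Rn r al s := by
  induction s with
  | leaf =>
    rw [mt, MT.hangs, Rn]
    rfl
  | node a b iha ihb =>
    rcases mt_cases r al a b with ⟨h1, h2, h3, h'⟩ | ⟨h1, h2, h3, h4, h'⟩ | ⟨h1, h2, h3, h4, h'⟩ |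
      ⟨h1, h2, h'⟩ | ⟨h1, h'⟩
    · rw [h', MT.hangs, List.filter_append, List.length_append, ihb, Rn,
        if_pos (Or.inl ⟨h3, h2⟩), Rn_small r al a h3.1.le, List.filter_cons_of_pos (by simpa using h3.1)]
      simp
    · rw [h', MT.hangs, List.filter_append, List.length_append, iha, Rn,
        if_pos (Or.inr ⟨h4, h1⟩), Rn_small r al b h4.1.le, List.filter_cons_of_pos (by simpa using h4.1)]
      simp
    · rw [h', MT.hangs, List.filter_append, List.length_append, iha, ihb, Rn,
        if_neg (by rintro (⟨h5, _⟩ | ⟨h5, _⟩) <;> contradiction)]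
      omega
    · rw [h', MT.hangs, List.filter_append, List.length_append, ihb, Rn,
        if_neg (by rintro (⟨⟨h5, _⟩, _⟩ | ⟨_, h5⟩) <;> omega), Rn_small r al a h1.le,
        List.filter_cons_of_neg (by simpa using h1.ne)]
      simp
    · rw [h', MT.hangs, List.filter_append, List.length_append, iha, Rn,
        if_neg (by rintro (⟨_, h5⟩ | ⟨⟨h5, _⟩, _⟩) <;> omega), Rn_small r al b h1.le,
        List.filter_cons_of_neg (by simpa using h1.ne)]
      simp

theorem mt_Kn (r : ℕ) (hr : 1 ≤ r) (al : BT → Prop) (m : ℕ) (hm : 2 ≤ m) (s : BT) :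
    ((mt r al s).hangs.filter (fun h => h.1.lv = r ∧ m ∣ h.2)).length = Kn r al m s := by
  induction s with
  | leaf =>
    rw [mt, MT.hangs, Kn]
    rfl
  | node a b iha ihb =>
    rcases mt_cases r al a b with ⟨h1, h2, h3, h'⟩ | ⟨h1, h2, h3, h4, h'⟩ | ⟨h1, h2, h3, h4, h'⟩ |
      ⟨h1, h2, h'⟩ | ⟨h1, h'⟩
    · rw [h', MT.hangs, List.filter_append, List.length_append, ihb, Kn,
        Kn_small r al m a h3.1.le]
      by_cases hd : m ∣ (mt r al b).marks
      · rw [if_pos (Or.inl ⟨h3, h2, by rwa [mk_eq r hr al b h2]⟩),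
          List.filter_cons_of_pos (by simpa using ⟨h3.1, hd⟩)]
        simp
      · rw [if_neg, List.filter_cons_of_neg (by simpa using fun _ => hd)]
        · simp
        · rintro (⟨_, _, h5⟩ | ⟨_, _, h5⟩)
          · rw [mk_eq r hr al b h2] at h5
            exact hd h5
          · rw [mk, cge_eq_one r a h3.1, Rn_small r al a h3.1.le] at h5
            have := Nat.le_of_dvd (by norm_num) h5
            omega
    · rw [h', MT.hangs, List.filter_append, List.length_append, iha, Kn,
        Kn_small r al m b h4.1.le]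
      by_cases hd : m ∣ (mt r al a).marks
      · rw [if_pos (Or.inr ⟨h4, h1, by rwa [mk_eq r hr al a h1]⟩),
          List.filter_cons_of_pos (by simpa using ⟨h4.1, hd⟩)]
        simp
      · rw [if_neg, List.filter_cons_of_neg (by simpa using fun _ => hd)]
        · simp
        · rintro (⟨h5, _, _⟩ | ⟨_, _, h5⟩)
          · exact h3 h5
          · rw [mk_eq r hr al a h1] at h5
            exact hd h5
    · rw [h', MT.hangs, List.filter_append, List.length_append, iha, ihb, Kn,
        if_neg (by rintro (⟨h5, _⟩ | ⟨h5, _⟩) <;> contradiction)]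
      omega
    · rw [h', MT.hangs, List.filter_append, List.length_append, ihb, Kn,
        if_neg (by rintro (⟨⟨h5, _⟩, _⟩ | ⟨_, h5, _⟩) <;> omega), Kn_small r al m a h1.le,
        List.filter_cons_of_neg (by simpa using fun h => absurd h h1.ne)]
      simp
    · rw [h', MT.hangs, List.filter_append, List.length_append, iha, Kn,
        if_neg (by rintro (⟨_, h5, _⟩ | ⟨⟨h5, _⟩, _⟩) <;> omega), Kn_small r al m b h1.le,
        List.filter_cons_of_neg (by simpa using fun h => absurd h h1.ne)]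
      simp

end Pool.Agent.BK
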