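import Pool.Agent.BK.Sig

/-! Board BK, row R9: functionals -/

namespace Pool.Agent.BK

open Pool.Agent.H25

section
variable {K : Type*} [Field K]

private noncomputable def r9W (K : Type*) [Field K] (f : ℕ → ℕ) (w : List ℕ) : TT K :=
  wd (FreeMonoid.ofList (w.map (fun i => (f i, 0))))

private lemma r9W_app (f : ℕ → ℕ) (p q : List ℕ) : r9W K f (p ++ q) = r9W K f p * r9W K f q := by
  unfold r9W
  rw [List.map_append, FreeMonoid.ofList_append, wd_mul]

private noncomputable def r9M (K : Type*) [Field K] (f : ℕ → ℕ) : LT ℕ → TT K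
  | LT.leaf x => wd (FreeMonoid.of (f x, 0))
  | LT.node a b => r9M K f a * r9M K f b - r9M K f b * r9M K f a

private lemma r9_val (f : ℕ → ℕ) : ∀ (S : LT ℕ) (l : TT K →ₗ[K] K),
    S.val (fun w => l (r9W K f w)) = l (r9M K f S)
  | LT.leaf _, _ => rfl
  | LT.node a b, l => by
    have h1 : a.val (fun p => b.val (fun q => l (r9W K f (p ++ q)))) = l (r9M K f a * r9M K f b) := by
      have h : ∀ p, b.val (fun q => l (r9W K f (p ++ q))) =
          (l ∘ₗ LinearMap.mulRight K (r9M K f b)) (r9W K f p) := by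
        intro p
        have := r9_val f b (l ∘ₗ LinearMap.mulLeft K (r9W K f p))
        simp only [LinearMap.comp_apply, LinearMap.mulLeft_apply] at this
        simp only [r9W_app]
        rw [this]
        rfl
      simp only [h]
      rw [r9_val f a]
      rfl
    have h2 : b.val (fun q => a.val (fun p => l (r9W K f (q ++ p)))) = l (r9M K f b * r9M K f a) := by
      have h : ∀ p, a.val (fun q => l (r9W K f (p ++ q))) =
          (l ∘ₗ LinearMap.mulRight K (r9M K f a)) (r9W K f p) := by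
        intro p
        have := r9_val f a (l ∘ₗ LinearMap.mulLeft K (r9W K f p))
        simp only [LinearMap.comp_apply, LinearMap.mulLeft_apply] at this
        simp only [r9W_app]
        rw [this]
        rfl
      simp only [h]
      rw [r9_val f b]
      rfl
    rw [LT.val, h1, h2, r9M, map_sub]

private lemma r9_mem (f : ℕ → ℕ) : ∀ S : LT ℕ, r9M K f S ∈ X0 K S.shape
  | LT.leaf x => by
    rw [r9M, LT.shape, X0]
    exact letter_mem_V1 _ _
  | LT.node a b => by
    rw [r9M, LT.shape, X0]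
    exact mem_br (r9_mem f a) (r9_mem f b)

private def r9L : BT → ℕ → LT ℕ
  | BT.leaf, c => LT.leaf c
  | BT.node a b, c => LT.node (r9L a c) (r9L b (c + a.lv))

private lemma r9L_shape : ∀ (s : BT) (c : ℕ), (r9L s c).shape = s
  | BT.leaf, _ => rfl
  | BT.node a b, c => by rw [r9L, LT.shape, r9L_shape a, r9L_shape b]

private lemma r9L_leaves : ∀ (s : BT) (c : ℕ), (r9L s c).leaves = List.range' c s.lv
  | BT.leaf, _ => rfl
  | BT.node a b, c => by
    rw [r9L, LT.leaves, r9L_leaves a, r9L_leaves b, BT.lv, List.range'_append_1]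

private lemma r9L_M (f : ℕ → ℕ) : ∀ (s : BT) (c : ℕ), r9M K f (r9L s c) = monoT K f s c
  | BT.leaf, _ => rfl
  | BT.node a b, c => by rw [r9L, r9M, monoT, r9L_M f a, r9L_M f b]

/-- R9 -/
theorem exists_psi (P : Submodule K (TT K)) (s : BT) (h : alN P s) :
    ∃ ψ : List ℕ → K, (∃ S : LT ℕ, S.shape = s ∧ S.leaves = List.range s.lv ∧ S.val ψ ≠ 0) ∧
      ∀ S : LT ℕ, X0 K S.shape ≤ P → S.val ψ = 0 := by
  have h1 : ∃ f : ℕ → ℕ, monoT K f s 0 ∉ P := by
    by_contra hc
    push Not at hc
    apply h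
    refine (X0_le_span s 0).trans ?_
    rw [Submodule.span_le]
    rintro _ ⟨f, rfl⟩
    exact hc f
  obtain ⟨f, hf⟩ := h1
  obtain ⟨l, hl, hP⟩ := Submodule.exists_le_ker_of_notMem hf
  refine ⟨fun w => l (r9W K f w), ⟨r9L s 0, r9L_shape s 0, ?_, ?_⟩, ?_⟩
  · rw [r9L_leaves, List.range_eq_range']
  · rw [r9_val, r9L_M]
    exact hl
  · intro S hS
    rw [r9_val]
    exact LinearMap.mem_ker.1 (hP (hS (r9_mem f S)))

end

theorem exists_zeta (K : Type*) [Field K] [Infinite K] (m : ℕ) (hm : 1 ≤ m) :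
    ∃ ζ : ℕ → K, ∀ a b, ζ a = ζ b ↔ a ≡ b [MOD m] :=
  ⟨fun a => Infinite.natEmbedding K (a % m), fun a b => by
    rw [(Infinite.natEmbedding K).injective.eq_iff]
    rfl⟩

theorem exists_zeta' (K : Type*) [Field K] [Infinite K] : ∃ ζ : ℕ → K, Function.Injective ζ :=
  ⟨Infinite.natEmbedding K, (Infinite.natEmbedding K).injective⟩

end Pool.Agent.BK
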