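import Pool.Agent.BK.R1
import Pool.Agent.BK.R2
import Pool.Agent.BK.R3
import Pool.Agent.BK.R5
import Pool.Agent.BK.R6
import Pool.Agent.BK.R7
import Pool.Agent.BK.R8
import Pool.Agent.BK.R9
import Pool.Agent.BK.R11

/-! Row R10: equality of the subspaces gives equality of all additive invariants. -/

namespace Pool.Agent.BK

open Pool.Agent.H25

variable {K : Type*} [Field K]

/-- counting indices of a list by a property of the entries -/
lemma filter_range_getD {α : Type} (l : List α) (d : α) (p : α → Prop) [DecidablePred p] :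
    ((List.range l.length).filter (fun j => p (l.getD j d))).length = (l.filter (fun x => p x)).length := by
  have e : l = (List.range l.length).map (fun j => l.getD j d) := by
    apply List.ext_getElem
    · simp
    · intro i h1 h2
      simp [List.getElem_map, List.getElem_range, h1]
  conv_rhs => rw [e]
  rw [List.filter_map, List.length_map]
  rfl

/-- the number inside a block -/
def numOf : Lt → ℕ
  | Lt.mark _ => 0
  | Lt.bl _ i => i

lemma filterMap_idx {j n : ℕ} {w : List Lt} (h : w.Perm ((List.range n).map (Lt.bl j))) :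
    w.filterMap (Lt.idx j) = w.map numOf := by
  have h1 : ∀ x ∈ w, ∃ i, x = Lt.bl j i := by
    intro x hx
    have := h.mem_iff.1 hx
    rw [List.mem_map] at this
    obtain ⟨i, -, rfl⟩ := this
    exact ⟨i, rfl⟩
  clear h
  induction w with
  | nil => rfl
  | cons x w ih =>
    obtain ⟨i, rfl⟩ := h1 x (List.mem_cons_self ..)
    rw [List.filterMap_cons, ih (fun y hy => h1 y (List.mem_cons_of_mem _ hy))]
    simp [Lt.idx, numOf]

/-- the choice of the functionals -/
lemma exists_psi2 (P : Submodule K (TT K)) (s : BT) :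
    ∃ ψ : List ℕ → K, (∃ S : LT ℕ, S.shape = s ∧ S.leaves = List.range s.lv ∧ S.val ψ ≠ 0) ∧
      (alN P s → ∀ S : LT ℕ, X0 K S.shape ≤ P → S.val ψ = 0) := by
  by_cases h : alN P s
  · obtain ⟨ψ, h1, h2⟩ := exists_psi P s h
    exact ⟨ψ, h1, fun _ => h2⟩
  · have h0 : alN (⊥ : Submodule K (TT K)) s := by
      intro hle
      exact X0_ne_bot (K := K) s (le_bot_iff.1 hle)
    obtain ⟨ψ, h1, -⟩ := exists_psi ⊥ s h0
    exact ⟨ψ, h1, fun h' => absurd h' h⟩

/-- the three inequalities -/
lemma transfer [Infinite K] {s t : BT} (hle : X0 K s ≤ X0 K t) (hlv : s.lv = t.lv) (r : ℕ) (hr1 : 1 ≤ r)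
    (hr : r < s.lv) (P : Submodule K (TT K)) (m : ℕ) (hm : 2 ≤ m) :
    cge r t ≤ cge r s ∧ (cge r t = cge r s → Rn r (alN P) s ≤ Rn r (alN P) t) ∧
      (cge r t = cge r s → Rn r (alN P) s = Rn r (alN P) t →
        Kn r (alN P) m t ≤ Kn r (alN P) m s) := by
  classical
  set al : BT → Prop := alN P with hal
  set M : MT := mt r al s with hM
  obtain ⟨ζp, hζp⟩ := exists_zeta K m (by omega)
  obtain ⟨ζi, hζi⟩ := exists_zeta' K
  have hψ := fun s : BT => exists_psi2 (K := K) P s
  choose ψ0 hψ1 hψ2 using hψ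
  let hg : ℕ → BT × ℕ := fun j => M.hangs.getD j (BT.leaf, 0)
  let ψ : ℕ → List ℕ → K := fun j => ψ0 (hg j).1
  let ζ : ℕ → ℕ → K := fun j => if m ∣ (hg j).2 then ζi else ζp
  have hget : ∀ j (hj : j < M.hangs.length), hg j = M.hangs[j] := by
    intro j hj
    exact List.getD_eq_getElem _ _ hj
  have hmem : ∀ j, j < M.hangs.length → hg j ∈ M.hangs := by
    intro j hj
    rw [hget j hj]
    exact List.getElem_mem hj
  have hprop : ∀ j, j < M.hangs.length → ((hg j).1.lv < r ∨ Aliv r al (hg j).1) ∧ 1 ≤ (hg j).2 := by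
    intro j hj
    exact mt_hangs r hr1 al s _ (hmem j hj)
  obtain ⟨L, hLs, hLv⟩ := nonvan (K := K) M ψ ζ (by
      intro j hj
      obtain ⟨S, h1, h2, h3⟩ := hψ1 (hg j).1
      refine ⟨S, ?_, ?_, h3⟩
      · rw [h1, hget j hj]
      · rw [h2, hget j hj])
    (by
      intro j hj a _
      have hp := hprop j hj
      have e := hget j hj
      rw [← e]
      show (if m ∣ (hg j).2 then ζi else ζp) a ≠ (if m ∣ (hg j).2 then ζi else ζp) (a + (hg j).2)
      split_ifs with hd
      · intro h
        have := hζi h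
        omega
      · intro h
        rw [hζp] at h
        apply hd
        have h' : a + 0 ≡ a + (hg j).2 [MOD m] := by rw [Nat.add_zero]; exact h
        have := (Nat.ModEq.add_left_cancel' a h').symm
        exact (Nat.modEq_zero_iff_dvd).1 this)
  set D : Dat K := ⟨M.marks, M.hangs.length, fun j => (M.hangs.getD j (BT.leaf, 0)).1.lv, ψ, ζ⟩ with hD
  have hX : X0 K M.shape ≤ X0 K t := by
    rw [X0_iso (K := K) (mt_shape r al s)]
    exact hle
  obtain ⟨M', hM's, hM'v⟩ := bridge hX D.φ L hLs hLv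
  obtain ⟨hp, hgd⟩ := good_of_val hM'v
  have hsz : ∀ j, j < D.J → 1 ≤ D.sz j ∧ D.sz j ≤ r := by
    intro j hj
    refine ⟨(hg j).1.lv_pos, ?_⟩
    rcases (hprop j hj).1 with h | h
    · exact h.le
    · exact h.1.le
  have hsp : sp D r = Rn r al s := by
    rw [← mt_Rn r hr1 al s]
    show ((List.range M.hangs.length).filter
      (fun j => ((M.hangs.getD j (BT.leaf, 0)).1.lv = r : Prop))).length = _
    exact filter_range_getD M.hangs (BT.leaf, 0) (fun h => h.1.lv = r)
  have hmarks : D.N + sp D r = cge r s := by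
    rw [hsp]
    exact mt_marks r hr1 al s hr.le
  have hrt : r < M'.shape.lv := by rw [hM's, ← hlv]; exact hr
  have c1 := count1 D M' hp hgd r hr1 hrt hsz
  rw [hM's, hmarks] at c1
  -- the alive property
  have hcomp : ∀ j, j < D.J → D.sz j = r → ∀ S Y : LT Lt, Comp D M' j S Y →
      al S.shape ∧ ∃ a, D.ζ j a ≠ D.ζ j (a + (Y.leaves.filter Lt.isMark).length) := by
    intro j hj hjr S Y hC
    have h5 := clade_block hM'v hj (hsz j hj).1 hC.1 hC.2
    refine ⟨?_, h5.2⟩
    intro hle'
    apply h5.1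
    have hal' : alN P (hg j).1 := by
      rcases (hprop j hj).1 with h | h
      · exfalso
        have : (hg j).1.lv = r := hjr
        omega
      · exact h.2
    have h0 := hψ2 (hg j).1 hal' (S.map numOf) (by rw [shape_map]; exact hle')
    rw [val_map] at h0
    rw [← h0]
    apply val_congr
    intro w hw
    rw [filterMap_idx (hw.trans hC.1)]
  refine ⟨c1, ?_, ?_⟩
  · intro he
    have heq : cge r M'.shape = D.N + sp D r := by rw [hM's, hmarks, he]
    have c2 := count2 D M' hp hgd r hr1 hrt hsz heq al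
      (fun j hj hjr S Y hC => (hcomp j hj hjr S Y hC).1)
    rw [hsp, hM's] at c2
    exact c2
  · intro he hR
    have heq : cge r M'.shape = D.N + sp D r := by rw [hM's, hmarks, he]
    have c3 := count3 D M' hp hgd r hr1 hrt hsz heq al
      (fun j hj hjr S Y hC => (hcomp j hj hjr S Y hC).1) (by rw [hsp, hM's, hR]) m hm
      (fun j => ¬ m ∣ (hg j).2)
      (by
        intro j hj hjr hper S Y hC hdvd
        obtain ⟨a, ha⟩ := (hcomp j hj hjr S Y hC).2
        apply ha
        show (if m ∣ (hg j).2 then ζi else ζp) a = (if m ∣ (hg j).2 then ζi else ζp) _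
        rw [if_neg hper, hζp]
        have : a + 0 ≡ a + (Y.leaves.filter Lt.isMark).length [MOD m] :=
          Nat.ModEq.add_left a ((Nat.modEq_zero_iff_dvd).2 hdvd).symm
        simpa using this)
    have hKs : ((M.hangs.filter (fun h => h.1.lv = r ∧ m ∣ h.2)).length) = Kn r al m s :=
      mt_Kn r hr1 al m hm s
    have hRs : ((M.hangs.filter (fun h => h.1.lv = r)).length) = Rn r al s := mt_Rn r hr1 al s
    have hcount : ((List.range D.J).filter (fun j => D.sz j = r ∧ ¬ m ∣ (hg j).2)).length =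
        (M.hangs.filter (fun h => h.1.lv = r ∧ ¬ m ∣ h.2)).length := by
      exact filter_range_getD M.hangs (BT.leaf, 0) (fun h => h.1.lv = r ∧ ¬ m ∣ h.2)
    have hsplit : (M.hangs.filter (fun h => h.1.lv = r ∧ m ∣ h.2)).length +
        (M.hangs.filter (fun h => h.1.lv = r ∧ ¬ m ∣ h.2)).length =
        (M.hangs.filter (fun h => h.1.lv = r)).length := by
      generalize M.hangs = l
      induction l with
      | nil => rfl
      | cons x l ih =>
        simp only [List.filter_cons]
        by_cases h1 : x.1.lv = r <;> by_cases h2 : m ∣ x.2 <;> simp_all <;> omega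
    rw [hM's] at c3
    rw [hcount] at c3
    omega

/-- R10 -/
theorem eqv_of_X0 [Infinite K] {s t : BT} (h : X0 K s = X0 K t) : Eqv K s t := by
  have hlv : s.lv = t.lv := lv_eq_of_X0 h
  refine ⟨hlv, ?_⟩
  intro r hr1 hr
  have hc : cge r s = cge r t := by
    have a := (transfer h.le hlv r hr1 hr ⊤ 2 le_rfl).1
    have b := (transfer h.ge hlv.symm r hr1 (hlv ▸ hr) ⊤ 2 le_rfl).1
    omega
  refine ⟨hc, ?_⟩
  intro P
  have hR : Rn r (alN P) s = Rn r (alN P) t := by
    have a := (transfer h.le hlv r hr1 hr P 2 le_rfl).2.1 hc.symm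
    have b := (transfer h.ge hlv.symm r hr1 (hlv ▸ hr) P 2 le_rfl).2.1 hc
    omega
  refine ⟨hR, ?_⟩
  intro m hm
  have a := (transfer h.le hlv r hr1 hr P m hm).2.2 hc.symm hR
  have b := (transfer h.ge hlv.symm r hr1 (hlv ▸ hr) P m hm).2.2 hc hR.symm
  omega

end Pool.Agent.BK
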