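import Pool.Agent.BK.Sig

/-! R12: twins of at most five leaves. -/

namespace Pool.Agent.BK

open Pool.Agent.H25

namespace R12

/-- numerical data at the levels one and two with all objects alive -/
structure Dt (al : BT → Prop) (s : BT) (c k n : ℕ) : Prop where
  c2 : cge 2 s = c
  m1 : mk 1 al s = k
  k1 : Kn 1 al 2 s = n

lemma cge1 : ∀ s : BT, cge 1 s = s.lv
  | BT.leaf => by simp [cge, BT.lv]
  | BT.node a b => by
    have ha := a.lv_pos
    have hb := b.lv_pos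
    rw [cge, cge1 a, cge1 b, if_neg (by omega), BT.lv]

lemma Rn1_le (al : BT → Prop) : ∀ s : BT, Rn 1 al s + 1 ≤ s.lv
  | BT.leaf => by simp [Rn, BT.lv]
  | BT.node a b => by
    have ha := Rn1_le al a
    have hb := Rn1_le al b
    rw [Rn, BT.lv]
    split_ifs <;> omega

variable {al : BT → Prop} (hal : ∀ s, al s)
include hal

lemma aliv_leaf : Aliv 1 al BT.leaf := ⟨rfl, hal _⟩

omit hal in
lemma not_aliv {a b : BT} : ¬ Aliv 1 al (BT.node a b) := by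
  intro h
  have h1 := h.1
  have ha := a.lv_pos
  have hb := b.lv_pos
  rw [BT.lv] at h1
  omega

omit hal in
lemma dt_leaf : Dt al BT.leaf 0 1 0 := by
  refine ⟨?_, ?_, ?_⟩
  · simp [cge]
  · simp [mk, cge, Rn]
  · simp [Kn]

lemma dt_cherry : Dt al (BT.node BT.leaf BT.leaf) 1 1 0 := by
  have h := aliv_leaf hal
  refine ⟨?_, ?_, ?_⟩
  · simp [cge, BT.lv]
  · simp [mk, cge, Rn, BT.lv, h]
  · simp [mk, cge, Rn, Kn, BT.lv]

/-- leaf and a node -/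
lemma dt_ln {a b : BT} {c k n : ℕ} (hc : 0 < c) (h : Dt al (BT.node a b) c k n) :
    Dt al (BT.node BT.leaf (BT.node a b)) c k (n + if 2 ∣ k then 1 else 0) := by
  have hl := aliv_leaf hal
  have hR := Rn1_le al (BT.node a b)
  have hlv := (BT.node a b).lv_pos
  obtain ⟨h1, h2, h3⟩ := h
  refine ⟨?_, ?_, ?_⟩
  · rw [cge, h1]
    simp [cge]
    omega
  · rw [mk, cge1] at h2
    rw [mk, cge1, Rn, if_pos (Or.inl ⟨hl, hlv⟩), BT.lv, BT.lv, Rn]
    omega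
  · rw [Kn, h3, h2, Kn]
    by_cases hk : 2 ∣ k
    · rw [if_pos (Or.inl ⟨hl, hlv, hk⟩), if_pos hk]; omega
    · rw [if_neg, if_neg hk]
      · omega
      · rintro (⟨-, -, h⟩ | ⟨h, -⟩)
        · exact hk h
        · exact not_aliv h

lemma dt_nl {a b : BT} {c k n : ℕ} (hc : 0 < c) (h : Dt al (BT.node a b) c k n) :
    Dt al (BT.node (BT.node a b) BT.leaf) c k (n + if 2 ∣ k then 1 else 0) := by
  have hl := aliv_leaf hal
  have hR := Rn1_le al (BT.node a b)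
  have hlv := (BT.node a b).lv_pos
  obtain ⟨h1, h2, h3⟩ := h
  refine ⟨?_, ?_, ?_⟩
  · rw [cge, h1]
    simp [cge]
    omega
  · rw [mk, cge1] at h2
    rw [mk, cge1, Rn, if_pos (Or.inr ⟨hl, hlv⟩), BT.lv, BT.lv, Rn]
    omega
  · rw [Kn, h3, h2, Kn]
    by_cases hk : 2 ∣ k
    · rw [if_pos (Or.inr ⟨hl, hlv, hk⟩), if_pos hk]
    · have hn : ¬ ((Aliv 1 al (BT.node a b) ∧ 1 ≤ BT.leaf.lv ∧ 2 ∣ mk 1 al BT.leaf) ∨
          (Aliv 1 al BT.leaf ∧ 1 ≤ (BT.node a b).lv ∧ 2 ∣ k)) := by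
        rintro (⟨h, -⟩ | ⟨-, -, h⟩)
        · exact not_aliv h
        · exact hk h
      rw [if_neg hn, if_neg hk]

omit hal in
lemma dt_nn {a b a' b' : BT} {c k n c' k' n' : ℕ} (hc : 0 < c)
    (h : Dt al (BT.node a b) c k n) (h' : Dt al (BT.node a' b') c' k' n') :
    Dt al (BT.node (BT.node a b) (BT.node a' b')) (c + c') (k + k') (n + n') := by
  have hR := Rn1_le al (BT.node a b)
  have hR' := Rn1_le al (BT.node a' b')
  obtain ⟨h1, h2, h3⟩ := h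
  obtain ⟨h1', h2', h3'⟩ := h'
  refine ⟨?_, ?_, ?_⟩
  · rw [cge, h1, h1', if_neg (by omega)]
  · rw [mk, cge1] at h2 h2'
    rw [mk, cge1, Rn, if_neg, BT.lv]
    · omega
    · rintro (⟨h, -⟩ | ⟨h, -⟩) <;> exact not_aliv h
  · rw [Kn, h3, h3', if_neg]
    · rfl
    · rintro (⟨h, -⟩ | ⟨h, -⟩) <;> exact not_aliv h

/-! the trees -/

omit hal in
lemma eq_leaf {s : BT} (h : s.lv = 1) : s = BT.leaf := by
  cases s with
  | leaf => rfl
  | node a b =>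
    have ha := a.lv_pos
    have hb := b.lv_pos
    rw [BT.lv] at h
    omega

omit hal in
lemma eq_cherry {s : BT} (h : s.lv = 2) : s = BT.node BT.leaf BT.leaf := by
  cases s with
  | leaf => rw [BT.lv] at h; omega
  | node a b =>
    have ha := a.lv_pos
    have hb := b.lv_pos
    rw [BT.lv] at h
    rw [eq_leaf (s := a) (by omega), eq_leaf (s := b) (by omega)]

/-- the three-leaf tree -/
def T3 : BT := BT.node (BT.node BT.leaf BT.leaf) BT.leaf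
/-- the comb -/
def C4 : BT := BT.node T3 BT.leaf
/-- the balanced tree -/
def D4 : BT := BT.node (BT.node BT.leaf BT.leaf) (BT.node BT.leaf BT.leaf)
/-- the comb -/
def C5 : BT := BT.node C4 BT.leaf
/-- balanced tree and a leaf -/
def D5 : BT := BT.node D4 BT.leaf
/-- three and two -/
def E5 : BT := BT.node T3 (BT.node BT.leaf BT.leaf)

lemma iso3 {s : BT} (h : s.lv = 3) :
    BT.Iso s T3 ∧ Dt al s 1 1 0 ∧ ∃ a b, s = BT.node a b := by
  cases s with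
  | leaf => rw [BT.lv] at h; omega
  | node a b =>
    have ha := a.lv_pos
    have hb := b.lv_pos
    rw [BT.lv] at h
    rcases (by omega : (a.lv = 1 ∧ b.lv = 2) ∨ (a.lv = 2 ∧ b.lv = 1)) with ⟨h1, h2⟩ | ⟨h1, h2⟩
    · rw [eq_leaf h1, eq_cherry h2]
      exact ⟨BT.Iso.swap (BT.Iso.refl _) (BT.Iso.refl _),
        by simpa using dt_ln hal (by omega) (dt_cherry hal), _, _, rfl⟩
    · rw [eq_leaf h2, eq_cherry h1]
      exact ⟨BT.Iso.refl _, by simpa using dt_nl hal (by omega) (dt_cherry hal), _, _, rfl⟩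

lemma iso4 {s : BT} (h : s.lv = 4) :
    ((BT.Iso s C4 ∧ Dt al s 1 1 0) ∨ (BT.Iso s D4 ∧ Dt al s 2 2 0)) ∧ ∃ a b, s = BT.node a b := by
  cases s with
  | leaf => rw [BT.lv] at h; omega
  | node a b =>
    refine ⟨?_, _, _, rfl⟩
    have ha := a.lv_pos
    have hb := b.lv_pos
    rw [BT.lv] at h
    rcases (by omega : (a.lv = 1 ∧ b.lv = 3) ∨ (a.lv = 2 ∧ b.lv = 2) ∨ (a.lv = 3 ∧ b.lv = 1)) with
      ⟨h1, h2⟩ | ⟨h1, h2⟩ | ⟨h1, h2⟩
    · obtain ⟨hi, hd, c, d, rfl⟩ := iso3 hal h2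
      rw [eq_leaf h1]
      exact Or.inl ⟨BT.Iso.swap BT.Iso.leaf hi, by simpa using dt_ln hal (by omega) hd⟩
    · rw [eq_cherry h1, eq_cherry h2]
      exact Or.inr ⟨BT.Iso.refl _, dt_nn (by omega) (dt_cherry hal) (dt_cherry hal)⟩
    · obtain ⟨hi, hd, c, d, rfl⟩ := iso3 hal h1
      rw [eq_leaf h2]
      exact Or.inl ⟨BT.Iso.node hi BT.Iso.leaf, by simpa using dt_nl hal (by omega) hd⟩

lemma iso5 {s : BT} (h : s.lv = 5) :
    ((BT.Iso s C5 ∧ Dt al s 1 1 0) ∨ (BT.Iso s D5 ∧ Dt al s 2 2 1) ∨ (BT.Iso s E5 ∧ Dt al s 2 2 0)) ∧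
      ∃ a b, s = BT.node a b := by
  cases s with
  | leaf => rw [BT.lv] at h; omega
  | node a b =>
    refine ⟨?_, _, _, rfl⟩
    have ha := a.lv_pos
    have hb := b.lv_pos
    rw [BT.lv] at h
    rcases (by omega : (a.lv = 1 ∧ b.lv = 4) ∨ (a.lv = 2 ∧ b.lv = 3) ∨ (a.lv = 3 ∧ b.lv = 2) ∨
      (a.lv = 4 ∧ b.lv = 1)) with
      ⟨h1, h2⟩ | ⟨h1, h2⟩ | ⟨h1, h2⟩ | ⟨h1, h2⟩
    · obtain ⟨hh, c, d, rfl⟩ := iso4 hal h2
      rw [eq_leaf h1]
      rcases hh with ⟨hi, hd⟩ | ⟨hi, hd⟩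
      · exact Or.inl ⟨BT.Iso.swap BT.Iso.leaf hi, by simpa using dt_ln hal (by omega) hd⟩
      · exact Or.inr (Or.inl ⟨BT.Iso.swap BT.Iso.leaf hi, by simpa using dt_ln hal (by omega) hd⟩)
    · obtain ⟨hi, hd, c, d, rfl⟩ := iso3 hal h2
      rw [eq_cherry h1]
      exact Or.inr (Or.inr ⟨BT.Iso.swap (BT.Iso.refl _) hi, dt_nn (by omega) (dt_cherry hal) hd⟩)
    · obtain ⟨hi, hd, c, d, rfl⟩ := iso3 hal h1
      rw [eq_cherry h2]
      exact Or.inr (Or.inr ⟨BT.Iso.node hi (BT.Iso.refl _), dt_nn (by omega) hd (dt_cherry hal)⟩)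
    · obtain ⟨hh, c, d, rfl⟩ := iso4 hal h1
      rw [eq_leaf h2]
      rcases hh with ⟨hi, hd⟩ | ⟨hi, hd⟩
      · exact Or.inl ⟨BT.Iso.node hi BT.Iso.leaf, by simpa using dt_nl hal (by omega) hd⟩
      · exact Or.inr (Or.inl ⟨BT.Iso.node hi BT.Iso.leaf, by simpa using dt_nl hal (by omega) hd⟩)

omit hal in
lemma iso_trans : ∀ {s t u : BT}, BT.Iso s t → BT.Iso t u → BT.Iso s u := by
  intro s t u h
  induction h generalizing u with
  | leaf => exact id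
  | node _ _ h1 h2 =>
    intro h'
    cases h' with
    | node p q => exact BT.Iso.node (h1 p) (h2 q)
    | swap p q => exact BT.Iso.swap (h1 p) (h2 q)
  | swap _ _ h1 h2 =>
    intro h'
    cases h' with
    | node p q => exact BT.Iso.swap (h1 q) (h2 p)
    | swap p q => exact BT.Iso.node (h1 q) (h2 p)

omit hal in
lemma pair {a b a' b' u v : BT} (h1 : BT.Iso a u) (h2 : BT.Iso b v) (h3 : BT.Iso a' u) (h4 : BT.Iso b' v) :
    BT.Iso (BT.node a b) (BT.node a' b') :=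
  BT.Iso.node (iso_trans h1 h3.symm) (iso_trans h2 h4.symm)

omit hal in
lemma pair' {a b a' b' u v : BT} (h1 : BT.Iso a u) (h2 : BT.Iso b v) (h3 : BT.Iso a' v) (h4 : BT.Iso b' u) :
    BT.Iso (BT.node a b) (BT.node a' b') :=
  BT.Iso.swap (iso_trans h1 h4.symm) (iso_trans h2 h3.symm)

end R12

open R12

variable {K : Type*} [Field K]

theorem small_twins {a b a' b' : BT} (hk : a.lv ≤ 5) (hb : b.lv = a.lv) (hc : a'.lv = a.lv)
    (hd : b'.lv = a.lv) (h : Eqv K (BT.node a b) (BT.node a' b')) :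
    BT.Iso (BT.node a b) (BT.node a' b') := by
  have hal : ∀ s : BT, alN (⊥ : Submodule K (TT K)) s := by
    intro s hs
    exact X0_ne_bot s (le_bot_iff.1 hs)
  have ha1 := a.lv_pos
  have hlv : (BT.node a b).lv = 2 * a.lv := by rw [BT.lv]; omega
  rcases (by omega : a.lv = 1 ∨ a.lv = 2 ∨ a.lv = 3 ∨ a.lv = 4 ∨ a.lv = 5) with e | e | e | e | e
  · rw [eq_leaf e, eq_leaf (s := b) (by omega), eq_leaf (s := a') (by omega),
      eq_leaf (s := b') (by omega)]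
    exact BT.Iso.refl _
  · rw [eq_cherry e, eq_cherry (s := b) (by omega), eq_cherry (s := a') (by omega),
      eq_cherry (s := b') (by omega)]
    exact BT.Iso.refl _
  · exact pair (iso3 hal e).1 (iso3 hal (by omega)).1 (iso3 hal (by omega)).1 (iso3 hal (by omega)).1
  · have h2 := (h.2 2 (by omega) (by omega)).1
    obtain ⟨Ha, a1, a2, rfl⟩ := iso4 hal e
    obtain ⟨Hb, b1, b2, rfl⟩ := iso4 hal (s := b) (by omega)
    obtain ⟨Hc, c1, c2, rfl⟩ := iso4 hal (s := a') (by omega)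
    obtain ⟨Hd, d1, d2, rfl⟩ := iso4 hal (s := b') (by omega)
    rcases Ha with ⟨i1, j1⟩ | ⟨i1, j1⟩ <;> rcases Hb with ⟨i2, j2⟩ | ⟨i2, j2⟩ <;>
    rcases Hc with ⟨i3, j3⟩ | ⟨i3, j3⟩ <;> rcases Hd with ⟨i4, j4⟩ | ⟨i4, j4⟩ <;>
    first
    | exact pair i1 i2 i3 i4
    | exact pair' i1 i2 i3 i4
    | (exfalso
       rw [(dt_nn (by omega) j1 j2).c2, (dt_nn (by omega) j3 j4).c2] at h2
       omega)
  · have h2 := (h.2 2 (by omega) (by omega)).1
    have h3 := ((h.2 1 (by omega) (by omega)).2 ⊥).2 2 le_rfl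
    obtain ⟨Ha, a1, a2, rfl⟩ := iso5 hal e
    obtain ⟨Hb, b1, b2, rfl⟩ := iso5 hal (s := b) (by omega)
    obtain ⟨Hc, c1, c2, rfl⟩ := iso5 hal (s := a') (by omega)
    obtain ⟨Hd, d1, d2, rfl⟩ := iso5 hal (s := b') (by omega)
    rcases Ha with ⟨i1, j1⟩ | ⟨i1, j1⟩ | ⟨i1, j1⟩ <;> rcases Hb with ⟨i2, j2⟩ | ⟨i2, j2⟩ | ⟨i2, j2⟩ <;>
    rcases Hc with ⟨i3, j3⟩ | ⟨i3, j3⟩ | ⟨i3, j3⟩ <;> rcases Hd with ⟨i4, j4⟩ | ⟨i4, j4⟩ | ⟨i4, j4⟩ <;>
    first
    | exact pair i1 i2 i3 i4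
    | exact pair' i1 i2 i3 i4
    | (exfalso
       rw [(dt_nn (by omega) j1 j2).c2, (dt_nn (by omega) j3 j4).c2] at h2
       rw [(dt_nn (by omega) j1 j2).k1, (dt_nn (by omega) j3 j4).k1] at h3
       omega)

end Pool.Agent.BK
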