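import Pool.Agent.BK.R10
import Pool.Agent.BK.R12

/-! Board BK, row R13: trees whose siblings of equal size at least six are isomorphic -/

namespace Pool.Agent.BK

open Pool.Agent.H25

private lemma r13_cg0 {r : ℕ} (hr : 1 ≤ r) : ∀ {s : BT}, s.lv < r → cge r s = 0
  | BT.leaf, h => by
    have h' : 1 < r := h
    rw [cge, if_neg (by omega)]
  | BT.node a b, h => by
    have h' : a.lv + b.lv < r := h
    have ha := a.lv_pos
    have hb := b.lv_pos
    rw [cge, r13_cg0 hr (s := a) (by omega), r13_cg0 hr (s := b) (by omega), if_pos rfl,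
      if_neg (by omega)]

private lemma r13_cg1 {r : ℕ} : ∀ {s : BT}, r ≤ s.lv → 1 ≤ cge r s
  | BT.leaf, h => by
    have h' : r ≤ 1 := h
    rw [cge, if_pos h']
  | BT.node a b, h => by
    have h' : r ≤ a.lv + b.lv := h
    rw [cge]
    split_ifs with h1
    · exact le_refl _
    · omega

private lemma r13_cge {r : ℕ} {a b : BT} (h : r ≤ a.lv) :
    cge r (BT.node a b) = cge r a + cge r b := by
  rw [cge, if_neg]
  have := r13_cg1 h; omega

private lemma r13_Rn {r : ℕ} (al : BT → Prop) {a b : BT} (ha : r < a.lv) (hb : r < b.lv) :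
    Rn r al (BT.node a b) = Rn r al a + Rn r al b := by
  have hn : ¬ ((Aliv r al a ∧ r ≤ b.lv) ∨ (Aliv r al b ∧ r ≤ a.lv)) := by
    rintro (⟨⟨h, _⟩, _⟩ | ⟨⟨h, _⟩, _⟩) <;> omega
  rw [Rn, if_neg hn, add_zero]

private lemma r13_Kn {r : ℕ} (al : BT → Prop) (m : ℕ) {a b : BT} (ha : r < a.lv) (hb : r < b.lv) :
    Kn r al m (BT.node a b) = Kn r al m a + Kn r al m b := by
  have hn : ¬ ((Aliv r al a ∧ r ≤ b.lv ∧ m ∣ mk r al b) ∨ (Aliv r al b ∧ r ≤ a.lv ∧ m ∣ mk r al a)) := by
    rintro (⟨⟨h, _⟩, _⟩ | ⟨⟨h, _⟩, _⟩) <;> omega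
  rw [Kn, if_neg hn, add_zero]

variable {K : Type*} [Field K] [Infinite K]

omit [Infinite K] in
private lemma r13_trans {a b c : BT} (h : Eqv K a b) (h' : Eqv K b c) : Eqv K a c := by
  refine ⟨h.1.trans h'.1, fun r hr hra => ?_⟩
  obtain ⟨h1, h2⟩ := h.2 r hr hra
  obtain ⟨h3, h4⟩ := h'.2 r hr (by have := h.1; omega)
  exact ⟨h1.trans h3, fun P => ⟨(h2 P).1.trans (h4 P).1, fun m hm => ((h2 P).2 m hm).trans ((h4 P).2 m hm)⟩⟩

/-- the node with two isomorphic children -/
lemma twin_node' {a b a' b' : BT} (hab : BT.Iso a b) (ha' : a'.lv = a.lv) (hb' : b'.lv = a.lv)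
    (h : Eqv K (BT.node a b) (BT.node a' b')) : Eqv K a a' ∧ Eqv K a b' := by
  have hbl : a.lv = b.lv := hab.lv_eq
  have hXab : X0 K a = X0 K b := X0_iso hab
  have hE : Eqv K a b := eqv_of_X0 hXab
  have h4 := S4 (K := K) hbl.symm (by omega) (by omega) h
  rw [← hXab, sup_idem] at h4
  have hla : X0 K a' ≤ X0 K a := by rw [h4]; exact le_sup_left
  have hlb : X0 K b' ≤ X0 K a := by rw [h4]; exact le_sup_right
  have key : ∀ r, 1 ≤ r → r < a.lv → (cge r a = cge r a' ∧ cge r a = cge r b') ∧
      ∀ P : Submodule K (TT K), (Rn r (alN P) a = Rn r (alN P) a' ∧ Rn r (alN P) a = Rn r (alN P) b') ∧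
        ∀ m, 2 ≤ m → Kn r (alN P) m a = Kn r (alN P) m a' ∧ Kn r (alN P) m a = Kn r (alN P) m b' := by
    intro r hr hra
    obtain ⟨h5, h6⟩ := h.2 r hr (by change r < a.lv + b.lv; omega)
    obtain ⟨h7, h8⟩ := hE.2 r hr hra
    rw [r13_cge hra.le, r13_cge (by omega)] at h5
    have t1 := (transfer hla ha' r hr (by omega) ⊤ 2 le_rfl).1
    have t2 := (transfer hlb hb' r hr (by omega) ⊤ 2 le_rfl).1
    have c1 : cge r a = cge r a' := by omega
    have c2 : cge r a = cge r b' := by omega
    refine ⟨⟨c1, c2⟩, fun P => ?_⟩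
    obtain ⟨h9, h10⟩ := h6 P
    obtain ⟨h11, h12⟩ := h8 P
    rw [r13_Rn _ hra (by omega), r13_Rn _ (by omega) (by omega)] at h9
    have t3 := (transfer hla ha' r hr (by omega) P 2 le_rfl).2.1 c1
    have t4 := (transfer hlb hb' r hr (by omega) P 2 le_rfl).2.1 c2
    have c3 : Rn r (alN P) a = Rn r (alN P) a' := by omega
    have c4 : Rn r (alN P) a = Rn r (alN P) b' := by omega
    refine ⟨⟨c3, c4⟩, fun m hm => ?_⟩
    have h13 := h10 m hm
    have h14 := h12 m hm
    rw [r13_Kn _ _ hra (by omega), r13_Kn _ _ (by omega) (by omega)] at h13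
    have t5 := (transfer hla ha' r hr (by omega) P m hm).2.2 c1 c3.symm
    have t6 := (transfer hlb hb' r hr (by omega) P m hm).2.2 c2 c4.symm
    omega
  refine ⟨⟨ha'.symm, fun r hr hra => ?_⟩, ⟨hb'.symm, fun r hr hra => ?_⟩⟩
  · obtain ⟨h1, h2⟩ := key r hr hra
    exact ⟨h1.1, fun P => ⟨(h2 P).1.1, fun m hm => ((h2 P).2 m hm).1⟩⟩
  · obtain ⟨h1, h2⟩ := key r hr hra
    exact ⟨h1.2, fun P => ⟨(h2 P).1.2, fun m hm => ((h2 P).2 m hm).2⟩⟩

private lemma r13_main : ∀ (n : ℕ) (s t : BT), s.lv ≤ n → Tw s → Eqv K s t → BT.Iso s t := by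
  intro n
  induction n with
  | zero => intro s t h; have := s.lv_pos; omega
  | succ n ih =>
    intro s t hn hs hE
    -- ordered children
    have ord : ∀ a b a' b' : BT, a.lv + b.lv ≤ n + 1 → Tw a → Tw b → (a.lv = b.lv → 6 ≤ a.lv → BT.Iso a b) →
        b.lv ≤ a.lv → b'.lv ≤ a'.lv → Eqv K (BT.node a b) (BT.node a' b') →
        BT.Iso a a' ∧ BT.Iso b b' ∨ BT.Iso (BT.node a b) (BT.node a' b') := by
      intro a b a' b' hn ha hb hab h1 h2 hE
      have hap := a.lv_pos
      have hbp := b.lv_pos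
      have hbb := S1 h1 h2 hE
      have hs : a.lv + b.lv = a'.lv + b'.lv := hE.1
      rcases Nat.lt_or_ge b.lv a.lv with hlt | hge
      · have hX := S2 hlt hbb hE
        have hEb : Eqv K b b' := eqv_of_X0 hX
        exact Or.inl ⟨ih a a' (by omega) ha (S3 hlt hbb hX hEb hE), ih b b' (by omega) hb hEb⟩
      · have heq : b.lv = a.lv := by omega
        by_cases h6 : 6 ≤ a.lv
        · have hiso := hab heq.symm h6
          obtain ⟨e1, e2⟩ := twin_node' hiso (by omega) (by omega) hE
          exact Or.inl ⟨ih a a' (by omega) ha e1, 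
            ih b b' (by omega) hb (r13_trans (eqv_of_X0 (X0_iso hiso.symm)) e2)⟩
        · exact Or.inr (small_twins (by omega) heq (by omega) (by omega) hE)
    cases s with
    | leaf =>
      cases t with
      | leaf => exact BT.Iso.leaf
      | node a' b' =>
        exfalso
        have h1 : 1 = a'.lv + b'.lv := hE.1
        have := a'.lv_pos
        have := b'.lv_pos
        omega
    | node a b =>
      cases t with
      | leaf =>
        exfalso
        have h1 : a.lv + b.lv = 1 := hE.1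
        have := a.lv_pos
        have := b.lv_pos
        omega
      | node a' b' =>
        obtain ⟨ha, hb, hab⟩ := hs
        have hn' : a.lv + b.lv ≤ n + 1 := hn
        rcases le_total b.lv a.lv with h1 | h1 <;> rcases le_total b'.lv a'.lv with h2 | h2
        · rcases ord a b a' b' hn' ha hb hab h1 h2 hE with h | h
          · exact BT.Iso.node h.1 h.2
          · exact h
        · have hE' : Eqv K (BT.node a b) (BT.node b' a') := eqv_symm (eqv_swap (eqv_symm hE))
          rcases ord a b b' a' hn' ha hb hab h1 h2 hE' with h | h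
          · exact BT.Iso.swap h.1 h.2
          · cases h with
            | node h3 h4 => exact BT.Iso.swap h3 h4
            | swap h3 h4 => exact BT.Iso.node h3 h4
        · have hE' : Eqv K (BT.node b a) (BT.node a' b') := eqv_swap hE
          rcases ord b a a' b' (by omega) hb ha
            (fun h h' => (hab h.symm (by omega)).symm) h1 h2 hE' with h | h
          · exact BT.Iso.swap h.2 h.1
          · cases h with
            | node h3 h4 => exact BT.Iso.swap h4 h3
            | swap h3 h4 => exact BT.Iso.node h4 h3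
        · have hE' : Eqv K (BT.node b a) (BT.node b' a') :=
            eqv_swap (eqv_symm (eqv_swap (eqv_symm hE)))
          rcases ord b a b' a' (by omega) hb ha
            (fun h h' => (hab h.symm (by omega)).symm) h1 h2 hE' with h | h
          · exact BT.Iso.node h.2 h.1
          · cases h with
            | node h3 h4 => exact BT.Iso.node h4 h3
            | swap h3 h4 => exact BT.Iso.swap h4 h3

/-- R13, strong form: only the first tree is restricted -/
theorem iso_of_tw' {s t : BT} (hs : Tw s) (h : X0 K s = X0 K t) : BT.Iso s t :=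
  r13_main s.lv s t (le_refl _) hs (eqv_of_X0 h)

/-- R13 -/
theorem iso_of_tw {s t : BT} (hs : Tw s) (_ht : Tw t) (h : X0 K s = X0 K t) : BT.Iso s t :=
  iso_of_tw' hs h

end Pool.Agent.BK
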