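import Pool.Agent.BK.R13

/-! Closure of the class of recognizable trees -/

namespace Pool.Agent.BK

open Pool.Agent.H25

mutual

/-- recognizable trees -/
inductive Rec : BT → Prop
  | small {s : BT} : s.lv ≤ 14 → Rec s
  | cherries {s : BT} : ch s ≤ 5 → Rec s
  | good {s : BT} : Good s → Rec s
  | strong {s : BT} : Strong s → Rec s
  | twins {a b : BT} : a.lv = b.lv → Rec a → Rec b → Rec (BT.node a b)
  | ndvd {a b : BT} : b.lv < a.lv → ¬ b.lv ∣ a.lv → Rec a → Rec b → Rec (BT.node a b)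
  | ndvd' {a b : BT} : a.lv < b.lv → ¬ a.lv ∣ b.lv → Rec a → Rec b → Rec (BT.node a b)

/-- strongly recognizable trees -/
inductive Strong : BT → Prop
  | leaf : Strong BT.leaf
  | big_left {a b : BT} : b.lv < a.lv → Strong a → Rec b → Strong (BT.node a b)
  | big_right {a b : BT} : a.lv < b.lv → Rec a → Strong b → Strong (BT.node a b)
  | small_twins {a b : BT} : a.lv = b.lv → a.lv ≤ 5 → Strong (BT.node a b)
  | iso_twins {a b : BT} : BT.Iso a b → Strong a → Strong b → Strong (BT.node a b)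

end

/-- trees whose siblings of equal size at least six are isomorphic are recognizable -/
theorem Strong.of_tw : ∀ {s : BT}, Tw s → Strong s
  | BT.leaf, _ => Strong.leaf
  | BT.node a b, ⟨ha, hb, hab⟩ => by
    rcases lt_trichotomy a.lv b.lv with h | h | h
    · exact Strong.big_right h (Rec.strong (Strong.of_tw ha)) (Strong.of_tw hb)
    · by_cases h6 : 6 ≤ a.lv
      · exact Strong.iso_twins (hab h h6) (Strong.of_tw ha) (Strong.of_tw hb)
      · exact Strong.small_twins h (by omega)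
    · exact Strong.big_left h (Strong.of_tw ha) (Rec.strong (Strong.of_tw hb))

variable {K : Type*} [Field K]

private def zt : BT → DT
  | BT.leaf => DT.leaf 0
  | BT.node a b => DT.node 0 (zt a) (zt b)

private lemma zt_lv : ∀ s : BT, (zt s).lv = s.lv
  | BT.leaf => rfl
  | BT.node a b => by rw [zt, DT.lv, BT.lv, zt_lv a, zt_lv b]

private lemma zt_dec : ∀ s : BT, (zt s).dec = 0
  | BT.leaf => rfl
  | BT.node a b => by rw [zt, DT.dec, zt_dec a, zt_dec b]

private lemma zt_XX : ∀ s : BT, XX K (zt s) = X0 K s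
  | BT.leaf => by rw [zt, XX, X0]
  | BT.node a b => by rw [zt, XX_zero, zt_XX a, zt_XX b, X0]

private lemma meet_of_ndvd {a b : BT} (h : ¬ b.lv ∣ a.lv) :
    X0 K a ⊓ X0 K b * (⊤ : Submodule K (TT K)) = ⊥ := by
  rw [eq_bot_iff]
  rintro x ⟨hx, hxb⟩
  rw [Submodule.mem_bot]
  by_contra hx0
  rw [← zt_XX a] at hx
  have hb : X0 K b ≤ bi K b.lv 0 := by
    have := XX_bi (K := K) (zt b)
    rwa [zt_XX, zt_lv, zt_dec] at this
  have hp : X0 K b ≤ Prim K := by
    rw [← zt_XX b]
    exact XX_prim _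
  obtain ⟨j, hj, _⟩ := bideg_of_meet b.lv_pos hb hp hx hxb hx0
  rw [zt_lv] at hj
  exact h ⟨j, by rw [hj, mul_comm]⟩

variable [Infinite K]

private lemma eqv_lv {s t : BT} (h : Eqv K s t) : s.lv = t.lv := h.1

private lemma eqv_trans14 {a b c : BT} (h : Eqv K a b) (h' : Eqv K b c) : Eqv K a c := by
  refine ⟨h.1.trans h'.1, fun r hr hra => ?_⟩
  obtain ⟨h1, h2⟩ := h.2 r hr hra
  obtain ⟨h3, h4⟩ := h'.2 r hr (by have := h.1; omega)
  exact ⟨h1.trans h3, fun P => ⟨(h2 P).1.trans (h4 P).1, fun m hm => ((h2 P).2 m hm).trans ((h4 P).2 m hm)⟩⟩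

/-- determined by the subspace -/
private def DX (K : Type*) [Field K] (s : BT) : Prop := ∀ t : BT, X0 K s = X0 K t → BT.Iso s t

/-- determined by the invariants -/
private def DE (K : Type*) [Field K] (s : BT) : Prop := ∀ t : BT, Eqv K s t → BT.Iso s t

private lemma iso_swr {s a b : BT} (h : BT.Iso s (BT.node a b)) : BT.Iso s (BT.node b a) := by
  cases h with
  | node h1 h2 => exact BT.Iso.swap h1 h2
  | swap h1 h2 => exact BT.Iso.node h1 h2

private lemma iso_swl {s a b : BT} (h : BT.Iso (BT.node a b) s) : BT.Iso (BT.node b a) s := by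
  cases h with
  | node h1 h2 => exact BT.Iso.swap h2 h1
  | swap h1 h2 => exact BT.Iso.node h2 h1

private lemma eqv_swr {s a b : BT} (h : Eqv K s (BT.node a b)) : Eqv K s (BT.node b a) :=
  eqv_symm (eqv_swap (eqv_symm h))

/-- reduce to a second tree with ordered children -/
private lemma DE_of {a b : BT} (h : ∀ a' b' : BT, b'.lv ≤ a'.lv → Eqv K (BT.node a b) (BT.node a' b') →
    BT.Iso (BT.node a b) (BT.node a' b')) : DE K (BT.node a b) := by
  intro t ht
  cases t with
  | leaf =>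
    exfalso
    have h1 : a.lv + b.lv = 1 := ht.1
    have := a.lv_pos
    have := b.lv_pos
    omega
  | node a' b' =>
    rcases le_total b'.lv a'.lv with h1 | h1
    · exact h a' b' h1 ht
    · exact iso_swr (h b' a' h1 (eqv_swr ht))

omit [Infinite K] in
private lemma X0_swap (a b : BT) : X0 K (BT.node a b) = X0 K (BT.node b a) := by
  rw [X0, X0, br_comm]

private lemma DX_of {a b : BT} (h : ∀ a' b' : BT, b'.lv ≤ a'.lv → X0 K (BT.node a b) = X0 K (BT.node a' b') →
    BT.Iso (BT.node a b) (BT.node a' b')) : DX K (BT.node a b) := by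
  intro t ht
  cases t with
  | leaf =>
    exfalso
    have h1 : a.lv + b.lv = 1 := lv_eq_of_X0 ht
    have := a.lv_pos
    have := b.lv_pos
    omega
  | node a' b' =>
    rcases le_total b'.lv a'.lv with h1 | h1
    · exact h a' b' h1 ht
    · exact iso_swr (h b' a' h1 (ht.trans (X0_swap a' b')))

private lemma DX_of_DE {s : BT} (h : DE K s) : DX K s := fun t ht => h t (eqv_of_X0 ht)

private lemma DE_swap {a b : BT} (h : DE K (BT.node b a)) : DE K (BT.node a b) :=
  fun t ht => iso_swl (h t (eqv_swap ht))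

private lemma DX_swap {a b : BT} (h : DX K (BT.node b a)) : DX K (BT.node a b) :=
  fun t ht => iso_swl (h t ((X0_swap b a).trans ht))

private lemma DE_big {a b : BT} (h : b.lv < a.lv) (ha : DE K a) (hb : DX K b) :
    DE K (BT.node a b) := by
  refine DE_of (fun a' b' h' hE => ?_)
  have hbb := S1 h.le h' hE
  have hX := S2 h hbb hE
  exact BT.Iso.node (ha a' (S3 h hbb hX (eqv_of_X0 hX) hE)) (hb b' hX)

private lemma DE_iso {a b : BT} (h : BT.Iso a b) (ha : DE K a) (hb : DE K b) :
    DE K (BT.node a b) := by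
  refine DE_of (fun a' b' h' hE => ?_)
  have hab := h.lv_eq
  have hbb := S1 hab.ge h' hE
  have hs : a.lv + b.lv = a'.lv + b'.lv := hE.1
  obtain ⟨e1, e2⟩ := twin_node' h (by omega) (by omega) hE
  exact BT.Iso.node (ha a' e1) (hb b' (eqv_trans14 (eqv_of_X0 (X0_iso h.symm)) e2))

private lemma DE_small {a b : BT} (h : a.lv = b.lv) (h5 : a.lv ≤ 5) : DE K (BT.node a b) := by
  refine DE_of (fun a' b' h' hE => ?_)
  have hbb := S1 h.ge h' hE
  have hs : a.lv + b.lv = a'.lv + b'.lv := hE.1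
  exact small_twins h5 h.symm (by omega) (by omega) hE

private lemma DX_twins {a b : BT} (h : a.lv = b.lv) (ha : DX K a) (hb : DX K b) :
    DX K (BT.node a b) := by
  refine DX_of (fun a' b' h' hX => ?_)
  have hE := eqv_of_X0 hX
  have hbb := S1 h.ge h' hE
  have hs : a.lv + b.lv = a'.lv + b'.lv := hE.1
  rw [X0, X0] at hX
  have l1 := X0_le_len (K := K) a
  have l2 : X0 K b ≤ len K a.lv := by rw [h]; exact X0_le_len b
  have l3 : X0 K a' ≤ len K a.lv := by
    have e : a.lv = a'.lv := by omega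
    rw [e]; exact X0_le_len a'
  have l4 : X0 K b' ≤ len K a.lv := by
    have e : a.lv = b'.lv := by omega
    rw [e]; exact X0_le_len b'
  rcases factor_eq a.lv_pos l1 l2 l3 l4 (X0_clo a) (X0_clo b) (X0_clo a') (X0_clo b') (X0_ne_bot a)
    (X0_ne_bot b) (X0_ne_bot a') (X0_ne_bot b') hX with ⟨h1, h2⟩ | ⟨h1, h2⟩
  · exact BT.Iso.node (ha a' h1) (hb b' h2)
  · exact BT.Iso.swap (ha b' h1) (hb a' h2)

private lemma DX_ndvd {a b : BT} (h : b.lv < a.lv) (hd : ¬ b.lv ∣ a.lv) (ha : DX K a) (hb : DX K b) :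
    DX K (BT.node a b) := by
  refine DX_of (fun a' b' h' hX => ?_)
  have hE := eqv_of_X0 hX
  have hbb := S1 h.le h' hE
  have hs : a.lv + b.lv = a'.lv + b'.lv := hE.1
  have hXb := S2 h hbb hE
  rw [X0, X0] at hX
  have l3 : X0 K a' ≤ len K a.lv := by
    have e : a.lv = a'.lv := by omega
    rw [e]; exact X0_le_len a'
  have l4 : X0 K b' ≤ len K b.lv := by
    rw [hbb]; exact X0_le_len b'
  have H : X0 K a ⊓ X0 K b' * (⊤ : Submodule K (TT K)) = ⊥ := by
    rw [← hXb]; exact meet_of_ndvd hd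
  obtain ⟨h1, h2⟩ := factor_lt b.lv_pos h.le (X0_le_len a) (X0_le_len b) l3 l4 (X0_clo a) (X0_clo b)
    (X0_clo a') (X0_clo b') (X0_ne_bot a) (X0_ne_bot b) (X0_ne_bot b') hX H
  exact BT.Iso.node (ha a' h1) (hb b' h2)

mutual

private theorem rec_DX : ∀ {s : BT}, Rec s → DX K s
  | _, Rec.small h => fun t ht => iso_of_X0 _ _ t le_rfl (good_of_lv _ h) ht
  | _, Rec.cherries h => fun t ht => iso_of_X0 _ _ t le_rfl (good_of_ch _ h) ht
  | _, Rec.good h => fun t ht => iso_of_X0 _ _ t le_rfl h ht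
  | _, Rec.strong h => DX_of_DE (strong_DE h)
  | _, Rec.twins h ha hb => DX_twins h (rec_DX ha) (rec_DX hb)
  | _, Rec.ndvd h hd ha hb => DX_ndvd h hd (rec_DX ha) (rec_DX hb)
  | _, Rec.ndvd' h hd ha hb => DX_swap (DX_ndvd h hd (rec_DX hb) (rec_DX ha))

private theorem strong_DE : ∀ {s : BT}, Strong s → DE K s
  | _, Strong.leaf => by
    intro t ht
    cases t with
    | leaf => exact BT.Iso.leaf
    | node a' b' =>
      exfalso
      have h1 : 1 = a'.lv + b'.lv := ht.1
      have := a'.lv_pos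
      have := b'.lv_pos
      omega
  | _, Strong.big_left h ha hb => DE_big h (strong_DE ha) (rec_DX hb)
  | _, Strong.big_right h ha hb => DE_swap (DE_big h (strong_DE hb) (rec_DX ha))
  | _, Strong.small_twins h h5 => DE_small h h5
  | _, Strong.iso_twins h ha hb => DE_iso h (strong_DE ha) (strong_DE hb)

end

/-- recognizable trees are determined by their subspace -/
theorem iso_of_rec {s t : BT} (hs : Rec s) (h : X0 K s = X0 K t) : BT.Iso s t := rec_DX hs t h

end Pool.Agent.BK
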